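import Pool.Agent.Lib.MP_c85d9c_lc.Waiter

/-!
# Quantified Boolean formulas
-/

namespace Pool.Agent.Lib.MP_c85d9c_lc

/-- A literal `(u, b, i)`: the variable is the universal variable `y_i` if `u = true` and the
existential variable `x_i` if `u = false`; the literal is the variable itself if `b = true` and
its negation if `b = false`. -/
abbrev Lit := Bool × Bool × ℕ

/-- A formula in conjunctive normal form with variables `x_0, x_1, …` and `y_0, y_1, …`: a list of
clauses, each of which is a list of literals. -/
abbrev Formula := List (List Lit)

/-- The literal is true under the assignment `x_i = α i`, `y_i = β i`. -/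
def Lit.Holds (α β : ℕ → Bool) (l : Lit) : Prop := (if l.1 then β l.2.2 else α l.2.2) = l.2.1

/-- The formula (without quantifiers) is true under the assignment `x_i = α i`, `y_i = β i`. -/
def Formula.Holds (φ : Formula) (α β : ℕ → Bool) : Prop := ∀ C ∈ φ, ∃ l ∈ C, Lit.Holds α β l

/-- The least `n` such that all the variables of the formula have indices less than `n`. -/
def Formula.bound (φ : Formula) : ℕ := (φ.flatten.map fun l => l.2.2 + 1).foldr max 0

/-- `∃ x_{n-1} ∀ y_{n-1} ⋯ ∃ x_0 ∀ y_0, M (x, y)`, where the other variables have the values given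
by `α` and `β`. -/
def Alt (M : (ℕ → Bool) → (ℕ → Bool) → Prop) : ℕ → (ℕ → Bool) → (ℕ → Bool) → Prop
  | 0, α, β => M α β
  | n + 1, α, β => ∃ a, ∀ b, Alt M n (Function.update α n a) (Function.update β n b)

/-- The truth of the quantified Boolean formula `∃ x_{n-1} ∀ y_{n-1} ⋯ ∃ x_0 ∀ y_0, φ`, where all
the variables of `φ` have indices less than `n`. -/
def Formula.IsTrue (φ : Formula) : Prop :=
  Alt φ.Holds φ.bound (fun _ => false) (fun _ => false)

/-- The formula has no universal variables: it is an ordinary formula in conjunctive normal form. -/
def Formula.IsExistential (φ : Formula) : Prop := ∀ C ∈ φ, ∀ l ∈ C, l.1 = false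

/-- The formula (without quantifiers) is satisfiable. -/
def Formula.Satisfiable (φ : Formula) : Prop := ∃ α β : ℕ → Bool, φ.Holds α β

/-! ## Encodings by words over a finite alphabet -/

/-- The encoding of a literal. -/
def encL (l : Lit) : List Sym := List.replicate l.2.2 Sym.tick ++ [Sym.lit l.1 l.2.1]

/-- The encoding of a clause. -/
def encC (C : List Lit) : List Sym := C.flatMap encL ++ [Sym.stop]

/-- The encoding of a formula. -/
def Formula.encode (φ : Formula) : List Sym := φ.flatMap encC

end Pool.Agent.Lib.MP_c85d9c_lc
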