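import Mathlib

/-!
# A small programming language and its translation to Turing machines (Mathlib's `TM2`)

The machines have an input, an output (write-only, reversed) and finitely many counters.
-/

set_option linter.unusedSectionVars false

namespace Pool.Agent.Lib.MP_c85d9c_lc

open Function

variable {A R : Type} [DecidableEq R] [Inhabited A]

/-- Programs. `A` is the alphabet and `R` is the set of counters; the stack `none` is the input. -/
inductive Cmd (A R : Type)
  | skip
  | out (a : A)
  | inc (r : R)
  | clr (r : R)
  | seq (c d : Cmd A R)
  | each (k : Option R) (f : A → Cmd A R)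

/-- The stacks of the machine: `inl (false, k)` is the stack `k` (the input for `k = none`, the
counter `r` for `k = some r`), `inl (true, k)` is an auxiliary stack for it, `inr false` is the
reversed output and `inr true` is the output. -/
abbrev Stk (R : Type) := (Bool × Option R) ⊕ Bool

/-- The contents of the stacks. -/
abbrev Store (A R : Type) := Stk R → List A

/-- The main stack. -/
abbrev mn (k : Option R) : Stk R := Sum.inl (false, k)
/-- The auxiliary stack. -/
abbrev ax (k : Option R) : Stk R := Sum.inl (true, k)
/-- The reversed output. -/
abbrev ou : Stk R := Sum.inr false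
/-- The output. -/
abbrev fi : Stk R := Sum.inr true

namespace Cmd

/-- The effect of a program. -/
def exec : Cmd A R → Store A R → Store A R
  | skip, S => S
  | out a, S => update S ou (a :: S ou)
  | inc r, S => update S (mn (some r)) (default :: S (mn (some r)))
  | clr r, S => update S (mn (some r)) []
  | seq c d, S => exec d (exec c S)
  | each k f, S => (S (mn k)).foldl (fun S a => exec (f a) S) S

/-- The running time. -/
def cost : Cmd A R → Store A R → ℕ
  | skip, _ => 1
  | out _, _ => 1
  | inc _, _ => 1
  | clr r, S => (S (mn (some r))).length + 1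
  | seq c d, S => cost c S + cost d (exec c S)
  | each k f, S => ((S (mn k)).foldl (fun p a => (exec (f a) p.1, p.2 + (cost (f a) p.1 + 1)))
      (S, 0)).2 + ((S (mn k)).length + 2)

/-- The program does not use the stack `k`. -/
def Free : Cmd A R → Option R → Prop
  | skip, _ => True
  | out _, _ => True
  | inc r, k => k ≠ some r
  | clr r, k => k ≠ some r
  | seq c d, k => Free c k ∧ Free d k
  | each k' f, k => k ≠ k' ∧ ∀ a, Free (f a) k

/-- No loop modifies its own counter. -/
def WF : Cmd A R → Prop
  | skip => True
  | out _ => True
  | inc _ => True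
  | clr _ => True
  | seq c d => WF c ∧ WF d
  | each k f => ∀ a, Free (f a) k ∧ WF (f a)

/-- The auxiliary stacks of the loops of the program are empty. -/
def AuxE : Cmd A R → Store A R → Prop
  | skip, _ => True
  | out _, _ => True
  | inc _, _ => True
  | clr _, _ => True
  | seq c d, S => AuxE c S ∧ AuxE d S
  | each k f, S => S (ax k) = [] ∧ ∀ a, AuxE (f a) S

theorem auxE_congr {c : Cmd A R} {S S' : Store A R} (h : ∀ k, S (ax k) = S' (ax k)) :
    AuxE c S → AuxE c S' := by
  induction c with
  | skip | out | inc | clr => intro _; trivial
  | seq c d ihc ihd => rintro ⟨h1, h2⟩; exact ⟨ihc h1, ihd h2⟩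
  | each k f ih => rintro ⟨h1, h2⟩; exact ⟨(h k) ▸ h1, fun a => ih a (h2 a)⟩

theorem auxE_free {c : Cmd A R} {S S' : Store A R} {k₀ : Option R} (hf : Free c k₀)
    (h : ∀ k, k ≠ k₀ → S (ax k) = S' (ax k)) : AuxE c S → AuxE c S' := by
  induction c with
  | skip | out | inc | clr => intro _; trivial
  | seq c d ihc ihd => rintro ⟨h1, h2⟩; exact ⟨ihc hf.1 h1, ihd hf.2 h2⟩
  | each k f ih =>
    rintro ⟨h1, h2⟩
    exact ⟨(h k (fun hh => hf.1 hh.symm)) ▸ h1, fun a => ih a (hf.2 a) (h2 a)⟩

/-- A program commutes with changes of stacks that it does not use. -/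
theorem frame_ax (c : Cmd A R) (k : Option R) (l : List A) : ∀ S : Store A R,
    exec c (update S (ax k) l) = update (exec c S) (ax k) l ∧
      cost c (update S (ax k) l) = cost c S := by
  induction c with
  | skip => intro S; exact ⟨rfl, rfl⟩
  | out a =>
    intro S
    refine ⟨?_, rfl⟩
    unfold exec
    rw [update_of_ne (by simp), update_comm (by simp)]
  | inc r =>
    intro S
    refine ⟨?_, rfl⟩
    unfold exec
    rw [update_of_ne (by simp), update_comm (by simp)]
  | clr r =>
    intro S
    constructor
    · unfold exec; rw [update_comm (by simp)]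
    · unfold cost; rw [update_of_ne (by simp)]
  | seq c d ihc ihd =>
    intro S
    unfold exec cost
    rw [(ihc S).1, (ihc S).2, (ihd _).1, (ihd _).2]
    exact ⟨rfl, rfl⟩
  | each k' f ih =>
    intro S
    unfold exec cost
    rw [update_of_ne (by simp)]
    have h1 : ∀ (L : List A) (S : Store A R) (n : ℕ),
        L.foldl (fun p a => (exec (f a) p.1, p.2 + (cost (f a) p.1 + 1)))
          (update S (ax k) l, n) =
        (update (L.foldl (fun p a => (exec (f a) p.1, p.2 + (cost (f a) p.1 + 1))) (S, n)).1
          (ax k) l,
          (L.foldl (fun p a => (exec (f a) p.1, p.2 + (cost (f a) p.1 + 1))) (S, n)).2) := by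
      intro L
      induction L with
      | nil => intro S n; rfl
      | cons a L ihL =>
        intro S n
        simp only [List.foldl_cons]
        rw [(ih a S).1, (ih a S).2]
        exact ihL _ _
    have h2 : ∀ (L : List A) (S : Store A R),
        L.foldl (fun S a => exec (f a) S) (update S (ax k) l) =
        update (L.foldl (fun S a => exec (f a) S) S) (ax k) l := by
      intro L
      induction L with
      | nil => intro S; rfl
      | cons a L ihL =>
        intro S
        simp only [List.foldl_cons]
        rw [(ih a S).1]
        exact ihL _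
    exact ⟨h2 _ _, by rw [h1]⟩

theorem frame_mn (c : Cmd A R) (k : Option R) (l : List A) (hf : Free c k) : ∀ S : Store A R,
    exec c (update S (mn k) l) = update (exec c S) (mn k) l ∧
      cost c (update S (mn k) l) = cost c S := by
  induction c with
  | skip => intro S; exact ⟨rfl, rfl⟩
  | out a =>
    intro S
    refine ⟨?_, rfl⟩
    unfold exec
    rw [update_of_ne (by simp), update_comm (by simp)]
  | inc r =>
    intro S
    refine ⟨?_, rfl⟩
    have hne : (mn (some r) : Stk R) ≠ mn k := by
      intro h; simp only [Sum.inl.injEq, Prod.mk.injEq, true_and] at h; exact hf h.symm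
    unfold exec
    rw [update_of_ne hne, update_comm hne.symm]
  | clr r =>
    intro S
    have hne : (mn (some r) : Stk R) ≠ mn k := by
      intro h; simp only [Sum.inl.injEq, Prod.mk.injEq, true_and] at h; exact hf h.symm
    constructor
    · unfold exec; rw [update_comm hne.symm]
    · unfold cost; rw [update_of_ne hne]
  | seq c d ihc ihd =>
    intro S
    unfold exec cost
    rw [(ihc hf.1 S).1, (ihc hf.1 S).2, (ihd hf.2 _).1, (ihd hf.2 _).2]
    exact ⟨rfl, rfl⟩
  | each k' f ih =>
    intro S
    have hne : (mn k' : Stk R) ≠ mn k := by
      intro h; simp only [Sum.inl.injEq, Prod.mk.injEq, true_and] at h; exact hf.1 h.symm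
    unfold exec cost
    rw [update_of_ne hne]
    have h1 : ∀ (L : List A) (S : Store A R) (n : ℕ),
        L.foldl (fun p a => (exec (f a) p.1, p.2 + (cost (f a) p.1 + 1)))
          (update S (mn k) l, n) =
        (update (L.foldl (fun p a => (exec (f a) p.1, p.2 + (cost (f a) p.1 + 1))) (S, n)).1
          (mn k) l,
          (L.foldl (fun p a => (exec (f a) p.1, p.2 + (cost (f a) p.1 + 1))) (S, n)).2) := by
      intro L
      induction L with
      | nil => intro S n; rfl
      | cons a L ihL =>
        intro S n
        simp only [List.foldl_cons]
        rw [(ih a (hf.2 a) S).1, (ih a (hf.2 a) S).2]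
        exact ihL _ _
    have h2 : ∀ (L : List A) (S : Store A R),
        L.foldl (fun S a => exec (f a) S) (update S (mn k) l) =
        update (L.foldl (fun S a => exec (f a) S) S) (mn k) l := by
      intro L
      induction L with
      | nil => intro S; rfl
      | cons a L ihL =>
        intro S
        simp only [List.foldl_cons]
        rw [(ih a (hf.2 a) S).1]
        exact ihL _
    exact ⟨h2 _ _, by rw [h1]⟩

/-- A program does not change the auxiliary stacks. -/
theorem exec_ax (c : Cmd A R) (k : Option R) : ∀ S : Store A R, exec c S (ax k) = S (ax k) := by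
  induction c with
  | skip => intro S; rfl
  | out a => intro S; unfold exec; rw [update_of_ne (by simp)]
  | inc r => intro S; unfold exec; rw [update_of_ne (by simp)]
  | clr r => intro S; unfold exec; rw [update_of_ne (by simp)]
  | seq c d ihc ihd => intro S; unfold exec; rw [ihd, ihc]
  | each k' f ih =>
    intro S
    unfold exec
    have h2 : ∀ (L : List A) (S : Store A R),
        L.foldl (fun S a => exec (f a) S) S (ax k) = S (ax k) := by
      intro L
      induction L with
      | nil => intro S; rfl
      | cons a L ihL => intro S; simp only [List.foldl_cons]; rw [ihL, ih]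
    exact h2 _ _

theorem exec_free (c : Cmd A R) (k : Option R) (hf : Free c k) : ∀ S : Store A R,
    exec c S (mn k) = S (mn k) := by
  intro S
  have h := (frame_mn c k (S (mn k)) hf S).1
  rw [update_eq_self] at h
  have h' := congrFun h (mn k)
  rw [update_self] at h'
  exact h'

end Cmd

end Pool.Agent.Lib.MP_c85d9c_lc
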