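import Pool.Agent.Lib.MP_c85d9c_lc.Cmd

/-!
# Translation of programs to Turing machines
-/

set_option linter.unusedSectionVars false

namespace Pool.Agent.Lib.MP_c85d9c_lc

open Function Turing

variable {A R : Type} [DecidableEq R] [Inhabited A]

/-- `Reach M n c d`: the machine goes from `c` to `d` in exactly `n` steps. -/
def Reach {Λ : Type} (M : Λ → TM2.Stmt (fun _ : Stk R => A) Λ (Option A)) :
    ℕ → TM2.Cfg (fun _ : Stk R => A) Λ (Option A) → TM2.Cfg (fun _ : Stk R => A) Λ (Option A) →
      Prop
  | 0, c, d => c = d
  | n + 1, c, d => ∃ e, TM2.step M c = some e ∧ Reach M n e d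

theorem Reach.trans {Λ : Type} {M : Λ → TM2.Stmt (fun _ : Stk R => A) Λ (Option A)} {n m : ℕ}
    {c d e : TM2.Cfg (fun _ : Stk R => A) Λ (Option A)} (h₁ : Reach M n c d)
    (h₂ : Reach M m d e) : Reach M (n + m) c e := by
  induction n generalizing c with
  | zero => obtain rfl : c = d := h₁; rwa [Nat.zero_add]
  | succ n ih =>
    obtain ⟨c', h, h'⟩ := h₁
    rw [Nat.succ_add]
    exact ⟨c', h, ih h'⟩

theorem Reach.cons {Λ : Type} {M : Λ → TM2.Stmt (fun _ : Stk R => A) Λ (Option A)} {n : ℕ}
    {c e d : TM2.Cfg (fun _ : Stk R => A) Λ (Option A)} (h : TM2.step M c = some e)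
    (h' : Reach M n e d) : Reach M (n + 1) c d := ⟨e, h, h'⟩

theorem Reach.one {Λ : Type} {M : Λ → TM2.Stmt (fun _ : Stk R => A) Λ (Option A)}
    {c d : TM2.Cfg (fun _ : Stk R => A) Λ (Option A)} (h : TM2.step M c = some d) :
    Reach M 1 c d := ⟨d, h, rfl⟩

namespace Cmd

/-- The labels of a program. -/
def Lab : Cmd A R → Type
  | skip => Unit
  | out _ => Unit
  | inc _ => Unit
  | clr _ => Unit
  | seq c d => Lab c ⊕ Lab d
  | each _ f => Bool ⊕ (Σ a, Lab (f a))

/-- There are finitely many labels. -/
@[instance_reducible] def labFintype [Fintype A] : (c : Cmd A R) → Fintype (Lab c)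
  | skip => inferInstanceAs (Fintype Unit)
  | out _ => inferInstanceAs (Fintype Unit)
  | inc _ => inferInstanceAs (Fintype Unit)
  | clr _ => inferInstanceAs (Fintype Unit)
  | seq c d =>
    have := labFintype c
    have := labFintype d
    inferInstanceAs (Fintype (Lab c ⊕ Lab d))
  | each _ f =>
    have := fun a => labFintype (f a)
    inferInstanceAs (Fintype (Bool ⊕ (Σ a, Lab (f a))))

/-- The entry label. -/
def entry : (c : Cmd A R) → Lab c
  | skip => ()
  | out _ => ()
  | inc _ => ()
  | clr _ => ()
  | seq c _ => Sum.inl (entry c)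
  | each _ _ => Sum.inl false

open TM2.Stmt in
/-- The statements of the machine. -/
def code : (c : Cmd A R) → {Λ : Type} → (Lab c → Λ) → Λ → Lab c →
    TM2.Stmt (fun _ : Stk R => A) Λ (Option A)
  | skip, _, _, ex, _ => goto fun _ => ex
  | out a, _, _, ex, _ => push ou (fun _ => a) (goto fun _ => ex)
  | inc r, _, _, ex, _ => push (mn (some r)) (fun _ => default) (goto fun _ => ex)
  | clr r, _, ι, ex, _ => pop (mn (some r)) (fun _ o => o)
      (branch (fun v => v.isSome) (goto fun _ => ι ()) (goto fun _ => ex))
  | seq c d, _, ι, ex, l => Sum.elim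
      (fun l => code c (fun l => ι (Sum.inl l)) (ι (Sum.inr (entry d))) l)
      (fun l => code d (fun l => ι (Sum.inr l)) ex l) l
  | each k f, _, ι, ex, l => Sum.elim
      (fun b => if b then
          pop (ax k) (fun _ o => o) (branch (fun v => v.isSome)
            (push (mn k) (fun v => v.getD default) (goto fun _ => ι (Sum.inl true)))
            (goto fun _ => ex))
        else
          pop (mn k) (fun _ o => o) (branch (fun v => v.isSome)
            (push (ax k) (fun v => v.getD default)
              (goto fun v => ι (Sum.inr ⟨v.getD default, entry (f (v.getD default))⟩)))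
            (goto fun _ => ι (Sum.inl true))))
      (fun p => code (f p.1) (fun l => ι (Sum.inr ⟨p.1, l⟩)) (ι (Sum.inl false)) p.2) l

/-- **Correctness of the translation.** -/
theorem sim (c : Cmd A R) : WF c → ∀ {Λ : Type}
    (M : Λ → TM2.Stmt (fun _ : Stk R => A) Λ (Option A)) (ι : Lab c → Λ) (ex : Λ),
    (∀ l, M (ι l) = code c ι ex l) → ∀ (v : Option A) (S : Store A R), AuxE c S →
    ∃ v', Reach M (cost c S) ⟨some (ι (entry c)), v, S⟩ ⟨some ex, v', exec c S⟩ := by
  induction c with
  | skip =>
    intro _ Λ M ι ex hM v S _
    refine ⟨v, Reach.one ?_⟩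
    rw [TM2.step, hM]
    rfl
  | out a =>
    intro _ Λ M ι ex hM v S _
    refine ⟨v, Reach.one ?_⟩
    rw [TM2.step, hM]
    rfl
  | inc r =>
    intro _ Λ M ι ex hM v S _
    refine ⟨v, Reach.one ?_⟩
    rw [TM2.step, hM]
    rfl
  | clr r =>
    intro _ Λ M ι ex hM v S _
    unfold cost exec
    generalize hL : S (mn (some r)) = L
    induction L generalizing S v with
    | nil =>
      refine ⟨none, Reach.one ?_⟩
      rw [TM2.step, hM]
      unfold code
      simp only [TM2.stepAux, hL, List.head?_nil, List.tail_nil, Option.isSome_none, cond_false]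
    | cons a L ih =>
      obtain ⟨v', h⟩ := ih (some a) (update S (mn (some r)) L) trivial (by rw [update_self])
      refine ⟨v', ?_⟩
      rw [List.length_cons]
      rw [update_idem] at h
      refine Reach.cons ?_ h
      rw [TM2.step, hM]
      unfold code
      simp only [TM2.stepAux, hL, List.head?_cons, List.tail_cons, Option.isSome_some,
        cond_true]
      rfl
  | seq c d ihc ihd =>
    intro hw Λ M ι ex hM v S ha
    obtain ⟨v₁, h₁⟩ := ihc hw.1 M (fun l => ι (Sum.inl l)) (ι (Sum.inr (entry d)))
      (fun l => hM (Sum.inl l)) v S ha.1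
    obtain ⟨v₂, h₂⟩ := ihd hw.2 M (fun l => ι (Sum.inr l)) ex (fun l => hM (Sum.inr l)) v₁
      (exec c S) (auxE_congr (fun k => (exec_ax c k S).symm) ha.2)
    exact ⟨v₂, h₁.trans h₂⟩
  | each k f ih =>
    intro hw Λ M ι ex hM v S ha
    change Bool ⊕ (Σ a, Lab (f a)) → Λ at ι
    have hM0 : M (ι (Sum.inl false)) = TM2.Stmt.pop (mn k) (fun _ o => o)
        (TM2.Stmt.branch (fun v => v.isSome)
          (TM2.Stmt.push (ax k) (fun v => v.getD default)
            (TM2.Stmt.goto fun v => ι (Sum.inr ⟨v.getD default, entry (f (v.getD default))⟩)))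
          (TM2.Stmt.goto fun _ => ι (Sum.inl true))) := hM (Sum.inl false)
    have hM1 : M (ι (Sum.inl true)) = TM2.Stmt.pop (ax k) (fun _ o => o)
        (TM2.Stmt.branch (fun v => v.isSome)
          (TM2.Stmt.push (mn k) (fun v => v.getD default)
            (TM2.Stmt.goto fun _ => ι (Sum.inl true)))
          (TM2.Stmt.goto fun _ => ex)) := hM (Sum.inl true)
    -- the store with `L` on the main stack and `D` on the auxiliary stack
    set T : Store A R → List A → List A → Store A R :=
      fun S L D => update (update S (mn k) L) (ax k) D with hT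
    have hne : (mn k : Stk R) ≠ ax k := by simp
    have loop : ∀ (L D : List A) (v : Option A) (S : Store A R) (n : ℕ),
        (∀ a, AuxE (f a) S) →
        ∃ v' m, (L.foldl (fun p a => (exec (f a) p.1, p.2 + (cost (f a) p.1 + 1))) (S, n)).2 =
            n + m ∧
          Reach M m ⟨some (ι (Sum.inl false)), v, T S L D⟩
            ⟨some (ι (Sum.inl false)), v',
              T (L.foldl (fun S a => exec (f a) S) S) [] (L.reverse ++ D)⟩ := by
      intro L
      induction L with
      | nil => intro D v S n _; exact ⟨v, 0, rfl, rfl⟩
      | cons a L ihL =>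
        intro D v S n hax
        have hstep : TM2.step M ⟨some (ι (Sum.inl false)), v, T S (a :: L) D⟩ =
            some ⟨some (ι (Sum.inr ⟨a, entry (f a)⟩)), some a, T S L (a :: D)⟩ := by
          rw [TM2.step, hM0]
          have e1 : T S (a :: L) D (mn k) = a :: L := by
            rw [hT]; simp only; rw [update_of_ne hne, update_self]
          have e2 : update (T S (a :: L) D) (mn k) L (ax k) = D := by
            rw [update_of_ne hne.symm, hT]; simp only; rw [update_self]
          have e3 : update (update (T S (a :: L) D) (mn k) L) (ax k) (a :: D) =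
              T S L (a :: D) := by
            rw [hT]; simp only
            rw [update_comm hne, update_idem, update_comm hne, update_idem]
            rw [update_comm hne.symm]
          have e4 : (T S (a :: L) D (mn k)).head? = some a := by rw [e1]; rfl
          have e5 : (T S (a :: L) D (mn k)).tail = L := by rw [e1]; rfl
          simp only [TM2.stepAux]
          rw [e4, e5]
          simp only [Option.isSome_some, cond_true, Option.getD_some, e2, e3]
        obtain ⟨v₁, h₁⟩ := ih a (hw a).2 M (fun l => ι (Sum.inr ⟨a, l⟩)) (ι (Sum.inl false))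
          (fun l => hM (Sum.inr ⟨a, l⟩)) (some a) (T S L (a :: D)) (by
            refine auxE_free (hw a).1 ?_ (hax a)
            intro k' hk'
            rw [hT]; simp only
            rw [update_of_ne (by simpa using hk'), update_of_ne (by simp)])
        have ec : cost (f a) (T S L (a :: D)) = cost (f a) S := by
          rw [hT]; simp only
          rw [(frame_ax _ _ _ _).2, (frame_mn _ _ _ (hw a).1 _).2]
        have ee : exec (f a) (T S L (a :: D)) = T (exec (f a) S) L (a :: D) := by
          rw [hT]; simp only
          rw [(frame_ax _ _ _ _).1, (frame_mn _ _ _ (hw a).1 _).1]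
        rw [ec, ee] at h₁
        obtain ⟨v₂, m, hm, h₂⟩ := ihL (a :: D) v₁ (exec (f a) S) (n + (cost (f a) S + 1))
          (fun b => auxE_congr (fun k' => (exec_ax (f a) k' S).symm) (hax b))
        refine ⟨v₂, 1 + (cost (f a) S + m), ?_, ?_⟩
        · simp only [List.foldl_cons]
          rw [hm]; ring
        · refine (Reach.one hstep).trans (h₁.trans ?_)
          simp only [List.foldl_cons, List.reverse_cons, List.append_assoc, List.singleton_append]
          exact h₂
    have back : ∀ (D L : List A) (v : Option A) (S : Store A R),
        ∃ v', Reach M (D.length + 1) ⟨some (ι (Sum.inl true)), v, T S L D⟩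
          ⟨some ex, v', T S (D.reverse ++ L) []⟩ := by
      intro D
      induction D with
      | nil =>
        intro L v S
        refine ⟨none, Reach.one ?_⟩
        rw [TM2.step, hM1]
        have e1 : T S L [] (ax k) = [] := by rw [hT]; simp only; rw [update_self]
        have e2 : update (T S L []) (ax k) [] = T S L [] := by
          rw [hT]; simp only; rw [update_idem]
        simp only [TM2.stepAux, e1, List.head?_nil, List.tail_nil,
          Option.isSome_none, cond_false, e2, List.reverse_nil, List.nil_append]
      | cons a D ihD =>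
        intro L v S
        obtain ⟨v', h⟩ := ihD (a :: L) (some a) S
        refine ⟨v', ?_⟩
        rw [List.length_cons]
        simp only [List.reverse_cons, List.append_assoc, List.singleton_append]
        refine Reach.cons ?_ h
        rw [TM2.step, hM1]
        have e1 : T S L (a :: D) (ax k) = a :: D := by rw [hT]; simp only; rw [update_self]
        have e2 : update (T S L (a :: D)) (ax k) D (mn k) = L := by
          rw [update_of_ne hne, hT]; simp only; rw [update_of_ne hne, update_self]
        have e3 : update (update (T S L (a :: D)) (ax k) D) (mn k) (a :: L) =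
            T S (a :: L) D := by
          rw [hT]; simp only
          rw [update_idem, update_comm hne.symm, update_idem]
        simp only [TM2.stepAux, e1, List.head?_cons, List.tail_cons,
          Option.isSome_some, cond_true, Option.getD_some, e2, e3]
    have hS : T S (S (mn k)) [] = S := by
      rw [hT]; simp only
      rw [update_eq_self, ← ha.1, update_eq_self]
    obtain ⟨v₁, m, hm, h₁⟩ := loop (S (mn k)) [] v S 0 ha.2
    rw [hS, List.append_nil] at h₁
    set S' := (S (mn k)).foldl (fun S a => exec (f a) S) S with hS'
    have hmid : TM2.step M ⟨some (ι (Sum.inl false)), v₁, T S' [] (S (mn k)).reverse⟩ =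
        some ⟨some (ι (Sum.inl true)), none, T S' [] (S (mn k)).reverse⟩ := by
      rw [TM2.step, hM0]
      have e1 : T S' [] (S (mn k)).reverse (mn k) = [] := by
        rw [hT]; simp only; rw [update_of_ne hne, update_self]
      have e2 : update (T S' [] (S (mn k)).reverse) (mn k) [] = T S' [] (S (mn k)).reverse := by
        rw [hT]; simp only; rw [update_comm hne.symm, update_idem]
      simp only [TM2.stepAux, e1, List.head?_nil,
        List.tail_nil, Option.isSome_none, cond_false, e2]
    obtain ⟨v₂, h₂⟩ := back (S (mn k)).reverse [] none S'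
    rw [List.reverse_reverse, List.append_nil] at h₂
    have hfold : ∀ (L : List A) (S : Store A R),
        (L.foldl (fun S a => exec (f a) S) S) (mn k) = S (mn k) ∧
          (L.foldl (fun S a => exec (f a) S) S) (ax k) = S (ax k) := by
      intro L
      induction L with
      | nil => intro S; exact ⟨rfl, rfl⟩
      | cons a L ihL =>
        intro S
        simp only [List.foldl_cons]
        rw [(ihL _).1, (ihL _).2, exec_free _ _ (hw a).1, exec_ax]
        exact ⟨rfl, rfl⟩
    have hS'' : T S' (S (mn k)) [] = S' := by
      rw [hT]; simp only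
      have h1 := (hfold (S (mn k)) S).1
      have h2 := (hfold (S (mn k)) S).2
      rw [← hS'] at h1 h2
      rw [← h1, update_eq_self, ← ha.1, ← h2, update_eq_self]
    rw [hS''] at h₂
    refine ⟨v₂, ?_⟩
    have hcost : cost (each k f) S = m + (1 + ((S (mn k)).reverse.length + 1)) := by
      unfold cost
      rw [hm, List.length_reverse]; ring
    rw [hcost]
    exact h₁.trans ((Reach.one hmid).trans h₂)

end Cmd

end Pool.Agent.Lib.MP_c85d9c_lc
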