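import Pool.Agent.Lib.MP_c85d9c_lc.Gadget

/-!
# The strategy of Waiter in one window, as a decision tree
-/

namespace Pool.Agent.Lib.MP_c85d9c_lc

/-- Decision trees on the 18 base vertices of a window and 4 further vertices
`18, 19, 20, 21` (of the accumulated edge). In a node Waiter offers `p` and `q`; the first
subtree is for the case in which Waiter gets `p`. -/
inductive Tr
  | leaf (k : Fin 8)
  | node (p q : Fin 22) (l r : Tr)

/-- The conditions at a leaf: `k < 7` stands for the edge `k` of the window, `k = 7` for the
accumulated edge. -/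
def leafOK (a b c d : Fin 4) (k : Fin 8) (W C : List (Fin 22)) : Bool :=
  if h : k.val < 7 then
    ((tags ⟨k.val, h⟩).all fun t => !C.contains (Fin.castLE (by omega) t)) &&
    (((tags ⟨k.val, h⟩).filter fun t => !W.contains (Fin.castLE (by omega) t)).length == 5)
  else
    ([18, 19, 20, 21].all fun z => W.contains z && !C.contains z) &&
    (W.contains (Fin.castLE (by omega) a) || W.contains (Fin.castLE (by omega) b)) &&
    (W.contains (Fin.castLE (by omega) c) || W.contains (Fin.castLE (by omega) d))

/-- The tree is a correct strategy. -/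
def check (a b c d : Fin 4) : Tr → List (Fin 22) → List (Fin 22) → Bool
  | Tr.leaf k, W, C => leafOK a b c d k W C
  | Tr.node p q l r, W, C => p != q && !W.contains p && !C.contains p && !W.contains q &&
      !C.contains q && check a b c d l (p :: W) (q :: C) && check a b c d r (q :: W) (p :: C)

/-- The vertex `t_ab`. -/
def tt (a b : Fin 4) : Fin 22 :=
  ![![0, 6, 7, 8], ![6, 0, 9, 10], ![7, 9, 0, 11], ![8, 10, 11, 0]] a b

/-- The leaf of the literal edge. -/
def lfl (a : Fin 4) : Fin 8 := ⟨a.val + 3, by omega⟩

/-- The strategy after the literals: Waiter has `a` and `c`. -/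
def postT (a b c d : Fin 4) : Tr :=
  .node 19 (tt b d)
    (.node (tt a b) (tt b c)
      (.node 20 (tt a d)
        (.node 21 5 (.leaf 7) (.leaf 1))
        (.node (tt a c) 5 (.leaf (lfl a)) (.leaf 1)))
      (.node 20 (tt c d)
        (.node 21 5 (.leaf 7) (.leaf 1))
        (.node (tt a c) 5 (.leaf (lfl c)) (.leaf 1))))
    (.node 5 (tt a c)
      (.leaf 1)
      (.node 12 14
        (.node (tt a b) (tt b c) (.leaf (lfl a)) (.leaf (lfl c)))
        (.leaf 2)))

/-- The strategy if Client claims a vertex of the accumulated edge in the first round. -/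
def deadT : Tr :=
  .node 5 15
    (.leaf 1)
    (.node 14 12
      (.node 16 6 (.leaf 0) (.leaf 2))
      (.node 6 11
        (.node 7 9 (.leaf 3) (.leaf 4))
        (.node 7 8 (.leaf 5) (.leaf 6))))

/-- The full strategy in a window. -/
def fullT (a b c d : Fin 4) : Tr :=
  .node 18 4
    (.node (Fin.castLE (by omega) a) (Fin.castLE (by omega) b)
      (.node (Fin.castLE (by omega) c) (Fin.castLE (by omega) d)
        (postT a b c d) (postT a b d c))
      (.node (Fin.castLE (by omega) c) (Fin.castLE (by omega) d)
        (postT b a c d) (postT b a d c)))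
    deadT

theorem check_fullT : ∀ a b c d : Fin 4, [a, b, c, d].Nodup →
    check a b c d (fullT a b c d) [] [] = true := by
  decide +kernel

end Pool.Agent.Lib.MP_c85d9c_lc
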