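import Pool.Agent.Lib.MP_c85d9c_lc.Sound3
import Pool.Agent.Lib.MP_c85d9c_lc.Tree

/-!
# From a winning strategy in the abstract game to a winning strategy of Waiter
-/

namespace Pool.Agent.Lib.MP_c85d9c_lc

open Finset

/-- The vertices of a list of local vertices. -/
def im (ι : Fin 22 → Vx) (l : List (Fin 22)) : Finset Vx := (l.map ι).toFinset

theorem mem_im {ι : Fin 22 → Vx} {l : List (Fin 22)} {x : Vx} : x ∈ im ι l ↔ ∃ p ∈ l, ι p = x := by
  unfold im; simp

/-- A correct decision tree gives a winning strategy. -/
theorem tree_wins {E : Finset (Finset Vx)} {U₀ W₀ : Finset Vx} (hd : Disjoint U₀ W₀)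
    (ι : Fin 22 → Vx) (hι : Function.Injective ι) (hU : ∀ x, ι x ∈ U₀) (a b c d : Fin 4)
    (hleaf : ∀ k Wl Cl, leafOK a b c d k Wl Cl = true → (∀ p ∈ Wl, p ∉ Cl) →
      WaiterWins E (U₀ \ (im ι Wl ∪ im ι Cl)) (W₀ ∪ im ι Wl)) (t : Tr) :
    ∀ Wl Cl, check a b c d t Wl Cl = true → (∀ p ∈ Wl, p ∉ Cl) →
      WaiterWins E (U₀ \ (im ι Wl ∪ im ι Cl)) (W₀ ∪ im ι Wl) := by
  induction t with
  | leaf k => intro Wl Cl h h'; exact hleaf k Wl Cl h h'
  | node p q l r ihl ihr =>
    intro Wl Cl h hdis
    unfold check at h
    simp only [Bool.and_eq_true, bne_iff_ne, Bool.not_eq_true', List.contains_eq_mem,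
      decide_eq_false_iff_not] at h
    obtain ⟨⟨⟨⟨⟨⟨hpq, hpW⟩, hpC⟩, hqW⟩, hqC⟩, hl⟩, hr⟩ := h
    have mem : ∀ {x : Fin 22}, x ∉ Wl → x ∉ Cl → ι x ∈ U₀ \ (im ι Wl ∪ im ι Cl) := by
      intro x h1 h2
      rw [mem_sdiff, mem_union, mem_im, mem_im]
      refine ⟨hU x, ?_⟩
      rintro (⟨y, hy, hxy⟩ | ⟨y, hy, hxy⟩)
      · exact h1 (hι hxy ▸ hy)
      · exact h2 (hι hxy ▸ hy)
    have e1 : ∀ x y : Fin 22, (U₀ \ (im ι Wl ∪ im ι Cl)) \ {ι x, ι y} =
        U₀ \ (im ι (x :: Wl) ∪ im ι (y :: Cl)) := by
      intro x y
      ext z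
      simp only [mem_sdiff, mem_union, mem_im, mem_insert, mem_singleton, List.mem_cons,
        exists_eq_or_imp]
      simp only [eq_comm (a := z)]
      generalize (∃ p ∈ Wl, ι p = z) = P
      generalize (∃ p ∈ Cl, ι p = z) = Q
      tauto
    have e2 : ∀ x : Fin 22, insert (ι x) (W₀ ∪ im ι Wl) = W₀ ∪ im ι (x :: Wl) := by
      intro x
      ext z
      simp only [mem_union, mem_im, mem_insert, List.mem_cons, exists_eq_or_imp]
      simp only [eq_comm (a := z)]
      tauto
    refine WaiterWins.offer (mem hpW hpC) (mem hqW hqC) (fun h => hpq (hι h)) ?_ ?_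
    · rw [e1, e2]
      refine ihl _ _ hl ?_
      intro x hx hx'
      rcases List.mem_cons.1 hx with rfl | hx <;> rcases List.mem_cons.1 hx' with rfl | hx'
      · exact hpq rfl
      · exact hpC hx'
      · exact hqW hx
      · exact hdis x hx hx'
    · rw [Finset.pair_comm, e1, e2]
      refine ihr _ _ hr ?_
      intro x hx hx'
      rcases List.mem_cons.1 hx with rfl | hx <;> rcases List.mem_cons.1 hx' with rfl | hx'
      · exact hpq rfl
      · exact hqC hx'
      · exact hpW hx
      · exact hdis x hx hx'

/-- The accumulated edge is `A`; the windows below `m` and the fillers are untouched. -/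
structure Comp (m : ℕ) (A U W : Finset Vx) : Prop where
  dis : Disjoint U W
  sub : A ⊆ U ∪ W
  card : (A \ W).card = 5 + 4 * m
  upp : UppW m U
  fil : UppF U
  nA : ∀ j < m, ∀ x, inWin j x → x ∉ A
  nF : ∀ (l : Fin 5) (i : ℕ), i < l.val + 1 → Vx.fil l i ∉ A

/-- The accumulated edge is an edge of the hypergraph, or it is the core and Waiter can win the
abstract game. -/
def Good (N : ℕ) (T : List (List (ℕ × Fin 4))) (E : Finset (Finset Vx)) (m : ℕ)
    (A W : Finset Vx) : Prop :=
  (∃ e ∈ E, e ⊆ A) ∨ (A = ed N iC ∧ ∃ S, (∀ x ∈ S, lv x.1 x.2 ∈ W) ∧ AG T m S)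

section

variable {N : ℕ} {T : List (List (ℕ × Fin 4))} {E : Finset (Finset Vx)}

theorem fill_wins (hE₁ : ∀ t ∈ T, ∃ e ∈ E, e ⊆ ed N iC ∪ (t.map fun x => lv x.1 x.2).toFinset)
    (hE₂ : ∀ l : Fin 5, ed N (iF l) ∈ E) : ∀ (n : ℕ) (A U W : Finset Vx), n ≤ 5 →
    Disjoint U W → A ⊆ U ∪ W → (A \ W).card = n →
    (∀ (l : Fin 5) (i : ℕ), l.val < n → i < l.val + 1 → Vx.fil l i ∈ U ∧ Vx.fil l i ∉ A) →
    Good N T E 0 A W → WaiterWins E U W := by
  intro n
  induction n with
  | zero =>
    intro A U W _ _ _ hc _ hG
    rw [card_eq_zero, sdiff_eq_empty_iff_subset] at hc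
    refine wins_of_owned ?_ U
    rcases hG with ⟨e, he, heA⟩ | ⟨rfl, S, hS, t, ht, htS⟩
    · exact ⟨e, he, heA.trans hc⟩
    · obtain ⟨e, he, heA⟩ := hE₁ t ht
      refine ⟨e, he, heA.trans (union_subset hc ?_)⟩
      intro x hx
      rw [List.mem_toFinset, List.mem_map] at hx
      obtain ⟨y, hy, rfl⟩ := hx
      exact hS y (htS y hy)
  | succ n ih =>
    intro A U W hn hd hs hc hf hG
    have hpos : 0 < (A \ W).card := by omega
    obtain ⟨z, hz⟩ := card_pos.1 hpos
    rw [mem_sdiff] at hz
    have hzU : z ∈ U := by
      rcases mem_union.1 (hs hz.1) with h | h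
      · exact h
      · exact absurd h hz.2
    set l : Fin 5 := ⟨n, by omega⟩ with hl
    obtain ⟨hfU, hfA⟩ := hf l 0 (by show n < n + 1; omega) (by omega)
    have hne : z ≠ Vx.fil l 0 := by rintro rfl; exact hfA hz.1
    refine WaiterWins.offer hzU hfU hne ?_ ?_
    · -- Waiter gets `z`
      refine ih A _ _ (by omega) (disjoint_round hd) ?_ ?_ ?_ ?_
      · intro x hx
        have := hs hx
        simp only [mem_union, mem_sdiff, mem_insert, mem_singleton] at this ⊢
        by_cases h1 : x = z
        · exact Or.inr (Or.inl h1)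
        · have h2 : x ≠ Vx.fil l 0 := by rintro rfl; exact hfA hx
          rcases this with h3 | h3
          · exact Or.inl ⟨h3, by tauto⟩
          · exact Or.inr (Or.inr h3)
      · have : A \ insert z W = (A \ W).erase z := by
          ext x; simp only [mem_sdiff, mem_insert, mem_erase]; tauto
        rw [this, card_erase_of_mem (mem_sdiff.2 hz), hc]; rfl
      · intro l' i hl' hi
        obtain ⟨h1, h2⟩ := hf l' i (by omega) hi
        refine ⟨?_, h2⟩
        simp only [mem_sdiff, mem_insert, mem_singleton]
        refine ⟨h1, ?_⟩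
        rintro (h3 | h3)
        · exact h2 (h3 ▸ hz.1)
        · simp only [Vx.fil.injEq] at h3
          rw [h3.1] at hl'
          exact absurd hl' (by show ¬ n < n; omega)
      · rcases hG with h | ⟨hA, S, hS, hAG⟩
        · exact Or.inl h
        · exact Or.inr ⟨hA, S, fun x hx => mem_insert_of_mem (hS x hx), hAG⟩
    · -- Waiter gets the vertex of the filler
      rw [Finset.pair_comm]
      have hsub : ed N (iF l) ⊆ U := by
        intro x hx
        unfold ed edL filL at hx
        rw [List.mem_toFinset, List.mem_map] at hx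
        obtain ⟨i, hi, rfl⟩ := hx
        exact (hf l i (by show n < n + 1; omega) (by simpa using hi)).1
      refine ih (ed N (iF l)) _ _ (by omega) (disjoint_round hd) ?_ ?_ ?_
        (Or.inl ⟨_, hE₂ l, Subset.refl _⟩)
      · intro x hx
        have h1 := hsub hx
        simp only [mem_union, mem_sdiff, mem_insert, mem_singleton]
        by_cases h2 : x = Vx.fil l 0
        · exact Or.inr (Or.inl h2)
        · refine Or.inl ⟨h1, ?_⟩
          rintro (h3 | h3)
          · exact h2 h3
          · subst h3
            unfold ed edL filL at hx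
            rw [List.mem_toFinset, List.mem_map] at hx
            obtain ⟨i, hi, rfl⟩ := hx
            exact (hf l i (by show n < n + 1; omega) (by simpa using hi)).2 hz.1
      · have : ed N (iF l) \ insert (Vx.fil l 0) W = (ed N (iF l)).erase (Vx.fil l 0) := by
          ext x
          simp only [mem_sdiff, mem_insert, mem_erase, not_or]
          constructor
          · rintro ⟨h1, h2, _⟩; exact ⟨h2, h1⟩
          · rintro ⟨h1, h2⟩
            exact ⟨h2, h1, Finset.disjoint_left.1 hd (hsub h2)⟩
        rw [this, card_erase_of_mem, card_ed_fil]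
        · rfl
        · unfold ed edL
          rw [List.mem_toFinset, fil_mem_filL]
          exact ⟨rfl, by omega⟩
      · intro l' i hl' hi
        obtain ⟨h1, h2⟩ := hf l' i (by omega) hi
        have hll : l' ≠ l := by
          rintro rfl
          exact absurd hl' (by show ¬ n < n; omega)
        refine ⟨?_, ?_⟩
        · simp only [mem_sdiff, mem_insert, mem_singleton]
          refine ⟨h1, ?_⟩
          rintro (h3 | h3)
          · simp only [Vx.fil.injEq] at h3
            exact hll h3.1
          · exact h2 (h3 ▸ hz.1)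
        · unfold ed edL
          rw [List.mem_toFinset, fil_mem_filL]
          exact fun h => hll h.1

/-- The local vertices: the base vertices of window `μ` and four vertices `z`. -/
def loc (μ : ℕ) (z : Fin 4 → Vx) (p : Fin 22) : Vx :=
  if h : p.val < 18 then Vx.bas μ ⟨p.val, h⟩ else z ⟨p.val - 18, by omega⟩

theorem loc_cast (μ : ℕ) (z : Fin 4 → Vx) (t : Fin 18) :
    loc μ z (Fin.castLE (by omega) t) = Vx.bas μ t := by
  unfold loc
  rw [dif_pos (show (Fin.castLE (by omega) t : Fin 22).val < 18 from t.isLt)]
  rfl

theorem complete (hE₁ : ∀ t ∈ T, ∃ e ∈ E, e ⊆ ed N iC ∪ (t.map fun x => lv x.1 x.2).toFinset)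
    (hE₂ : ∀ l : Fin 5, ed N (iF l) ∈ E) (hE₃ : ∀ j < N, ∀ k, ed N (iW j k) ∈ E) :
    ∀ (m : ℕ) (A U W : Finset Vx), m ≤ N → Comp m A U W → Good N T E m A W →
      WaiterWins E U W := by
  intro m
  induction m with
  | zero =>
    intro A U W _ h hG
    refine fill_wins hE₁ hE₂ 5 A U W le_rfl h.dis h.sub h.card ?_ hG
    intro l i _ hi
    exact ⟨h.fil l i hi, h.nF l i hi⟩
  | succ μ ih =>
    intro A U W hm h hG
    -- the choice in the abstract game
    obtain ⟨a, b, c, d, hn, hG'⟩ : ∃ a b c d : Fin 4, [a, b, c, d].Nodup ∧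
        ((∃ e ∈ E, e ⊆ A) ∨ (A = ed N iC ∧ ∃ S, (∀ x ∈ S, lv x.1 x.2 ∈ W) ∧
          ∀ x y : Fin 4, (x = a ∨ x = b) → (y = c ∨ y = d) →
            AG T μ (insert (μ, y) (insert (μ, x) S)))) := by
      rcases hG with hG | ⟨hA, S, hS, a, b, c, d, hn, h1, h2, h3, h4⟩
      · exact ⟨0, 1, 2, 3, by decide, Or.inl hG⟩
      · refine ⟨a, b, c, d, hn, Or.inr ⟨hA, S, hS, ?_⟩⟩
        rintro x y (rfl | rfl) (rfl | rfl)
        exacts [h1, h2, h3, h4]
    -- four vertices of the accumulated edge
    obtain ⟨z, hzinj, hz⟩ : ∃ z : Fin 4 → Vx, Function.Injective z ∧ ∀ i, z i ∈ A \ W := by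
      have : 4 ≤ (A \ W).card := by rw [h.card]; omega
      obtain ⟨B, hB, hBc⟩ := exists_subset_card_eq this
      obtain ⟨f⟩ : Nonempty (Fin 4 ≃ B) := ⟨(Fintype.equivFinOfCardEq (by simpa using hBc)).symm⟩
      exact ⟨fun i => (f i).1, fun i j hij => f.injective (Subtype.ext hij),
        fun i => hB (f i).2⟩
    have hzU : ∀ i, z i ∈ U := by
      intro i
      have h1 := mem_sdiff.1 (hz i)
      rcases mem_union.1 (h.sub h1.1) with h2 | h2
      · exact h2
      · exact absurd h2 h1.2
    have hzA : ∀ i, z i ∈ A := fun i => (mem_sdiff.1 (hz i)).1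
    have hzbas : ∀ i t, z i ≠ Vx.bas μ t := by
      intro i t hc
      exact h.nA μ (Nat.lt_succ_self μ) _ (Or.inl ⟨t, hc⟩) (hzA i)
    have hbasU : ∀ t, Vx.bas μ t ∈ U := fun t => h.upp μ (Nat.lt_succ_self μ) _ (Or.inl ⟨t, rfl⟩)
    have hbasA : ∀ t, Vx.bas μ t ∉ A := fun t =>
      h.nA μ (Nat.lt_succ_self μ) _ (Or.inl ⟨t, rfl⟩)
    set ι := loc μ z with hι
    have hιinj : Function.Injective ι := by
      intro p q hpq
      rw [hι] at hpq
      unfold loc at hpq
      split_ifs at hpq with h1 h2 h2
      · simp only [Vx.bas.injEq, true_and, Fin.mk.injEq] at hpq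
        exact Fin.ext hpq
      · exact absurd hpq.symm (hzbas _ _)
      · exact absurd hpq (hzbas _ _)
      · have := hzinj hpq
        simp only [Fin.mk.injEq] at this
        apply Fin.ext
        omega
    have hιU : ∀ p, ι p ∈ U := by
      intro p
      rw [hι]
      unfold loc
      split_ifs
      · exact hbasU _
      · exact hzU _
    have hιcase : ∀ p, (∃ t, ι p = Vx.bas μ t) ∨ ι p ∈ A := by
      intro p
      rw [hι]
      unfold loc
      split_ifs with h1
      · exact Or.inl ⟨_, rfl⟩
      · exact Or.inr (hzA _)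
    -- the remaining windows and the fillers are not touched
    have hnot : ∀ {x : Vx}, (∃ j < μ, inWin j x) ∨
        (∃ (l : Fin 5) (i : ℕ), i < l.val + 1 ∧ x = Vx.fil l i) → ∀ p, ι p ≠ x := by
      intro x hx p hp
      rcases hιcase p with ⟨t, ht⟩ | hA
      · rcases hx with ⟨j, hj, hx⟩ | ⟨l, i, hi, rfl⟩
        · have : inWin μ x := Or.inl ⟨t, hp ▸ ht⟩
          exact absurd (inWin_inj hx this) (by omega)
        · rw [hp] at ht; exact absurd ht (by simp)
      · rw [hp] at hA
        rcases hx with ⟨j, hj, hx⟩ | ⟨l, i, hi, rfl⟩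
        · exact h.nA j (by omega) x hx hA
        · exact h.nF l i hi hA
    have key : WaiterWins E (U \ (im ι [] ∪ im ι [])) (W ∪ im ι []) := by
      refine tree_wins h.dis ι hιinj hιU a b c d ?_ (fullT a b c d) [] []
        (check_fullT a b c d hn) (by simp)
      intro k Wl Cl hk hdis
      have hdis' : Disjoint (U \ (im ι Wl ∪ im ι Cl)) (W ∪ im ι Wl) := by
        rw [Finset.disjoint_left]
        intro x hx hx'
        simp only [mem_sdiff, mem_union, not_or] at hx hx'
        rcases hx' with h1 | h1
        · exact Finset.disjoint_left.1 h.dis hx.1 h1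
        · exact hx.2.1 h1
      have hupp' : UppW μ (U \ (im ι Wl ∪ im ι Cl)) := by
        intro j hj x hx
        rw [mem_sdiff, mem_union, mem_im, mem_im]
        refine ⟨h.upp j (by omega) x hx, ?_⟩
        rintro (⟨p, _, hp⟩ | ⟨p, _, hp⟩) <;> exact hnot (Or.inl ⟨j, hj, hx⟩) p hp
      have hfil' : UppF (U \ (im ι Wl ∪ im ι Cl)) := by
        intro l i hi
        rw [mem_sdiff, mem_union, mem_im, mem_im]
        refine ⟨h.fil l i hi, ?_⟩
        rintro (⟨p, _, hp⟩ | ⟨p, _, hp⟩) <;> exact hnot (Or.inr ⟨l, i, hi, rfl⟩) p hp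
      have himbas : ∀ {l : List (Fin 22)} {t : Fin 18}, Vx.bas μ t ∈ im ι l ↔
          Fin.castLE (by omega) t ∈ l := by
        intro l t
        rw [mem_im]
        constructor
        · rintro ⟨p, hp, hp'⟩
          have : ι p = ι (Fin.castLE (by omega) t) := by rw [hp', hι, loc_cast]
          rwa [hιinj this] at hp
        · intro hp
          exact ⟨_, hp, by rw [hι, loc_cast]⟩
      have himcom : ∀ {l : List (Fin 22)} {s : Fin 4} {i : ℕ}, i < μ →
          Vx.com μ s i ∉ im ι l := by
        intro l s i hi
        rw [mem_im]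
        rintro ⟨p, _, hp⟩
        rcases hιcase p with ⟨t, ht⟩ | hA
        · rw [hp] at ht; exact absurd ht (by simp)
        · rw [hp] at hA
          exact h.nA μ (Nat.lt_succ_self μ) _ (Or.inr ⟨s, i, hi, rfl⟩) hA
      unfold leafOK at hk
      split_ifs at hk with hk7
      · -- an edge of the window
        rw [Bool.and_eq_true, List.all_eq_true, beq_iff_eq] at hk
        obtain ⟨hk1, hk2⟩ := hk
        set k' : Fin 7 := ⟨k.val, hk7⟩ with hk'
        refine ih (ed N (iW μ k')) _ _ (by omega) ⟨hdis', ?_, ?_, hupp', hfil', ?_, ?_⟩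
          (Or.inl ⟨_, hE₃ μ (by omega) k', Subset.refl _⟩)
        · intro x hx
          have hx' := hx
          unfold ed edL at hx'
          rw [List.mem_toFinset, mem_winL] at hx'
          rw [mem_union, mem_union, mem_sdiff, mem_union]
          rcases hx' with ⟨t, ht, rfl⟩ | ⟨s, i, hi, rfl⟩
          · have h1 := hk1 t (mem_tags.2 ht)
            simp only [Bool.not_eq_true', List.contains_eq_mem, decide_eq_false_iff_not] at h1
            rw [himbas, himbas]
            by_cases h2 : Fin.castLE (by omega) t ∈ Wl
            · exact Or.inr (Or.inr h2)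
            · refine Or.inl ⟨hbasU t, ?_⟩
              rintro (h3 | h3)
              · exact h2 h3
              · exact h1 h3
          · refine Or.inl ⟨h.upp μ (Nat.lt_succ_self μ) _ (Or.inr ⟨s, i, hi, rfl⟩), ?_⟩
            rintro (h3 | h3)
            · exact himcom hi h3
            · exact himcom hi h3
        · have : ed N (iW μ k') \ (W ∪ im ι Wl) =
              (((tags k').filter fun t => !Wl.contains (Fin.castLE (by omega) t)).map
                (Vx.bas μ) ++ pad μ).toFinset := by
            ext x
            unfold ed edL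
            rw [mem_sdiff, List.mem_toFinset, mem_winL, List.mem_toFinset, List.mem_append,
              List.mem_map, mem_pad, mem_union]
            constructor
            · rintro ⟨⟨t, ht, rfl⟩ | ⟨s, i, hi, rfl⟩, hx⟩
              · left
                refine ⟨t, ?_, rfl⟩
                rw [List.mem_filter]
                refine ⟨mem_tags.2 ht, ?_⟩
                rw [himbas] at hx
                simp only [Bool.not_eq_true', List.contains_eq_mem, decide_eq_false_iff_not]
                tauto
              · right; exact ⟨s, i, hi, rfl⟩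
            · rintro (⟨t, ht, rfl⟩ | ⟨s, i, hi, rfl⟩)
              · rw [List.mem_filter] at ht
                refine ⟨Or.inl ⟨t, mem_tags.1 ht.1, rfl⟩, ?_⟩
                rw [himbas]
                have h2 := ht.2
                simp only [Bool.not_eq_true', List.contains_eq_mem,
                  decide_eq_false_iff_not] at h2
                rintro (h3 | h3)
                · exact Finset.disjoint_left.1 h.dis (hbasU t) h3
                · exact h2 h3
              · refine ⟨Or.inr ⟨s, i, hi, rfl⟩, ?_⟩
                rintro (h3 | h3)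
                · exact Finset.disjoint_left.1 h.dis
                    (h.upp μ (Nat.lt_succ_self μ) _ (Or.inr ⟨s, i, hi, rfl⟩)) h3
                · exact himcom hi h3
          rw [this, List.toFinset_card_of_nodup, List.length_append, List.length_map, hk2,
            pad_length]
          rw [List.nodup_append]
          refine ⟨?_, pad_nodup μ, ?_⟩
          · refine List.Nodup.map (fun x y hxy => by simpa using hxy) ?_
            refine List.Nodup.filter _ ?_
            exact List.Nodup.filter _ (List.nodup_finRange 18)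
          · intro x hx y hy hxy
            subst hxy
            rw [mem_pad] at hy
            rw [List.mem_map] at hx
            obtain ⟨t, _, rfl⟩ := hx
            obtain ⟨s, i, _, hh⟩ := hy
            exact absurd hh (by simp)
        · intro j hj x hx hx'
          rw [mem_ed_win hx] at hx'
          omega
        · intro l i hi hx'
          unfold ed edL at hx'
          simp at hx'
      · -- the accumulated edge
        rw [Bool.and_eq_true, Bool.and_eq_true, List.all_eq_true] at hk
        obtain ⟨⟨hk1, hk2⟩, hk3⟩ := hk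
        have hz4 : ∀ i : Fin 4, ∃ p : Fin 22, p ∈ Wl ∧ p ∉ Cl ∧ ι p = z i := by
          intro i
          have h1 := hk1 ⟨i.val + 18, by omega⟩ (by fin_cases i <;> simp)
          simp only [Bool.and_eq_true, Bool.not_eq_true', List.contains_eq_mem,
            decide_eq_false_iff_not, decide_eq_true_eq] at h1
          refine ⟨_, h1.1, h1.2, ?_⟩
          rw [hι]
          unfold loc
          rw [dif_neg (by simp)]
          congr 1
        have hCA : ∀ x ∈ A, x ∉ im ι Cl := by
          intro x hx hx'
          rw [mem_im] at hx'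
          obtain ⟨p, hp, rfl⟩ := hx'
          rcases Nat.lt_or_ge p.val 18 with h1 | h1
          · have : ι p = Vx.bas μ ⟨p.val, h1⟩ := by rw [hι]; unfold loc; rw [dif_pos h1]
            rw [this] at hx
            exact hbasA _ hx
          · obtain ⟨q, hq1, hq2, hq3⟩ := hz4 ⟨p.val - 18, by omega⟩
            have : ι p = z ⟨p.val - 18, by omega⟩ := by
              rw [hι]; unfold loc; rw [dif_neg (by omega)]
            rw [← this] at hq3
            exact hq2 (hιinj hq3 ▸ hp)
        refine ih A _ _ (by omega) ⟨hdis', ?_, ?_, hupp', hfil', ?_, h.nF⟩ ?_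
        · intro x hx
          have h1 := h.sub hx
          have h2 := hCA x hx
          simp only [mem_union, mem_sdiff, not_or] at h1 ⊢
          by_cases h3 : x ∈ im ι Wl
          · exact Or.inr (Or.inr h3)
          · rcases h1 with h1 | h1
            · exact Or.inl ⟨h1, h3, h2⟩
            · exact Or.inr (Or.inl h1)
        · have : A \ (W ∪ im ι Wl) = (A \ W) \ (univ.image z) := by
            ext x
            simp only [mem_sdiff, mem_union, not_or, mem_image, mem_univ, true_and]
            constructor
            · rintro ⟨h1, h2, h3⟩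
              refine ⟨⟨h1, h2⟩, ?_⟩
              rintro ⟨i, rfl⟩
              obtain ⟨p, hp, _, hp'⟩ := hz4 i
              exact h3 (mem_im.2 ⟨p, hp, hp'⟩)
            · rintro ⟨⟨h1, h2⟩, h3⟩
              refine ⟨h1, h2, ?_⟩
              rw [mem_im]
              rintro ⟨p, hp, rfl⟩
              rcases Nat.lt_or_ge p.val 18 with h4 | h4
              · have : ι p = Vx.bas μ ⟨p.val, h4⟩ := by rw [hι]; unfold loc; rw [dif_pos h4]
                rw [this] at h1
                exact hbasA _ h1
              · refine h3 ⟨⟨p.val - 18, by omega⟩, ?_⟩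
                rw [hι]; unfold loc; rw [dif_neg (by omega)]
          rw [this, card_sdiff_of_subset, h.card, card_image_of_injective _ hzinj]
          · simp; omega
          · intro x hx
            rw [mem_image] at hx
            obtain ⟨i, _, rfl⟩ := hx
            exact hz i
        · intro j hj x hx
          exact h.nA j (by omega) x hx
        · rcases hG' with hG' | ⟨hA, S, hS, hAG⟩
          · exact Or.inl hG'
          · right
            have hlit : ∀ x y : Fin 4,
                (Wl.contains (Fin.castLE (by omega) x) || Wl.contains (Fin.castLE (by omega) y))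
                  = true → ∃ w, (w = x ∨ w = y) ∧ lv μ w ∈ im ι Wl := by
              have hh : ∀ w : Fin 4, Wl.contains (Fin.castLE (by omega) w) = true →
                  lv μ w ∈ im ι Wl := by
                intro w hw
                unfold lv
                rw [himbas (t := ⟨w.val, by omega⟩)]
                rw [List.contains_eq_mem, decide_eq_true_eq] at hw
                exact hw
              intro x y hxy
              rw [Bool.or_eq_true] at hxy
              rcases hxy with h1 | h1
              · exact ⟨x, Or.inl rfl, hh x h1⟩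
              · exact ⟨y, Or.inr rfl, hh y h1⟩
            obtain ⟨x, hx, hx'⟩ := hlit a b hk2
            obtain ⟨y, hy, hy'⟩ := hlit c d hk3
            refine ⟨hA, insert (μ, y) (insert (μ, x) S), ?_, hAG x y hx hy⟩
            intro w hw
            rw [mem_insert, mem_insert] at hw
            rw [mem_union]
            rcases hw with rfl | rfl | hw
            · exact Or.inr hy'
            · exact Or.inr hx'
            · exact Or.inl (hS w hw)
    have e0 : im ι [] = ∅ := rfl
    rwa [e0, union_empty, union_empty, sdiff_empty] at key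

end

end Pool.Agent.Lib.MP_c85d9c_lc
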