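import Pool.Agent.Lib.MP_c85d9c_lc.Defs

/-!
# Quantified Boolean formulas
-/

namespace Pool.Agent.Lib.MP_c85d9c_lc

theorem lt_bound {φ : Formula} {C : List Lit} (hC : C ∈ φ) {l : Lit} (hl : l ∈ C) :
    l.2.2 < φ.bound := by
  have key : ∀ (L : List ℕ) (x : ℕ), x ∈ L → x ≤ L.foldr max 0 := by
    intro L
    induction L with
    | nil => intro x hx; simp at hx
    | cons a L ih =>
      intro x hx
      rcases List.mem_cons.1 hx with rfl | hx
      · exact le_max_left _ _
      · exact (ih x hx).trans (le_max_right _ _)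
  have := key (φ.flatten.map fun l => l.2.2 + 1) (l.2.2 + 1)
    (List.mem_map.2 ⟨l, List.mem_flatten.2 ⟨C, hC, hl⟩, rfl⟩)
  unfold Formula.bound
  omega

theorem holds_congr {φ : Formula} {n : ℕ} (hn : φ.bound ≤ n) {α α' β β' : ℕ → Bool}
    (hα : ∀ i < n, α i = α' i) (hβ : ∀ i < n, β i = β' i) :
    φ.Holds α β ↔ φ.Holds α' β' := by
  unfold Formula.Holds
  refine forall₂_congr fun C hC => ?_
  constructor
  · rintro ⟨l, hl, h⟩
    refine ⟨l, hl, ?_⟩
    have := lt_bound hC hl
    unfold Lit.Holds at h ⊢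
    rw [← hα _ (by omega), ← hβ _ (by omega)]
    exact h
  · rintro ⟨l, hl, h⟩
    refine ⟨l, hl, ?_⟩
    have := lt_bound hC hl
    unfold Lit.Holds at h ⊢
    rw [hα _ (by omega), hβ _ (by omega)]
    exact h

theorem alt_congr {φ : Formula} {n : ℕ} (hn : φ.bound ≤ n) : ∀ (k : ℕ) {α α' β β' : ℕ → Bool}
    (_ : ∀ i, k ≤ i → i < n → α i = α' i) (_ : ∀ i, k ≤ i → i < n → β i = β' i),
    Alt φ.Holds k α β ↔ Alt φ.Holds k α' β' := by
  intro k
  induction k with
  | zero =>
    intro α α' β β' hα hβ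
    exact holds_congr hn (fun i hi => hα i (Nat.zero_le _) hi) (fun i hi => hβ i (Nat.zero_le _) hi)
  | succ k ih =>
    intro α α' β β' hα hβ
    unfold Alt
    refine exists_congr fun a => forall_congr' fun b => ih ?_ ?_
    · intro i h1 h2
      by_cases h : i = k
      · subst h; simp
      · rw [Function.update_of_ne h, Function.update_of_ne h]; exact hα i (by omega) h2
    · intro i h1 h2
      by_cases h : i = k
      · subst h; simp
      · rw [Function.update_of_ne h, Function.update_of_ne h]; exact hβ i (by omega) h2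

theorem isTrue_iff {φ : Formula} {n : ℕ} (hn : φ.bound ≤ n) :
    φ.IsTrue ↔ Alt φ.Holds n (fun _ => false) (fun _ => false) := by
  unfold Formula.IsTrue
  obtain ⟨k, rfl⟩ := Nat.exists_eq_add_of_le hn
  clear hn
  induction k with
  | zero => rfl
  | succ k ih =>
    rw [ih, ← add_assoc]
    show _ ↔ ∃ a, ∀ b, Alt φ.Holds (φ.bound + k) _ _
    have : ∀ a b, Alt φ.Holds (φ.bound + k) (Function.update (fun _ => false) (φ.bound + k) a)
        (Function.update (fun _ => false) (φ.bound + k) b) ↔
        Alt φ.Holds (φ.bound + k) (fun _ => false) (fun _ => false) := by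
      intro a b
      refine alt_congr le_rfl _ ?_ ?_ <;> intro i h1 h2 <;> omega
    simp only [this]
    simp

end Pool.Agent.Lib.MP_c85d9c_lc
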