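import Pool.Agent.Lib.MP_c85d9c_lc.Game

/-!
# The hypergraph of the reduction
-/

namespace Pool.Agent.Lib.MP_c85d9c_lc

open Finset

/-- The vertices of the hypergraph of the reduction. `bas j t`: the `t`-th vertex of window `j`
(`t = 0, 1, 2, 3` are the four literal vertices); `com j s i`: the padding vertices of window `j`;
`zed s i` and `zc s`: the vertices of the core; `fil l i`: the vertices of the fillers. -/
inductive Vx
  | bas (j : ℕ) (t : Fin 18)
  | com (j : ℕ) (s : Fin 4) (i : ℕ)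
  | zed (s : Fin 4) (i : ℕ)
  | zc (s : Fin 5)
  | fil (l : Fin 5) (i : ℕ)
  deriving DecidableEq

/-- The incidence table of a window: `inc t k` says whether the vertex `t` is in the edge `k`. -/
def inc (t : Fin 18) (k : Fin 7) : Bool :=
  match t.val, k.val with
  -- literal vertices
  | 0, 0 => true | 0, 3 => true
  | 1, 0 => true | 1, 4 => true
  | 2, 0 => true | 2, 5 => true
  | 3, 0 => true | 3, 6 => true
  -- `u`
  | 4, 0 => true
  -- `r`
  | 5, 1 => true
  -- `t_ab, t_ac, t_ad, t_bc, t_bd, t_cd`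
  | 6, 2 => true | 6, 3 => true | 6, 4 => true
  | 7, 2 => true | 7, 3 => true | 7, 5 => true
  | 8, 2 => true | 8, 3 => true | 8, 6 => true
  | 9, 2 => true | 9, 4 => true | 9, 5 => true
  | 10, 2 => true | 10, 4 => true | 10, 6 => true
  | 11, 2 => true | 11, 5 => true | 11, 6 => true
  -- `q₁, q₂`
  | 12, k => decide (k ≠ 0 ∧ k ≠ 2)
  | 13, k => decide (k ≠ 0 ∧ k ≠ 2)
  -- `s`
  | 14, k => decide (k ≤ 2)
  -- `g`
  | 15, k => decide (k ≠ 1)
  -- `h₁, h₂`
  | 16, k => decide (k ≠ 2)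
  | 17, k => decide (k ≠ 2)
  | _, _ => false

/-- The vertices `bas j t` of the edge `k` of window `j`. -/
def tags (k : Fin 7) : List (Fin 18) := (List.finRange 18).filter fun t => inc t k

/-- The padding of the edges of window `j`. -/
def pad (j : ℕ) : List Vx :=
  (List.range j).flatMap fun i => [Vx.com j 0 i, Vx.com j 1 i, Vx.com j 2 i, Vx.com j 3 i]

/-- The edge `k` of window `j`. -/
def winL (j : ℕ) (k : Fin 7) : List Vx := (tags k).map (Vx.bas j) ++ pad j

/-- The core. -/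
def coreL (N : ℕ) : List Vx :=
  (List.range N).flatMap (fun i => [Vx.zed 0 i, Vx.zed 1 i, Vx.zed 2 i, Vx.zed 3 i]) ++
    (List.finRange 5).map Vx.zc

/-- The fillers. -/
def filL (l : Fin 5) : List Vx := (List.range (l + 1)).map (Vx.fil l)

theorem mem_pad {j : ℕ} {x : Vx} : x ∈ pad j ↔ ∃ s i, i < j ∧ x = Vx.com j s i := by
  unfold pad
  simp only [List.mem_flatMap, List.mem_range, List.mem_cons, List.not_mem_nil, or_false]
  constructor
  · rintro ⟨i, hi, h | h | h | h⟩
    exacts [⟨0, i, hi, h⟩, ⟨1, i, hi, h⟩, ⟨2, i, hi, h⟩, ⟨3, i, hi, h⟩]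
  · rintro ⟨s, i, hi, rfl⟩
    refine ⟨i, hi, ?_⟩
    fin_cases s <;> simp

theorem mem_tags {k : Fin 7} {t : Fin 18} : t ∈ tags k ↔ inc t k = true := by
  unfold tags; simp

theorem mem_winL {j : ℕ} {k : Fin 7} {x : Vx} : x ∈ winL j k ↔
    (∃ t, inc t k = true ∧ x = Vx.bas j t) ∨ ∃ s i, i < j ∧ x = Vx.com j s i := by
  unfold winL
  rw [List.mem_append, mem_pad, List.mem_map]
  simp only [mem_tags]
  constructor
  · rintro (⟨t, ht, rfl⟩ | h)
    exacts [Or.inl ⟨t, ht, rfl⟩, Or.inr h]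
  · rintro (⟨t, ht, rfl⟩ | h)
    exacts [Or.inl ⟨t, ht, rfl⟩, Or.inr h]

@[simp] theorem bas_mem_winL {j j' : ℕ} {k : Fin 7} {t : Fin 18} :
    Vx.bas j' t ∈ winL j k ↔ j' = j ∧ inc t k = true := by
  rw [mem_winL]; simp [and_comm]

@[simp] theorem com_mem_winL {j j' : ℕ} {k : Fin 7} {s : Fin 4} {i : ℕ} :
    Vx.com j' s i ∈ winL j k ↔ j' = j ∧ i < j := by
  rw [mem_winL]; simp only [reduceCtorEq, and_false, exists_false, false_or, Vx.com.injEq]
  constructor
  · rintro ⟨s', i', h, rfl, rfl, rfl⟩; exact ⟨rfl, h⟩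
  · rintro ⟨rfl, h⟩; exact ⟨s, i, h, rfl, rfl, rfl⟩

@[simp] theorem zed_mem_winL {j : ℕ} {k : Fin 7} {s : Fin 4} {i : ℕ} :
    ¬ Vx.zed s i ∈ winL j k := by
  rw [mem_winL]; simp

@[simp] theorem zc_mem_winL {j : ℕ} {k : Fin 7} {s : Fin 5} :
    ¬ Vx.zc s ∈ winL j k := by
  rw [mem_winL]; simp

@[simp] theorem fil_mem_winL {j : ℕ} {k : Fin 7} {l : Fin 5} {i : ℕ} :
    ¬ Vx.fil l i ∈ winL j k := by
  rw [mem_winL]; simp

theorem mem_coreL {N : ℕ} {x : Vx} : x ∈ coreL N ↔
    (∃ s i, i < N ∧ x = Vx.zed s i) ∨ ∃ s, x = Vx.zc s := by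
  unfold coreL
  simp only [List.mem_append, List.mem_flatMap, List.mem_range, List.mem_cons, List.not_mem_nil,
    or_false, List.mem_map, List.mem_finRange, true_and]
  constructor
  · rintro (⟨i, hi, h | h | h | h⟩ | ⟨s, rfl⟩)
    exacts [Or.inl ⟨0, i, hi, h⟩, Or.inl ⟨1, i, hi, h⟩, Or.inl ⟨2, i, hi, h⟩,
      Or.inl ⟨3, i, hi, h⟩, Or.inr ⟨s, rfl⟩]
  · rintro (⟨s, i, hi, rfl⟩ | ⟨s, rfl⟩)
    · left
      refine ⟨i, hi, ?_⟩
      fin_cases s <;> simp
    · exact Or.inr ⟨s, rfl⟩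

@[simp] theorem bas_mem_coreL {N j : ℕ} {t : Fin 18} : ¬ Vx.bas j t ∈ coreL N := by
  rw [mem_coreL]; simp

@[simp] theorem com_mem_coreL {N j : ℕ} {s : Fin 4} {i : ℕ} : ¬ Vx.com j s i ∈ coreL N := by
  rw [mem_coreL]; simp

@[simp] theorem fil_mem_coreL {N : ℕ} {l : Fin 5} {i : ℕ} : ¬ Vx.fil l i ∈ coreL N := by
  rw [mem_coreL]; simp

@[simp] theorem fil_mem_filL {l l' : Fin 5} {i : ℕ} :
    Vx.fil l' i ∈ filL l ↔ l' = l ∧ i < l + 1 := by
  unfold filL
  simp only [List.mem_map, List.mem_range, Vx.fil.injEq]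
  constructor
  · rintro ⟨a, h, rfl, rfl⟩; exact ⟨rfl, h⟩
  · rintro ⟨rfl, h⟩; exact ⟨i, h, rfl, rfl⟩

@[simp] theorem bas_mem_filL {l : Fin 5} {j : ℕ} {t : Fin 18} : ¬ Vx.bas j t ∈ filL l := by
  unfold filL; simp

@[simp] theorem com_mem_filL {l : Fin 5} {j : ℕ} {s : Fin 4} {i : ℕ} :
    ¬ Vx.com j s i ∈ filL l := by
  unfold filL; simp

@[simp] theorem zed_mem_filL {l : Fin 5} {s : Fin 4} {i : ℕ} : ¬ Vx.zed s i ∈ filL l := by
  unfold filL; simp

@[simp] theorem zc_mem_filL {l : Fin 5} {s : Fin 5} : ¬ Vx.zc s ∈ filL l := by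
  unfold filL; simp

theorem pad_length (j : ℕ) : (pad j).length = 4 * j := by
  unfold pad; simp [mul_comm]

theorem pad_nodup (j : ℕ) : (pad j).Nodup := by
  unfold pad
  rw [List.nodup_flatMap]
  refine ⟨fun i _ => by simp, ?_⟩
  refine List.Nodup.pairwise_of_forall_ne List.nodup_range ?_
  intro i _ i' _ hne x hx hx'
  simp only [List.mem_cons, List.not_mem_nil, or_false] at hx hx'
  rcases hx with rfl | rfl | rfl | rfl <;> simp at hx' <;> exact hne hx'

theorem winL_nodup (j : ℕ) (k : Fin 7) : (winL j k).Nodup := by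
  unfold winL
  rw [List.nodup_append]
  refine ⟨?_, pad_nodup j, ?_⟩
  · refine List.Nodup.map (fun a b h => by simpa using h) ?_
    exact List.Nodup.filter _ (List.nodup_finRange 18)
  · intro a ha b hb hab
    subst hab
    rw [mem_pad] at hb
    rw [List.mem_map] at ha
    obtain ⟨t, _, rfl⟩ := ha
    obtain ⟨s, i, _, h⟩ := hb
    exact absurd h (by simp)

/-- The size of the edge `k` of a window without the padding. -/
def esize (k : Fin 7) : ℕ := (tags k).length

theorem coreL_nodup (N : ℕ) : (coreL N).Nodup := by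
  unfold coreL
  rw [List.nodup_append]
  refine ⟨?_, ?_, ?_⟩
  · rw [List.nodup_flatMap]
    refine ⟨fun i _ => by simp, ?_⟩
    refine List.Nodup.pairwise_of_forall_ne List.nodup_range ?_
    intro i _ i' _ hne x hx hx'
    simp only [List.mem_cons, List.not_mem_nil, or_false] at hx hx'
    rcases hx with rfl | rfl | rfl | rfl <;> simp at hx' <;> exact hne hx'
  · exact List.Nodup.map (fun a b h => by simpa using h) (List.nodup_finRange 5)
  · intro a ha b hb hab
    subst hab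
    simp only [List.mem_flatMap, List.mem_cons, List.not_mem_nil, or_false, List.mem_map] at ha hb
    obtain ⟨s, _, rfl⟩ := hb
    obtain ⟨i, _, h⟩ := ha
    simp at h

theorem coreL_length (N : ℕ) : (coreL N).length = 5 + 4 * N := by
  unfold coreL; simp [mul_comm, add_comm]

theorem filL_nodup (l : Fin 5) : (filL l).Nodup := by
  unfold filL
  exact List.Nodup.map (fun a b h => by simpa using h) List.nodup_range

theorem filL_length (l : Fin 5) : (filL l).length = l + 1 := by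
  unfold filL; simp

/-- The index type of the edges of the dominating hypergraph: `none` is the core. -/
abbrev Ix := Option ((ℕ × Fin 7) ⊕ Fin 5)

/-- The indices. -/
def IN (N : ℕ) : Finset Ix := Finset.insertNone ((range N ×ˢ univ).disjSum univ)

/-- The edges of the dominating hypergraph, as lists. -/
def edL (N : ℕ) : Ix → List Vx
  | none => coreL N
  | some (Sum.inl (j, k)) => winL j k
  | some (Sum.inr l) => filL l

/-- The edges of the dominating hypergraph. -/
def ed (N : ℕ) (i : Ix) : Finset Vx := (edL N i).toFinset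

/-- The index of the core. -/
abbrev iC : Ix := none
/-- The index of the edge `k` of window `j`. -/
abbrev iW (j : ℕ) (k : Fin 7) : Ix := some (Sum.inl (j, k))
/-- The index of the filler `l`. -/
abbrev iF (l : Fin 5) : Ix := some (Sum.inr l)

theorem sum_IN (N : ℕ) (f : Ix → ℚ) : ∑ i ∈ IN N, f i =
    f iC + (∑ j ∈ range N, ∑ k, f (iW j k) + ∑ l, f (iF l)) := by
  unfold IN
  rw [Finset.sum_insertNone, Finset.sum_disjSum, Finset.sum_product]

theorem mem_IN {N : ℕ} {i : Ix} : i ∈ IN N ↔ i = iC ∨ (∃ j k, j < N ∧ i = iW j k) ∨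
    ∃ l, i = iF l := by
  unfold IN
  rcases i with _ | ⟨⟨j, k⟩ | l⟩ <;> simp

theorem card_ed_core (N : ℕ) : (ed N iC).card = 5 + 4 * N := by
  unfold ed edL
  rw [List.toFinset_card_of_nodup (coreL_nodup N), coreL_length]

theorem card_ed_win (N j : ℕ) (k : Fin 7) : (ed N (iW j k)).card = esize k + 4 * j := by
  unfold ed edL
  rw [List.toFinset_card_of_nodup (winL_nodup j k)]
  unfold winL esize
  rw [List.length_append, List.length_map, pad_length]

theorem card_ed_fil (N : ℕ) (l : Fin 5) : (ed N (iF l)).card = l + 1 := by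
  unfold ed edL
  rw [List.toFinset_card_of_nodup (filL_nodup l), filL_length]

end Pool.Agent.Lib.MP_c85d9c_lc
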