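import Pool.Agent.Lib.MP_c85d9c_lc.Defs

/-!
# Weights of positions
-/

namespace Pool.Agent.Lib.MP_c85d9c_lc

open Finset

variable {V : Type} [DecidableEq V]

/-- The weight of the edge `e` in the position `(U, W)`. -/
def wt (U W e : Finset V) : ℚ := if e ⊆ U ∪ W then (1 / 2) ^ (e \ W).card else 0

theorem wt_nonneg (U W e : Finset V) : 0 ≤ wt U W e := by
  unfold wt; split_ifs <;> positivity

theorem wt_pos {U W e : Finset V} (h : e ⊆ U ∪ W) : 0 < wt U W e := by
  unfold wt; rw [if_pos h]; positivity

theorem subset_of_wt_ne {U W e : Finset V} (h : wt U W e ≠ 0) : e ⊆ U ∪ W := by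
  by_contra h'
  exact h (by unfold wt; rw [if_neg h'])

theorem wt_le_one (U W e : Finset V) : wt U W e ≤ 1 := by
  unfold wt; split_ifs
  · exact pow_le_one₀ (by norm_num) (by norm_num)
  · norm_num

theorem wt_of_subset {U W e : Finset V} (h : e ⊆ W) : wt U W e = 1 := by
  unfold wt
  rw [if_pos (h.trans subset_union_right), sdiff_eq_empty_iff_subset.2 h]
  simp

theorem wt_of_subset_left {U W e : Finset V} (hd : Disjoint U W) (h : e ⊆ U) :
    wt U W e = (1 / 2) ^ e.card := by
  unfold wt
  rw [if_pos (h.trans subset_union_left), sdiff_eq_self_of_disjoint]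
  exact disjoint_of_subset_left h hd

/-- The change of the weight of an edge in a round in which Waiter gets `u` and Client `v`. -/
theorem wt_round {U W e : Finset V} {u v : V} (hd : Disjoint U W) (hu : u ∈ U) (hv : v ∈ U)
    (huv : u ≠ v) : wt (U \ {u, v}) (insert u W) e =
      if v ∈ e then 0 else if u ∈ e then 2 * wt U W e else wt U W e := by
  have huW : u ∉ W := fun h => (Finset.disjoint_left.1 hd hu h)
  have hvW : v ∉ W := fun h => (Finset.disjoint_left.1 hd hv h)
  split_ifs with h1 h2
  · unfold wt
    rw [if_neg]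
    intro h
    have := h h1
    simp only [mem_union, mem_sdiff, mem_insert, mem_singleton] at this
    rcases this with h | h | h
    · exact h.2 (Or.inr trivial)
    · exact huv h.symm
    · exact hvW h
  · have key : e ⊆ U \ {u, v} ∪ insert u W ↔ e ⊆ U ∪ W := by
      constructor
      · intro h x hx
        have := h hx
        simp only [mem_union, mem_sdiff, mem_insert, mem_singleton] at this ⊢
        rcases this with h | rfl | h
        · exact Or.inl h.1
        · exact Or.inl hu
        · exact Or.inr h
      · intro h x hx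
        have := h hx
        simp only [mem_union, mem_sdiff, mem_insert, mem_singleton] at this ⊢
        by_cases hxu : x = u
        · exact Or.inr (Or.inl hxu)
        · by_cases hxv : x = v
          · exact absurd (hxv ▸ hx) h1
          · rcases this with h | h
            · exact Or.inl ⟨h, by tauto⟩
            · exact Or.inr (Or.inr h)
    unfold wt
    by_cases h : e ⊆ U ∪ W
    · rw [if_pos h, if_pos (key.2 h)]
      have : e \ insert u W = (e \ W).erase u := by
        ext x; simp only [mem_sdiff, mem_insert, mem_erase]; tauto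
      rw [this]
      have hmem : u ∈ e \ W := by simp [h2, huW]
      rw [card_erase_of_mem hmem]
      have hpos : 0 < (e \ W).card := card_pos.2 ⟨u, hmem⟩
      obtain ⟨n, hn⟩ : ∃ n, (e \ W).card = n + 1 := ⟨(e \ W).card - 1, by omega⟩
      rw [hn, Nat.add_sub_cancel, pow_succ]
      ring
    · rw [if_neg h, if_neg (fun h' => h (key.1 h'))]; ring
  · have key : e ⊆ U \ {u, v} ∪ insert u W ↔ e ⊆ U ∪ W := by
      constructor
      · intro h x hx
        have := h hx
        simp only [mem_union, mem_sdiff, mem_insert, mem_singleton] at this ⊢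
        rcases this with h | rfl | h
        · exact Or.inl h.1
        · exact absurd hx h2
        · exact Or.inr h
      · intro h x hx
        have := h hx
        simp only [mem_union, mem_sdiff, mem_insert, mem_singleton] at this ⊢
        by_cases hxu : x = u
        · exact Or.inr (Or.inl hxu)
        · by_cases hxv : x = v
          · exact absurd (hxv ▸ hx) h1
          · rcases this with h | h
            · exact Or.inl ⟨h, by tauto⟩
            · exact Or.inr (Or.inr h)
    unfold wt
    have : e \ insert u W = e \ W := by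
      ext x; simp only [mem_sdiff, mem_insert]
      constructor
      · tauto
      · rintro ⟨hx, hxW⟩
        refine ⟨hx, ?_⟩
        rintro (rfl | h)
        · exact h2 hx
        · exact hxW h
    rw [this]
    by_cases h : e ⊆ U ∪ W
    · rw [if_pos h, if_pos (key.2 h)]
    · rw [if_neg h, if_neg (fun h' => h (key.1 h'))]

theorem disjoint_round {U W : Finset V} {u v : V} (hd : Disjoint U W) :
    Disjoint (U \ {u, v}) (insert u W) := by
  rw [Finset.disjoint_left] at hd ⊢
  intro x hx hx'
  simp only [mem_sdiff, mem_insert, mem_singleton] at hx hx'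
  rcases hx' with rfl | h
  · exact hx.2 (Or.inl rfl)
  · exact hd hx.1 h

/-- If Waiter owns an edge she wins. -/
theorem wins_of_owned {E : Finset (Finset V)} {W : Finset V} (h : ∃ e ∈ E, e ⊆ W)
    (U : Finset V) : WaiterWins E U W := by
  induction hn : U.card using Nat.strong_induction_on generalizing U W with
  | _ n ih =>
    subst hn
    by_cases h0 : U = ∅
    · subst h0; exact WaiterWins.finished h
    · obtain ⟨u, hu⟩ := Finset.nonempty_iff_ne_empty.2 h0
      by_cases h1 : U = {u}
      · subst h1; exact WaiterWins.last h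
      · obtain ⟨v, hv, hne⟩ : ∃ v ∈ U, v ≠ u := by
          by_contra hcon
          push Not at hcon
          apply h1
          ext x
          simp only [mem_singleton]
          exact ⟨hcon x, fun hx => hx ▸ hu⟩
        have hlt : (U \ {u, v}).card < U.card := by
          apply card_lt_card
          refine ⟨sdiff_subset, fun h' => ?_⟩
          have := h' hu
          simp at this
        obtain ⟨e, he, heW⟩ := h
        exact WaiterWins.offer hu hv hne.symm
          (ih _ hlt ⟨e, he, heW.trans (subset_insert _ _)⟩ _ rfl)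
          (ih _ hlt ⟨e, he, heW.trans (subset_insert _ _)⟩ _ rfl)

section Phi

variable {ι : Type} (I : Finset ι) (F : ι → Finset V)

/-- The total weight. -/
def Phi (U W : Finset V) : ℚ := ∑ i ∈ I, wt U W (F i)

/-- The weight of a vertex. -/
def Ws (U W : Finset V) (x : V) : ℚ := ∑ i ∈ I, if x ∈ F i then wt U W (F i) else 0

variable {I F}

theorem Phi_round {U W : Finset V} {u v : V} (hd : Disjoint U W) (hu : u ∈ U) (hv : v ∈ U)
    (huv : u ≠ v) : Phi I F (U \ {u, v}) (insert u W) =
      Phi I F U W + Ws I F U W u - Ws I F U W v -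
        ∑ i ∈ I, if u ∈ F i ∧ v ∈ F i then wt U W (F i) else 0 := by
  unfold Phi Ws
  rw [← sum_add_distrib, ← sum_sub_distrib, ← sum_sub_distrib]
  refine sum_congr rfl fun i _ => ?_
  rw [wt_round hd hu hv huv]
  by_cases h1 : u ∈ F i <;> by_cases h2 : v ∈ F i <;> simp [h1, h2]
  ring

theorem one_le_Phi {E : Finset (Finset V)} (hE : ∀ e ∈ E, ∃ i ∈ I, F i ⊆ e)
    {U W : Finset V} (h : WaiterWins E U W) (hd : Disjoint U W) : 1 ≤ Phi I F U W := by
  have base : ∀ {U W : Finset V}, (∃ e ∈ E, e ⊆ W) → 1 ≤ Phi I F U W := by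
    rintro U W ⟨e, he, heW⟩
    obtain ⟨i, hi, hie⟩ := hE e he
    unfold Phi
    calc (1 : ℚ) = wt U W (F i) := (wt_of_subset (hie.trans heW)).symm
      _ ≤ _ := single_le_sum (f := fun i => wt U W (F i)) (fun j _ => wt_nonneg _ _ _) hi
  induction h with
  | finished h => exact base h
  | last h => exact base h
  | @offer U W u v hu hv huv h₁ h₂ ih₁ ih₂ =>
    have e₁ := ih₁ (disjoint_round hd)
    have e₂ := ih₂ (by rw [Finset.pair_comm]; exact disjoint_round hd)
    rw [Phi_round hd hu hv huv] at e₁
    rw [Finset.pair_comm, Phi_round hd hv hu huv.symm] at e₂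
    have hc : ∑ i ∈ I, (if v ∈ F i ∧ u ∈ F i then wt U W (F i) else 0) =
        ∑ i ∈ I, if u ∈ F i ∧ v ∈ F i then wt U W (F i) else 0 :=
      sum_congr rfl fun i _ => by simp only [and_comm]
    rw [hc] at e₂
    have h0 : 0 ≤ ∑ i ∈ I, if u ∈ F i ∧ v ∈ F i then wt U W (F i) else 0 :=
      sum_nonneg fun i _ => by split_ifs; exacts [wt_nonneg _ _ _, le_rfl]
    linarith

/-- In a tight position, an offer after which Waiter can win is lossless. -/
theorem lossless {E : Finset (Finset V)} (hE : ∀ e ∈ E, ∃ i ∈ I, F i ⊆ e)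
    {U W : Finset V} {u v : V} (hd : Disjoint U W) (hu : u ∈ U) (hv : v ∈ U) (huv : u ≠ v)
    (h₁ : WaiterWins E (U \ {u, v}) (insert u W)) (h₂ : WaiterWins E (U \ {u, v}) (insert v W))
    (hPhi : Phi I F U W = 1) :
    Phi I F (U \ {u, v}) (insert u W) = 1 ∧ Phi I F (U \ {u, v}) (insert v W) = 1 ∧
      (∀ i ∈ I, F i ⊆ U ∪ W → ¬ (u ∈ F i ∧ v ∈ F i)) ∧ Ws I F U W u = Ws I F U W v := by
  have e₁ := one_le_Phi hE h₁ (disjoint_round hd)
  have e₂ := one_le_Phi hE h₂ (by rw [Finset.pair_comm]; exact disjoint_round hd)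
  have f₁ := Phi_round (I := I) (F := F) hd hu hv huv
  have f₂ := Phi_round (I := I) (F := F) hd hv hu huv.symm
  rw [Finset.pair_comm v u] at f₂
  have hc : ∑ i ∈ I, (if v ∈ F i ∧ u ∈ F i then wt U W (F i) else 0) =
      ∑ i ∈ I, if u ∈ F i ∧ v ∈ F i then wt U W (F i) else 0 :=
    sum_congr rfl fun i _ => by simp only [and_comm]
  rw [hc] at f₂
  have h0 : ∀ i ∈ I, 0 ≤ if u ∈ F i ∧ v ∈ F i then wt U W (F i) else 0 :=
    fun i _ => by split_ifs; exacts [wt_nonneg _ _ _, le_rfl]
  have h0' := sum_nonneg h0
  have hz : ∑ i ∈ I, (if u ∈ F i ∧ v ∈ F i then wt U W (F i) else 0) = 0 := by linarith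
  refine ⟨by linarith, by linarith, ?_, by linarith⟩
  intro i hi hal huvi
  have := (sum_eq_zero_iff_of_nonneg h0).1 hz i hi
  rw [if_pos huvi] at this
  exact (wt_pos hal).ne' this

end Phi

end Pool.Agent.Lib.MP_c85d9c_lc
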