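import Pool.Agent.Lib.MP_c85d9c_lc.Defs

/-!
# The encoding of hypergraphs is injective
-/

namespace Pool.Agent.Lib.MP_c85d9c_lc

/-- The word does not begin with a bit. -/
def NB (l : List Sym) : Prop := ∀ b, l.head? ≠ some (Sym.bit b)

theorem nb_nil : NB [] := fun _ h => by simp at h

theorem nb_vert (l : List Sym) : NB (Sym.vert :: l) := fun _ h => by simp at h

theorem nb_edge (l : List Sym) : NB (Sym.edge :: l) := fun _ h => by simp at h

theorem bits_inj : ∀ (v v' : List Bool) {r r' : List Sym}, NB r → NB r' →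
    v.map Sym.bit ++ r = v'.map Sym.bit ++ r' → v = v' ∧ r = r'
  | [], [], _, _, _, _, h => ⟨rfl, h⟩
  | [], b :: v', r, r', h1, _, h => by
    refine absurd ?_ (h1 b)
    have h' : r = Sym.bit b :: (v'.map Sym.bit ++ r') := h
    rw [h']; rfl
  | b :: v, [], r, r', _, h2, h => by
    refine absurd ?_ (h2 b)
    have h' : Sym.bit b :: (v.map Sym.bit ++ r) = r' := h
    rw [← h']; rfl
  | b :: v, b' :: v', r, r', h1, h2, h => by
    have h' : Sym.bit b :: (v.map Sym.bit ++ r) = Sym.bit b' :: (v'.map Sym.bit ++ r') := h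
    rw [List.cons.injEq] at h'
    obtain ⟨h3, h4⟩ := bits_inj v v' h1 h2 h'.2
    have h5 : b = b' := by simpa using h'.1
    rw [h3, h5]
    exact ⟨rfl, h4⟩

/-- The word does not begin with a vertex or with a bit. -/
def NV (l : List Sym) : Prop := NB l ∧ l.head? ≠ some Sym.vert

theorem nv_nil : NV [] := ⟨nb_nil, by simp⟩

theorem nv_edge (l : List Sym) : NV (Sym.edge :: l) := ⟨nb_edge _, by simp⟩

theorem nb_flatMap (e : List (List Bool)) {r : List Sym} (h : NV r) :
    NB (e.flatMap encV ++ r) := by
  cases e with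
  | nil => exact h.1
  | cons v e => exact nb_vert _

theorem verts_inj : ∀ (e e' : List (List Bool)) {r r' : List Sym}, NV r → NV r' →
    e.flatMap encV ++ r = e'.flatMap encV ++ r' → e = e' ∧ r = r'
  | [], [], _, _, _, _, h => ⟨rfl, h⟩
  | [], v :: e', r, r', h1, _, h => by
    refine absurd ?_ h1.2
    have h' : r = Sym.vert :: (v.map Sym.bit ++ e'.flatMap encV ++ r') := h
    rw [h']; rfl
  | v :: e, [], r, r', _, h2, h => by
    refine absurd ?_ h2.2
    have h' : Sym.vert :: (v.map Sym.bit ++ e.flatMap encV ++ r) = r' := h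
    rw [← h']; rfl
  | v :: e, v' :: e', r, r', h1, h2, h => by
    have h' : Sym.vert :: (v.map Sym.bit ++ e.flatMap encV ++ r) =
      Sym.vert :: (v'.map Sym.bit ++ e'.flatMap encV ++ r') := h
    rw [List.cons.injEq, List.append_assoc, List.append_assoc] at h'
    obtain ⟨h3, h4⟩ := bits_inj v v' (nb_flatMap e h1) (nb_flatMap e' h2) h'.2
    obtain ⟨h5, h6⟩ := verts_inj e e' h1 h2 h4
    rw [h3, h5]
    exact ⟨rfl, h6⟩

theorem nv_encode (H : Hyp) : NV H.encode := by
  cases H with
  | nil => exact nv_nil
  | cons e H => exact nv_edge _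

/-- The encoding of hypergraphs is injective. -/
theorem Hyp.encode_injective : Function.Injective Hyp.encode := by
  intro H H' h
  induction H generalizing H' with
  | nil =>
    cases H' with
    | nil => rfl
    | cons e H' => exact absurd h (by unfold Hyp.encode encE; simp)
  | cons e H ih =>
    cases H' with
    | nil => exact absurd h (by unfold Hyp.encode encE; simp)
    | cons e' H' =>
      have h' : Sym.edge :: (e.flatMap encV ++ Hyp.encode H) =
        Sym.edge :: (e'.flatMap encV ++ Hyp.encode H') := h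
      rw [List.cons.injEq] at h'
      obtain ⟨h1, h2⟩ := verts_inj e e' (nv_encode H) (nv_encode H') h'.2
      rw [h1, ih h2]

end Pool.Agent.Lib.MP_c85d9c_lc
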