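import Pool.Agent.Lib.MP_c85d9c_lc.Gadget

/-!
# Finite checks about one window
-/

namespace Pool.Agent.Lib.MP_c85d9c_lc

open Finset

/-- The incidence table of a window, with a last row for the padding vertices. -/
def tinc (t : Fin 19) (k : Fin 7) : Bool := if h : t.val < 18 then inc ⟨t.val, h⟩ k else true

/-- The weight of a row when the edge `k` has weight `ew k`. -/
def mW (ew : Fin 7 → ℕ) (t : Fin 19) : ℕ := ∑ k, if tinc t k then ew k else 0

/-- The literal row. -/
def lr (a : Fin 4) : Fin 19 := ⟨a.val, by omega⟩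

/-- The literal edge. -/
def le' (a : Fin 4) : Fin 7 := ⟨a.val + 3, by omega⟩

/-- Weights of the edges of an untouched window. -/
def ewI : Fin 7 → ℕ := ![1, 8, 2, 1, 1, 1, 1]

/-- Weights of the edges after the first cross round. -/
def ewB : Fin 7 → ℕ := ![0, 8, 2, 1, 1, 1, 1]

/-- Weights of the edges after the literal vertices `a` (to Waiter) and `b` (to Client) are
claimed. -/
def ewP (a b : Fin 4) (k : Fin 7) : ℕ :=
  if k = le' a then 2 else if k = le' b then 0 else ewB k

/-- The row `x` is available: it is not a literal row outside `L`. -/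
def avl (L : Finset (Fin 4)) (x : Fin 19) : Bool := decide (∀ a : Fin 4, x = lr a → a ∈ L)

/-- The rows `x` and `y` have a common edge of positive weight. -/
def shr (ew : Fin 7 → ℕ) (x y : Fin 19) : Bool :=
  decide (∃ k, ew k ≠ 0 ∧ tinc x k = true ∧ tinc y k = true)

/-- The rows `x` and `y` are two different literal rows. -/
def lit2 (x y : Fin 19) : Bool := decide (∃ a b : Fin 4, a ≠ b ∧ x = lr a ∧ y = lr b)

/-- The check for the states of a window in which only literal vertices can be offered. -/
structure Chk (ew : Fin 7 → ℕ) (L : Finset (Fin 4)) : Prop where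
  ne2 : ∀ x : Fin 19, avl L x = true → mW ew x ≠ 2
  pos : ∀ a ∈ L, mW ew (lr a) ≠ 0
  sum : ∑ k, ew k = 14
  pair : ∀ x y : Fin 19, avl L x = true → avl L y = true → mW ew x = mW ew y →
    mW ew x = 0 ∨ shr ew x y = true ∨ lit2 x y = true

theorem chkB : Chk ewB univ where
  ne2 := by decide +kernel
  pos := by decide +kernel
  sum := by decide +kernel
  pair := by decide +kernel

theorem chkP (a b : Fin 4) (h : a ≠ b) : Chk (ewP a b) (univ \ {a, b}) where
  ne2 := by revert a b; decide +kernel
  pos := by revert a b; decide +kernel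
  sum := by revert a b; decide +kernel
  pair := by revert a b; decide +kernel

theorem esize_eq : ∀ k, ((1 : ℚ) / 2) ^ esize k = ewI k * (1 / 2) ^ 9 := by
  intro k
  have h : ∀ k : Fin 7, esize k + Nat.log 2 (ewI k) = 9 ∧ 2 ^ Nat.log 2 (ewI k) = ewI k := by
    decide +kernel
  obtain ⟨h1, h2⟩ := h k
  rw [← h2, ← h1, pow_add]
  push_cast
  rw [mul_comm ((1 / 2 : ℚ) ^ esize k), ← mul_assoc, ← mul_pow]
  norm_num

theorem chkI : ∀ x y : Fin 19, mW ewI x = mW ewI y →
    ∃ k, tinc x k = true ∧ tinc y k = true := by decide +kernel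

theorem mW_ewI_pos : ∀ x : Fin 19, 1 ≤ mW ewI x ∧ mW ewI x ≤ 15 := by decide +kernel

theorem mW_ewI_eq_one : ∀ x : Fin 19, mW ewI x = 1 → x = 4 := by decide +kernel

theorem ewI_pos : ∀ k, 0 < ewI k := by decide +kernel

theorem sum_ewI : ∑ k, ewI k = 15 := by decide +kernel

end Pool.Agent.Lib.MP_c85d9c_lc
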