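import Pool.Agent.Lib.MP_c85d9c_lc.Compile

/-!
# Functions computed by programs are computable in polynomial time
-/

set_option linter.unusedSectionVars false

namespace Pool.Agent.Lib.MP_c85d9c_lc

open Function Turing StateTransition

variable {A R : Type} [DecidableEq R] [Inhabited A]

namespace Cmd

/-- The final phases: `false` moves the reversed output to the output, `true` empties the input. -/
def fin {Λ : Type} (ι : Bool → Λ) : Bool → TM2.Stmt (fun _ : Stk R => A) Λ (Option A)
  | false => TM2.Stmt.pop ou (fun _ o => o) (TM2.Stmt.branch (fun v => v.isSome)
      (TM2.Stmt.push fi (fun v => v.getD default) (TM2.Stmt.goto fun _ => ι false))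
      (TM2.Stmt.goto fun _ => ι true))
  | true => TM2.Stmt.pop (mn none) (fun _ o => o) (TM2.Stmt.branch (fun v => v.isSome)
      (TM2.Stmt.goto fun _ => ι true) TM2.Stmt.halt)

/-- The machine of a program. -/
def machine [Fintype A] [Fintype R] (c : Cmd A R) : FinTM2 where
  K := Stk R
  k₀ := mn none
  k₁ := fi
  Γ := fun _ => A
  Λ := Lab c ⊕ Bool
  main := Sum.inl (entry c)
  ΛFin := have := labFintype c; inferInstance
  σ := Option A
  initialState := none
  m := Sum.elim (code c Sum.inl (Sum.inr false)) (fin Sum.inr)

/-- The contents of the stacks at the beginning. -/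
def start (l : List A) : Store A R := update (fun _ => []) (mn none) l

theorem exec_in (c : Cmd A R) : ∀ S : Store A R, exec c S (mn none) = S (mn none) := by
  induction c with
  | skip => intro S; rfl
  | out a => intro S; unfold exec; rw [update_of_ne (by simp)]
  | inc r => intro S; unfold exec; rw [update_of_ne (by simp)]
  | clr r => intro S; unfold exec; rw [update_of_ne (by simp)]
  | seq c d ihc ihd => intro S; unfold exec; rw [ihd, ihc]
  | each k' f ih =>
    intro S
    unfold exec
    have h2 : ∀ (L : List A) (S : Store A R),
        L.foldl (fun S a => exec (f a) S) S (mn none) = S (mn none) := by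
      intro L
      induction L with
      | nil => intro S; rfl
      | cons a L ihL => intro S; simp only [List.foldl_cons]; rw [ihL, ih]
    exact h2 _ _

theorem exec_fi (c : Cmd A R) : ∀ S : Store A R, exec c S fi = S fi := by
  induction c with
  | skip => intro S; rfl
  | out a => intro S; unfold exec; rw [update_of_ne (by simp)]
  | inc r => intro S; unfold exec; rw [update_of_ne (by simp)]
  | clr r => intro S; unfold exec; rw [update_of_ne (by simp)]
  | seq c d ihc ihd => intro S; unfold exec; rw [ihd, ihc]
  | each k' f ih =>
    intro S
    unfold exec
    have h2 : ∀ (L : List A) (S : Store A R),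
        L.foldl (fun S a => exec (f a) S) S fi = S fi := by
      intro L
      induction L with
      | nil => intro S; rfl
      | cons a L ihL => intro S; simp only [List.foldl_cons]; rw [ihL, ih]
    exact h2 _ _

theorem auxE_start (c : Cmd A R) {S : Store A R} (h : ∀ k, S (ax k) = []) : AuxE c S := by
  induction c with
  | skip | out | inc | clr => trivial
  | seq c d ihc ihd => exact ⟨ihc, ihd⟩
  | each k f ih => exact ⟨h k, ih⟩

theorem phase_false {Λ : Type} {M : Λ → TM2.Stmt (fun _ : Stk R => A) Λ (Option A)}
    {ι : Bool → Λ} (hM : M (ι false) = fin ι false) : ∀ (L L' : List A) (v : Option A)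
    (S : Store A R), S ou = L → S fi = L' →
    Reach M (L.length + 1) ⟨some (ι false), v, S⟩
      ⟨some (ι true), none, update (update S ou []) fi (L.reverse ++ L')⟩ := by
  intro L
  induction L with
  | nil =>
    intro L' v S h1 h2
    refine Reach.one ?_
    rw [TM2.step, hM]
    unfold fin
    have e : update (update S ou []) fi L' = S := by
      rw [← h1, update_eq_self, ← h2, update_eq_self]
    simp only [TM2.stepAux, h1, List.head?_nil, List.tail_nil, Option.isSome_none, cond_false,
      List.reverse_nil, List.nil_append, e]
    rw [← h1, update_eq_self]
  | cons a L ih =>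
    intro L' v S h1 h2
    have h := ih (a :: L') (some a) (update (update S ou L) fi (a :: L'))
      (by rw [update_of_ne (by simp), update_self]) (by rw [update_self])
    rw [List.length_cons]
    refine Reach.cons ?_ ?_ (e := ⟨some (ι false), some a, update (update S ou L) fi (a :: L')⟩)
    · rw [TM2.step, hM]
      unfold fin
      have e : update S ou L fi = L' := by rw [update_of_ne (by simp), h2]
      simp only [TM2.stepAux, h1, List.head?_cons, List.tail_cons, Option.isSome_some, cond_true,
        Option.getD_some, e]
    · have e : update (update (update (update S ou L) fi (a :: L')) ou []) fi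
          (L.reverse ++ a :: L') = update (update S ou []) fi ((a :: L).reverse ++ L') := by
        rw [update_comm (show (ou : Stk R) ≠ fi by simp), update_idem,
          update_comm (show (fi : Stk R) ≠ ou by simp), update_idem]
        simp
      rw [← e]
      exact h

theorem phase_true {Λ : Type} {M : Λ → TM2.Stmt (fun _ : Stk R => A) Λ (Option A)}
    {ι : Bool → Λ} (hM : M (ι true) = fin ι true) : ∀ (L : List A) (v : Option A)
    (S : Store A R), S (mn none) = L →
    Reach M (L.length + 1) ⟨some (ι true), v, S⟩ ⟨none, none, update S (mn none) []⟩ := by
  intro L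
  induction L with
  | nil =>
    intro v S h1
    refine Reach.one ?_
    rw [TM2.step, hM]
    unfold fin
    simp only [TM2.stepAux, h1, List.head?_nil, List.tail_nil, Option.isSome_none, cond_false]
  | cons a L ih =>
    intro v S h1
    have h := ih (some a) (update S (mn none) L) (by rw [update_self])
    rw [List.length_cons]
    rw [update_idem] at h
    refine Reach.cons ?_ h
    rw [TM2.step, hM]
    unfold fin
    simp only [TM2.stepAux, h1, List.head?_cons, List.tail_cons, Option.isSome_some, cond_true]

theorem reach_evals {Λ : Type} {M : Λ → TM2.Stmt (fun _ : Stk R => A) Λ (Option A)} {n : ℕ}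
    {c d : TM2.Cfg (fun _ : Stk R => A) Λ (Option A)} (h : Reach M n c d) :
    (flip bind (TM2.step M))^[n] (some c) = some d := by
  induction n generalizing c with
  | zero => exact congrArg some h
  | succ n ih =>
    obtain ⟨e, h1, h2⟩ := h
    rw [Function.iterate_succ_apply]
    have : flip bind (TM2.step M) (some c) = some e := h1
    rw [this]
    exact ih h2

theorem output_of [Fintype A] [Fintype R] (l l' : List A) (c : Cmd A R) (hw : WF c) {m : ℕ}
    (h0 : ∀ r, exec c (start l) (mn (some r)) = [])
    (h1 : exec c (start l) ou = l'.reverse)
    (h2 : cost c (start l) + l'.length + l.length + 2 ≤ m) :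
    Nonempty (TM2OutputsInTime (machine c) (List.map (Equiv.refl A).invFun l)
      (some (List.map (Equiv.refl A).invFun l')) m) := by
  set S : Store A R := start l with hS
  have hax : ∀ k, S (ax k) = [] := by
    intro k; rw [hS]; unfold start; rw [update_of_ne (by simp)]
  obtain ⟨v, hr1⟩ := sim c hw (machine c).m Sum.inl (Sum.inr false) (fun l => rfl) none S
    (auxE_start c hax)
  have hr2 := phase_false (M := (machine c).m) (ι := Sum.inr) rfl (exec c S ou)
    (exec c S fi) v (exec c S) rfl rfl
  have hr3 := phase_true (M := (machine c).m) (ι := Sum.inr) rfl (S (mn none)) none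
    (update (update (exec c S) ou []) fi ((exec c S ou).reverse ++ exec c S fi))
    (by rw [update_of_ne (by simp), update_of_ne (by simp), exec_in])
  have hr := hr1.trans (hr2.trans hr3)
  have hfi : S fi = [] := by
    rw [hS]; unfold start; rw [update_of_ne (by simp)]
  have hin : S (mn none) = l := by
    rw [hS]; unfold start; rw [update_self]
  have hev := reach_evals hr
  have e1 : ∀ l₁ : List A, l₁ = l → initList (machine c) l₁ =
      ⟨some (Sum.inl (entry c)), none, S⟩ := by
    intro l₁ hl₁
    rw [hl₁]
    unfold initList
    congr 1
    funext k
    rw [hS]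
    unfold start
    by_cases hk : k = mn none
    · subst hk
      refine Eq.trans (dif_pos rfl) ?_
      show l = update (fun _ => []) (mn none) l (mn none)
      rw [update_self]
    · have hk' : ∀ k : Stk R, k ≠ mn none →
          [] = update (fun _ : Stk R => ([] : List A)) (mn none) l k :=
        fun k hk => by rw [update_of_ne hk]
      exact (dif_neg hk).trans (hk' k hk)
  have e2 : ∀ l₁ : List A, l₁ = l' → haltList (machine c) l₁ =
      ⟨none, none, update (update (update (exec c S) ou []) fi
        ((exec c S ou).reverse ++ exec c S fi)) (mn none) []⟩ := by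
    intro l₁ hl₁
    rw [hl₁, h1, exec_fi, hfi, List.reverse_reverse, List.append_nil]
    unfold haltList
    congr 1
    funext k
    by_cases hk : k = fi
    · subst hk
      refine Eq.trans (dif_pos rfl) ?_
      show l' = update (update (update (exec c S) ou []) fi l') (mn none) [] fi
      rw [update_of_ne (by simp), update_self]
    · refine (dif_neg hk).trans ?_
      show [] = update (update (update (exec c S) ou []) fi l') (mn none) [] k
      rcases k with ⟨b, k⟩ | b
      · rcases b with _ | _
        · rcases k with _ | r
          · rw [update_self]
          · rw [update_of_ne (by simp), update_of_ne (by simp), update_of_ne (by simp)]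
            exact (h0 r).symm
        · rw [update_of_ne (by simp), update_of_ne (by simp), update_of_ne (by simp)]
          rw [exec_ax, hax]
      · rcases b with _ | _
        · rw [update_of_ne (by simp), update_of_ne (by simp), update_self]
        · exact absurd rfl hk
  have e3 := e1 _ (List.map_id l)
  have e4 := e2 _ (List.map_id l')
  have hev' : (flip bind (FinTM2.step (machine c)))^[cost c S + ((exec c S ou).length + 1 +
      ((S (mn none)).length + 1))] (some (initList (machine c)
        (List.map (Equiv.refl A).invFun l))) =
      Option.map (haltList (machine c)) (some (List.map (Equiv.refl A).invFun l')) := by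
    refine Eq.trans ?_ (hev.trans ?_)
    · exact congrArg _ (congrArg some e3)
    · exact (congrArg some e4).symm
  refine ⟨⟨⟨_, hev'⟩, ?_⟩⟩
  show cost c S + ((exec c S ou).length + 1 + ((S (mn none)).length + 1)) ≤ m
  rw [h1, hin, List.length_reverse]
  omega

/-- **A function that is computed by a program in polynomial time is computable in polynomial
time.** -/
theorem computable [Fintype A] [Fintype R] (c : Cmd A R) (hw : WF c) {α β : Type}
    {ea : α → List A} {eb : β → List A} {f : α → β} (p : Polynomial ℕ)
    (h0 : ∀ a r, exec c (start (ea a)) (mn (some r)) = [])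
    (h1 : ∀ a, exec c (start (ea a)) ou = (eb (f a)).reverse)
    (h2 : ∀ a, cost c (start (ea a)) + (eb (f a)).length + (ea a).length + 2 ≤
      p.eval (ea a).length) :
    Nonempty (TM2ComputableInPolyTime ea eb f) := by
  have key : ∀ a, Nonempty (TM2OutputsInTime (machine c) (List.map (Equiv.refl A).invFun (ea a))
      (some (List.map (Equiv.refl A).invFun (eb (f a)))) (p.eval (ea a).length)) :=
    fun a => output_of (ea a) (eb (f a)) c hw (h0 a) (h1 a) (h2 a)
  exact ⟨⟨⟨machine c, Equiv.refl A, Equiv.refl A⟩, p, fun a => (key a).some⟩⟩

end Cmd

end Pool.Agent.Lib.MP_c85d9c_lc
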