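import Pool.Agent.Lib.MP_c85d9c_lc.Complete

/-!
# The game on the hypergraph of the reduction is equivalent to the abstract game
-/

namespace Pool.Agent.Lib.MP_c85d9c_lc

open Finset

/-- The list of edges of the hypergraph of the reduction. -/
def edgesL (N : ℕ) (T : List (List (ℕ × Fin 4))) : List (List Vx) :=
  (List.finRange 5).map filL ++
    ((List.range N).flatMap (fun j => (List.finRange 7).map (winL j)) ++
      T.map fun t => t.map (fun x => lv x.1 x.2) ++ coreL N)

/-- The finite set of edges. -/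
def EE (N : ℕ) (T : List (List (ℕ × Fin 4))) : Finset (Finset Vx) :=
  ((edgesL N T).map List.toFinset).toFinset

/-- The finite set of vertices. -/
def VV (N : ℕ) (T : List (List (ℕ × Fin 4))) : Finset Vx := (edgesL N T).flatten.toFinset

theorem mem_edgesL {N : ℕ} {T : List (List (ℕ × Fin 4))} {e : List Vx} : e ∈ edgesL N T ↔
    (∃ l, e = filL l) ∨ (∃ j < N, ∃ k, e = winL j k) ∨
      ∃ t ∈ T, e = t.map (fun x => lv x.1 x.2) ++ coreL N := by
  unfold edgesL
  simp only [List.mem_append, List.mem_map, List.mem_finRange, true_and, List.mem_flatMap,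
    List.mem_range, eq_comm]

theorem game_iff {N : ℕ} {T : List (List (ℕ × Fin 4))} (hne : T ≠ [])
    (hT : ∀ t ∈ T, ∀ x ∈ t, x.1 < N) : WaiterWins (EE N T) (VV N T) ∅ ↔ AG T N ∅ := by
  have hmemE : ∀ {e : List Vx}, e ∈ edgesL N T → e.toFinset ∈ EE N T := by
    intro e he
    unfold EE
    rw [List.mem_toFinset, List.mem_map]
    exact ⟨e, he, rfl⟩
  have hmemV : ∀ {e : List Vx} {x : Vx}, e ∈ edgesL N T → x ∈ e → x ∈ VV N T := by
    intro e x he hx
    unfold VV
    rw [List.mem_toFinset, List.mem_flatten]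
    exact ⟨e, he, hx⟩
  have htag : ∀ t : Fin 18, ∃ k : Fin 7, inc t k = true := by decide +kernel
  have hupp : UppW N (VV N T) := by
    intro j hj x hx
    rcases hx with ⟨t, rfl⟩ | ⟨s, i, hi, rfl⟩
    · obtain ⟨k, hk⟩ := htag t
      exact hmemV (mem_edgesL.2 (Or.inr (Or.inl ⟨j, hj, k, rfl⟩))) (bas_mem_winL.2 ⟨rfl, hk⟩)
    · exact hmemV (mem_edgesL.2 (Or.inr (Or.inl ⟨j, hj, 0, rfl⟩))) (com_mem_winL.2 ⟨rfl, hi⟩)
  have hfil : UppF (VV N T) := by
    intro l i hi
    exact hmemV (mem_edgesL.2 (Or.inl ⟨l, rfl⟩)) (fil_mem_filL.2 ⟨rfl, hi⟩)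
  have hcore : ed N iC ⊆ VV N T := by
    obtain ⟨t, ht⟩ := List.exists_mem_of_ne_nil T hne
    intro x hx
    unfold ed edL at hx
    rw [List.mem_toFinset] at hx
    exact hmemV (mem_edgesL.2 (Or.inr (Or.inr ⟨t, ht, rfl⟩))) (List.mem_append_right _ hx)
  have hdis : Disjoint (VV N T) (∅ : Finset Vx) := disjoint_empty_right _
  constructor
  · intro h
    refine (sound (N := N) (T := T) (E := EE N T) hT ?_ h).1 N ∅ ?_
    · intro e he
      unfold EE at he
      rw [List.mem_toFinset, List.mem_map] at he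
      obtain ⟨e', he', rfl⟩ := he
      rcases mem_edgesL.1 he' with ⟨l, rfl⟩ | ⟨j, hj, k, rfl⟩ | ⟨t, ht, rfl⟩
      · exact Or.inr ⟨iF l, mem_IN.2 (Or.inr (Or.inr ⟨l, rfl⟩)), by simp, Subset.refl _⟩
      · exact Or.inr ⟨iW j k, mem_IN.2 (Or.inr (Or.inl ⟨j, k, hj, rfl⟩)), by simp,
          Subset.refl _⟩
      · refine Or.inl ⟨t, ht, ?_, ?_⟩
        · intro x hx
          unfold ed edL at hx
          rw [List.mem_toFinset] at hx ⊢
          exact List.mem_append_right _ hx
        · intro x hx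
          rw [List.mem_toFinset]
          exact List.mem_append_left _ (List.mem_map.2 ⟨x, hx, rfl⟩)
    · refine ⟨hdis, le_rfl, hupp, fun _ => hfil, ?_, ?_, ?_, ?_⟩
      · exact hcore.trans subset_union_left
      · intro j h1 h2; omega
      · intro j _ a; simp
      · unfold Phi
        rw [sum_IN, sum_fil hdis hfil, wt_of_subset_left hdis hcore, card_ed_core]
        have : ∑ j ∈ range N, ∑ k, wt (VV N T) ∅ (ed N (iW j k)) = ∑ j ∈ range N, 15 * un j :=
          sum_congr rfl fun j hj => sum_win hdis hupp (mem_range.1 hj)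
        rw [this, sum_un]
        ring
  · intro h
    refine complete (N := N) (T := T) (E := EE N T) ?_ ?_ ?_ N (ed N iC) _ _ le_rfl ?_ ?_
    · intro t ht
      refine ⟨_, hmemE (mem_edgesL.2 (Or.inr (Or.inr ⟨t, ht, rfl⟩))), ?_⟩
      intro x hx
      unfold ed edL
      rw [List.mem_toFinset, List.mem_append] at hx
      rw [mem_union, List.mem_toFinset, List.mem_toFinset]
      exact hx.symm
    · intro l
      exact hmemE (mem_edgesL.2 (Or.inl ⟨l, rfl⟩))
    · intro j hj k
      exact hmemE (mem_edgesL.2 (Or.inr (Or.inl ⟨j, hj, k, rfl⟩)))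
    · refine ⟨hdis, hcore.trans subset_union_left, ?_, hupp, hfil, ?_, ?_⟩
      · rw [sdiff_empty, card_ed_core]
      · intro j _ x hx
        exact not_mem_ed_core hx
      · intro l i _
        unfold ed edL
        simp
    · exact Or.inr ⟨rfl, ∅, by simp, h⟩

end Pool.Agent.Lib.MP_c85d9c_lc
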