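import Pool.Agent.Lib.MP_c85d9c_lc.Local

/-!
# From a winning strategy of Waiter to a winning strategy in the abstract game
-/

namespace Pool.Agent.Lib.MP_c85d9c_lc

open Finset

/-- The abstract game: the windows `m - 1, m - 2, …, 0` are treated one after the other. In each of
them Waiter splits the four literals into two pairs `{a, b}` and `{c, d}` and Client keeps one
literal of each pair. Waiter wins if the kept literals contain a term. -/
def AG (T : List (List (ℕ × Fin 4))) : ℕ → Finset (ℕ × Fin 4) → Prop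
  | 0, S => ∃ t ∈ T, ∀ x ∈ t, x ∈ S
  | m + 1, S => ∃ a b c d : Fin 4, [a, b, c, d].Nodup ∧
      AG T m (insert (m, c) (insert (m, a) S)) ∧ AG T m (insert (m, d) (insert (m, a) S)) ∧
      AG T m (insert (m, c) (insert (m, b) S)) ∧ AG T m (insert (m, d) (insert (m, b) S))

/-- The unit of window `j`. -/
def un (j : ℕ) : ℚ := (1 / 2) ^ (9 + 4 * j)

theorem un_pos (j : ℕ) : 0 < un j := by unfold un; positivity

theorem un_succ (j : ℕ) : un j = 16 * un (j + 1) := by
  unfold un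
  have h : ((1 : ℚ) / 2) ^ (9 + 4 * (j + 1)) = (1 / 2) ^ (9 + 4 * j) * (1 / 2) ^ 4 := by
    rw [← pow_add]; ring_nf
  rw [h]; ring

theorem un_anti {i j : ℕ} (h : i ≤ j) : un j ≤ un i := by
  unfold un
  exact pow_le_pow_of_le_one (by norm_num) (by norm_num) (by omega)

theorem un_lt {i j : ℕ} (h : i < j) : 16 * un j ≤ un i := by
  obtain ⟨k, rfl⟩ : ∃ k, j = k + 1 := ⟨j - 1, by omega⟩
  rw [← un_succ]
  exact un_anti (by omega)

theorem un_le (j : ℕ) : 16 * un j ≤ (1 / 2) ^ 5 := by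
  have := un_anti (Nat.zero_le j)
  have h0 : un 0 = (1 / 2) ^ 9 := by unfold un; norm_num
  rw [h0] at this
  norm_num at this ⊢
  linarith

/-- The literal vertex `a` of window `j`. -/
def lv (j : ℕ) (a : Fin 4) : Vx := Vx.bas j ⟨a.val, by omega⟩

theorem lv_inj {j j' : ℕ} {a a' : Fin 4} : lv j a = lv j' a' ↔ j = j' ∧ a = a' := by
  unfold lv
  simp only [Vx.bas.injEq, Fin.mk.injEq]
  constructor
  · rintro ⟨h, h'⟩; exact ⟨h, Fin.ext h'⟩
  · rintro ⟨rfl, rfl⟩; exact ⟨rfl, rfl⟩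

/-- `x` is a vertex of window `j`. -/
def inWin (j : ℕ) (x : Vx) : Prop := (∃ t, x = Vx.bas j t) ∨ ∃ s i, i < j ∧ x = Vx.com j s i

theorem inWin_lv (j : ℕ) (a : Fin 4) : inWin j (lv j a) := Or.inl ⟨_, rfl⟩

theorem inWin_inj {j j' : ℕ} {x : Vx} (h : inWin j x) (h' : inWin j' x) : j = j' := by
  rcases h with ⟨t, rfl⟩ | ⟨s, i, _, rfl⟩ <;> rcases h' with ⟨t', h⟩ | ⟨s', i', _, h⟩ <;>
    simp_all

/-- The row of a vertex of a window. -/
def row : Vx → Fin 19
  | Vx.bas _ t => ⟨t.val, by omega⟩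
  | _ => 18

theorem row_lv (j : ℕ) (a : Fin 4) : row (lv j a) = lr a := rfl

theorem eq_lv_of_row {j : ℕ} {x : Vx} (h : inWin j x) {a : Fin 4} (hr : row x = lr a) :
    x = lv j a := by
  rcases h with ⟨t, rfl⟩ | ⟨s, i, _, rfl⟩
  · unfold row lr at hr
    simp only [Fin.mk.injEq] at hr
    unfold lv
    congr 1
    exact Fin.ext hr
  · unfold row lr at hr
    have := congrArg Fin.val hr
    simp at this
    omega

theorem eq_of_row_four {j : ℕ} {x : Vx} (h : inWin j x) (hr : row x = 4) :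
    x = Vx.bas j 4 := by
  rcases h with ⟨t, rfl⟩ | ⟨s, i, _, rfl⟩
  · unfold row at hr
    congr 1
    have := congrArg Fin.val hr
    exact Fin.ext this
  · unfold row at hr
    have := congrArg Fin.val hr
    simp at this

theorem mem_ed_win {N j j' : ℕ} {k : Fin 7} {x : Vx} (hx : inWin j x) :
    x ∈ ed N (iW j' k) ↔ j' = j ∧ tinc (row x) k = true := by
  unfold ed edL
  rw [List.mem_toFinset]
  rcases hx with ⟨t, rfl⟩ | ⟨s, i, hi, rfl⟩
  · rw [bas_mem_winL]
    have : tinc (row (Vx.bas j t)) k = inc t k := by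
      unfold row tinc
      rw [dif_pos t.isLt]
    rw [this, eq_comm]
  · rw [com_mem_winL]
    unfold row tinc
    simp only [eq_comm]
    constructor
    · rintro ⟨h, _⟩; exact ⟨h, by simp⟩
    · rintro ⟨rfl, _⟩; exact ⟨rfl, by omega⟩

theorem not_mem_ed_core {N j : ℕ} {x : Vx} (hx : inWin j x) : x ∉ ed N iC := by
  unfold ed edL
  rw [List.mem_toFinset]
  rcases hx with ⟨t, rfl⟩ | ⟨s, i, hi, rfl⟩ <;> simp

theorem not_mem_ed_fil {N j : ℕ} {l : Fin 5} {x : Vx} (hx : inWin j x) : x ∉ ed N (iF l) := by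
  unfold ed edL
  rw [List.mem_toFinset]
  rcases hx with ⟨t, rfl⟩ | ⟨s, i, hi, rfl⟩ <;> simp

theorem not_mem_win_of_core {N j : ℕ} {k : Fin 7} {x : Vx} (hx : x ∈ ed N iC) :
    x ∉ ed N (iW j k) := by
  unfold ed edL at hx ⊢
  rw [List.mem_toFinset] at hx ⊢
  rw [mem_coreL] at hx
  rcases hx with ⟨s, i, hi, rfl⟩ | ⟨s, rfl⟩ <;> simp

theorem not_mem_fil_of_core {N : ℕ} {l : Fin 5} {x : Vx} (hx : x ∈ ed N iC) :
    x ∉ ed N (iF l) := by
  unfold ed edL at hx ⊢
  rw [List.mem_toFinset] at hx ⊢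
  rw [mem_coreL] at hx
  rcases hx with ⟨s, i, hi, rfl⟩ | ⟨s, rfl⟩ <;> simp

/-- A vertex is in the core, or in a window, or in a filler, or in none of the edges. -/
theorem classify (N : ℕ) (x : Vx) : x ∈ ed N iC ∨ (∃ j < N, inWin j x) ∨
    (∃ (l : Fin 5) (i : ℕ), i < l.val + 1 ∧ x = Vx.fil l i) ∨ ∀ i ∈ IN N, x ∉ ed N i := by
  by_contra hcon
  push Not at hcon
  obtain ⟨h1, h2, h3, i, hi, hx⟩ := hcon
  rw [mem_IN] at hi
  rcases hi with rfl | ⟨j, k, hj, rfl⟩ | ⟨l, rfl⟩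
  · exact h1 hx
  · refine h2 j hj ?_
    unfold ed edL at hx
    rw [List.mem_toFinset, mem_winL] at hx
    rcases hx with ⟨t, _, rfl⟩ | ⟨s, i, hi, rfl⟩
    · exact Or.inl ⟨t, rfl⟩
    · exact Or.inr ⟨s, i, hi, rfl⟩
  · unfold ed edL filL at hx
    rw [List.mem_toFinset, List.mem_map] at hx
    obtain ⟨i, hi, rfl⟩ := hx
    exact h3 l i (by simpa using hi) rfl

section weights

variable {N : ℕ} {U W : Finset Vx}

/-- The weight of a vertex of window `j`. -/
theorem Ws_win {j : ℕ} (hj : j < N) {x : Vx} (hx : inWin j x) :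
    Ws (IN N) (ed N) U W x = ∑ k, if tinc (row x) k then wt U W (ed N (iW j k)) else 0 := by
  unfold Ws
  rw [sum_IN, if_neg (not_mem_ed_core hx)]
  have h1 : ∑ l : Fin 5, (if x ∈ ed N (iF l) then wt U W (ed N (iF l)) else 0) = 0 :=
    sum_eq_zero fun l _ => if_neg (not_mem_ed_fil hx)
  rw [h1, add_zero, zero_add, sum_eq_single_of_mem j (mem_range.2 hj)]
  · refine sum_congr rfl fun k _ => ?_
    simp only [mem_ed_win hx, true_and]
  · intro j' _ hne
    refine sum_eq_zero fun k _ => if_neg ?_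
    rw [mem_ed_win hx]
    exact fun h => hne h.1

theorem Ws_win' {j : ℕ} (hj : j < N) {x : Vx} (hx : inWin j x) {ew : Fin 7 → ℕ} {c : ℚ}
    (h : ∀ k, wt U W (ed N (iW j k)) = ew k * c) :
    Ws (IN N) (ed N) U W x = mW ew (row x) * c := by
  rw [Ws_win hj hx]
  unfold mW
  push_cast
  rw [sum_mul]
  refine sum_congr rfl fun k _ => ?_
  rw [h k]
  split_ifs <;> simp

theorem Ws_win_le {j : ℕ} (hj : j < N) {x : Vx} (hx : inWin j x) :
    Ws (IN N) (ed N) U W x ≤ ∑ k, wt U W (ed N (iW j k)) := by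
  rw [Ws_win hj hx]
  refine sum_le_sum fun k _ => ?_
  split_ifs
  · exact le_rfl
  · exact wt_nonneg _ _ _

theorem Ws_core {x : Vx} (hx : x ∈ ed N iC) :
    Ws (IN N) (ed N) U W x = wt U W (ed N iC) := by
  unfold Ws
  rw [sum_IN, if_pos hx]
  have h1 : ∑ l : Fin 5, (if x ∈ ed N (iF l) then wt U W (ed N (iF l)) else 0) = 0 :=
    sum_eq_zero fun l _ => if_neg (not_mem_fil_of_core hx)
  have h2 : ∑ j ∈ range N, ∑ k : Fin 7,
      (if x ∈ ed N (iW j k) then wt U W (ed N (iW j k)) else 0) = 0 :=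
    sum_eq_zero fun j _ => sum_eq_zero fun k _ => if_neg (not_mem_win_of_core hx)
  rw [h1, h2]; ring

theorem Ws_fil {l : Fin 5} {i : ℕ} (hi : i < l.val + 1) :
    Ws (IN N) (ed N) U W (Vx.fil l i) = wt U W (ed N (iF l)) := by
  unfold Ws
  rw [sum_IN]
  have h0 : Vx.fil l i ∉ ed N iC := by unfold ed edL; simp
  have h2 : ∑ j ∈ range N, ∑ k : Fin 7,
      (if Vx.fil l i ∈ ed N (iW j k) then wt U W (ed N (iW j k)) else 0) = 0 :=
    sum_eq_zero fun j _ => sum_eq_zero fun k _ => if_neg (by unfold ed edL; simp)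
  rw [if_neg h0, h2, zero_add, zero_add, sum_eq_single_of_mem l (mem_univ l), if_pos]
  · unfold ed edL
    rw [List.mem_toFinset, fil_mem_filL]
    exact ⟨rfl, hi⟩
  · intro l' _ hne
    refine if_neg ?_
    unfold ed edL
    rw [List.mem_toFinset, fil_mem_filL]
    exact fun h => hne h.1.symm

theorem Ws_none {x : Vx} (hx : ∀ i ∈ IN N, x ∉ ed N i) : Ws (IN N) (ed N) U W x = 0 := by
  unfold Ws
  exact sum_eq_zero fun i hi => if_neg (hx i hi)

/-- The windows below `m` are untouched. -/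
def UppW (m : ℕ) (U : Finset Vx) : Prop := ∀ j < m, ∀ x, inWin j x → x ∈ U

/-- The fillers are untouched. -/
def UppF (U : Finset Vx) : Prop := ∀ (l : Fin 5) (i : ℕ), i < l.val + 1 → Vx.fil l i ∈ U

theorem ed_win_subset {m : ℕ} (h : UppW m U) {j : ℕ} (hj : j < m) (k : Fin 7) :
    ed N (iW j k) ⊆ U := by
  intro x hx
  refine h j hj x ?_
  unfold ed edL at hx
  rw [List.mem_toFinset, mem_winL] at hx
  rcases hx with ⟨t, _, rfl⟩ | ⟨s, i, hi, rfl⟩
  · exact Or.inl ⟨t, rfl⟩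
  · exact Or.inr ⟨s, i, hi, rfl⟩

theorem ed_fil_subset (h : UppF U) (l : Fin 5) : ed N (iF l) ⊆ U := by
  intro x hx
  unfold ed edL filL at hx
  rw [List.mem_toFinset, List.mem_map] at hx
  obtain ⟨i, hi, rfl⟩ := hx
  exact h l i (by simpa using hi)

theorem wt_win (hd : Disjoint U W) {m : ℕ} (h : UppW m U) {j : ℕ} (hj : j < m) (k : Fin 7) :
    wt U W (ed N (iW j k)) = ewI k * un j := by
  rw [wt_of_subset_left hd (ed_win_subset h hj k), card_ed_win, pow_add, esize_eq]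
  unfold un
  rw [pow_add]; ring

theorem wt_fil (hd : Disjoint U W) (h : UppF U) (l : Fin 5) :
    wt U W (ed N (iF l)) = (1 / 2) ^ (l.val + 1) := by
  rw [wt_of_subset_left hd (ed_fil_subset h l), card_ed_fil]

theorem sum_fil (hd : Disjoint U W) (h : UppF U) :
    ∑ l, wt U W (ed N (iF l)) = 1 - (1 / 2) ^ 5 := by
  simp only [wt_fil hd h, Fin.sum_univ_five]
  norm_num

theorem sum_win (hd : Disjoint U W) {m : ℕ} (h : UppW m U) {j : ℕ} (hj : j < m) :
    ∑ k, wt U W (ed N (iW j k)) = 15 * un j := by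
  simp only [wt_win hd h hj]
  rw [← sum_mul]
  have : (∑ k, (ewI k : ℚ)) = 15 := by exact_mod_cast congrArg (Nat.cast (R := ℚ)) sum_ewI
  rw [this]

theorem sum_un (m : ℕ) : ∑ j ∈ range m, 15 * un j = (1 / 2) ^ 5 - (1 / 2) ^ (5 + 4 * m) := by
  induction m with
  | zero => simp
  | succ m ih =>
    rw [sum_range_succ, ih]
    unfold un
    rw [show 9 + 4 * m = 5 + 4 * m + 4 by ring, show 5 + 4 * (m + 1) = 5 + 4 * m + 4 by ring,
      pow_add _ (5 + 4 * m) 4]
    norm_num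
    ring

theorem low_sum (hd : Disjoint U W) {m : ℕ} (hm : m ≤ N) (h : UppW m U) (hf : UppF U)
    (hp : Phi (IN N) (ed N) U W = 1) :
    wt U W (ed N iC) + ∑ j ∈ Ico m N, ∑ k, wt U W (ed N (iW j k)) = (1 / 2) ^ (5 + 4 * m) := by
  unfold Phi at hp
  rw [sum_IN, sum_fil hd hf, ← sum_range_add_sum_Ico _ hm] at hp
  have : ∑ j ∈ range m, ∑ k, wt U W (ed N (iW j k)) = ∑ j ∈ range m, 15 * un j :=
    sum_congr rfl fun j hj => sum_win hd h (mem_range.1 hj)
  rw [this, sum_un] at hp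
  linarith

end weights

end Pool.Agent.Lib.MP_c85d9c_lc
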