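import Pool.Agent.Lib.MP_c85d9c_lc.Formula
import Pool.Agent.Lib.MP_c85d9c_lc.Sound

/-!
# The abstract game of a quantified Boolean formula
-/

namespace Pool.Agent.Lib.MP_c85d9c_lc

open Finset

/-- The pairs of literal vertices that make the existential variable true / false. -/
def pat : Bool → List (List (Fin 4))
  | true => [[0, 2], [0, 3], [1, 2], [1, 3]]
  | false => [[0, 1], [0, 3], [2, 1], [2, 3]]

/-- The terms of a literal. The window of `y_i` is `s + 2 i`, the window of `x_i` is
`s + 2 i + 1`. -/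
def litTerms (s : ℕ) (l : Lit) : List (List (ℕ × Fin 4)) :=
  if l.1 then [[(s + 2 * l.2.2, if l.2.1 then 0 else 1)]]
  else (pat l.2.1).map fun p => p.map fun x => (s + 2 * l.2.2 + 1, x)

/-- The terms of the clauses of `φ`; the first of them has number `q`. -/
def termsFrom (s : ℕ) : ℕ → Formula → List (List (ℕ × Fin 4))
  | _, [] => []
  | q, C :: φ => C.flatMap (fun l => (litTerms s l).map fun t => (q, 0) :: t) ++
      termsFrom s (q + 1) φ

/-- All the terms. -/
def terms (s : ℕ) (φ : Formula) : List (List (ℕ × Fin 4)) :=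
  termsFrom s 0 φ ++ [(List.range φ.length).map fun q => (q, 1)]

theorem mem_termsFrom {s : ℕ} {φ : Formula} {t : List (ℕ × Fin 4)} : ∀ {q : ℕ},
    t ∈ termsFrom s q φ ↔
      ∃ i, ∃ C, φ[i]? = some C ∧ ∃ l ∈ C, ∃ t' ∈ litTerms s l, t = (q + i, 0) :: t' := by
  induction φ with
  | nil => intro q; simp [termsFrom]
  | cons C φ ih =>
    intro q
    unfold termsFrom
    rw [List.mem_append, ih]
    simp only [List.mem_flatMap, List.mem_map]
    constructor
    · rintro (⟨l, hl, t', ht', rfl⟩ | ⟨i, D, hD, l, hl, t', ht', rfl⟩)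
      · exact ⟨0, C, rfl, l, hl, t', ht', rfl⟩
      · exact ⟨i + 1, D, hD, l, hl, t', ht', by rw [show q + 1 + i = q + (i + 1) by ring]⟩
    · rintro ⟨i, D, hD, l, hl, t', ht', rfl⟩
      rcases i with _ | i
      · simp only [List.getElem?_cons_zero, Option.some.injEq] at hD
        subst hD
        exact Or.inl ⟨l, hl, t', ht', rfl⟩
      · simp only [List.getElem?_cons_succ] at hD
        exact Or.inr ⟨i, D, hD, l, hl, t', ht', by rw [show q + 1 + i = q + (i + 1) by ring]⟩

theorem mem_terms {s : ℕ} {φ : Formula} {t : List (ℕ × Fin 4)} : t ∈ terms s φ ↔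
    (∃ q C, φ[q]? = some C ∧ ∃ l ∈ C, ∃ t' ∈ litTerms s l, t = (q, 0) :: t') ∨
      t = (List.range φ.length).map fun q => (q, 1) := by
  unfold terms
  rw [List.mem_append, mem_termsFrom, List.mem_singleton]
  simp only [zero_add]

/-- All the elements of `t` are in `S`. -/
def Sub (t : List (ℕ × Fin 4)) (S : Finset (ℕ × Fin 4)) : Prop := ∀ x ∈ t, x ∈ S

theorem litTerms_univ {s : ℕ} {l : Lit} (h : l.1 = true) :
    litTerms s l = [[(s + 2 * l.2.2, if l.2.1 then 0 else 1)]] := by
  unfold litTerms; rw [if_pos h]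

theorem litTerms_ex {s : ℕ} {l : Lit} (h : l.1 = false) :
    litTerms s l = (pat l.2.1).map fun p => p.map fun x => (s + 2 * l.2.2 + 1, x) := by
  unfold litTerms; rw [if_neg (by simp [h])]

theorem window_of_mem_litTerms {s : ℕ} {l : Lit} {t : List (ℕ × Fin 4)} (ht : t ∈ litTerms s l)
    {x : ℕ × Fin 4} (hx : x ∈ t) : x.1 = s + 2 * l.2.2 + (if l.1 then 0 else 1) := by
  rcases hb : l.1 with _ | _
  · rw [litTerms_ex hb, List.mem_map] at ht
    obtain ⟨p, _, rfl⟩ := ht
    rw [List.mem_map] at hx
    obtain ⟨y, _, rfl⟩ := hx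
    simp
  · rw [litTerms_univ hb, List.mem_singleton] at ht
    subst ht
    rw [List.mem_singleton] at hx
    subst hx
    simp

section toFormula

variable {s n₀ : ℕ} {φ : Formula}

/-- No false literal of index at least `n` has a term in `S`. -/
def CA (s n₀ n : ℕ) (S : Finset (ℕ × Fin 4)) (α β : ℕ → Bool) : Prop :=
  ∀ l : Lit, n ≤ l.2.2 → l.2.2 < n₀ → ¬ Lit.Holds α β l → ∀ t ∈ litTerms s l, ¬ Sub t S

/-- Every true literal of index at least `n` has a term in `S`. -/
def CB (s n₀ n : ℕ) (S : Finset (ℕ × Fin 4)) (α β : ℕ → Bool) : Prop :=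
  ∀ l : Lit, n ≤ l.2.2 → l.2.2 < n₀ → Lit.Holds α β l → ∃ t ∈ litTerms s l, Sub t S

theorem avoid : ∀ a b c d e : Fin 4, [a, b, c, d].Nodup →
    ∃ p q : Fin 4, (p = a ∨ p = b) ∧ (q = c ∨ q = d) ∧ p ≠ e ∧ q ≠ e := by decide +kernel

theorem exLem' : ∀ a b c d : Fin 4, [a, b, c, d].Nodup →
    ∃ v : Bool, ∃ p q : Fin 4, (p = a ∨ p = b) ∧ (q = c ∨ q = d) ∧
      ((pat (!v)).all fun t => t.any fun x => x != p && x != q) = true := by decide +kernel

theorem exLem (a b c d : Fin 4) (h : [a, b, c, d].Nodup) :
    ∃ v : Bool, ∃ p q : Fin 4, (p = a ∨ p = b) ∧ (q = c ∨ q = d) ∧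
      ∀ t ∈ pat (!v), ∃ x ∈ t, x ≠ p ∧ x ≠ q := by
  obtain ⟨v, p, q, h1, h2, h3⟩ := exLem' a b c d h
  refine ⟨v, p, q, h1, h2, ?_⟩
  simpa [List.all_eq_true, List.any_eq_true] using h3

theorem AG_choose {T : List (List (ℕ × Fin 4))} {m : ℕ} {S : Finset (ℕ × Fin 4)}
    {a b c d : Fin 4}
    (h : AG T m (insert (m, c) (insert (m, a) S)) ∧ AG T m (insert (m, d) (insert (m, a) S)) ∧
      AG T m (insert (m, c) (insert (m, b) S)) ∧ AG T m (insert (m, d) (insert (m, b) S)))
    {p q : Fin 4} (hp : p = a ∨ p = b) (hq : q = c ∨ q = d) :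
    AG T m (insert (m, q) (insert (m, p) S)) := by
  rcases hp with rfl | rfl <;> rcases hq with rfl | rfl
  exacts [h.1, h.2.1, h.2.2.1, h.2.2.2]

theorem fresh_insert {m : ℕ} {S : Finset (ℕ × Fin 4)} (h : ∀ x ∈ S, m + 1 ≤ x.1) (p q : Fin 4) :
    ∀ x ∈ insert (m, q) (insert (m, p) S), m ≤ x.1 := by
  intro x hx
  rw [mem_insert, mem_insert] at hx
  rcases hx with rfl | rfl | hx
  · exact le_rfl
  · exact le_rfl
  · have := h x hx; omega

/-- The selection phase: Client selects the clause `q`. -/
theorem select {q : ℕ} {C : List Lit} (hq : φ[q]? = some C) (hn : φ.bound ≤ n₀)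
    {α β : ℕ → Bool} (hlen : φ.length ≤ s) : ∀ (k : ℕ) (S : Finset (ℕ × Fin 4)), k ≤ s →
    (∀ x ∈ S, k ≤ x.1) → CA s n₀ 0 S α β →
    (∀ j, k ≤ j → j < s → j ≠ q → (j, (0 : Fin 4)) ∉ S) →
    (k ≤ q → (q, (1 : Fin 4)) ∉ S) → AG (terms s φ) k S →
    ∃ l ∈ C, Lit.Holds α β l := by
  intro k
  induction k with
  | zero =>
    intro S _ _ hCA h0 h1 ⟨t, ht, htS⟩
    have hql : q < φ.length := (List.getElem?_eq_some_iff.1 hq).1
    rcases mem_terms.1 ht with ⟨q', C', hC', l, hl, t', ht', rfl⟩ | rfl
    · have hql' : q' < φ.length := (List.getElem?_eq_some_iff.1 hC').1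
      have hqq : q' = q := by
        by_contra hne
        exact h0 q' (Nat.zero_le _) (by omega) hne (htS _ List.mem_cons_self)
      subst hqq
      rw [hq] at hC'
      obtain rfl : C = C' := by simpa using hC'
      refine ⟨l, hl, ?_⟩
      by_contra hcon
      refine hCA l (Nat.zero_le _) ?_ hcon t' ht' fun x hx => htS x (List.mem_cons_of_mem _ hx)
      exact lt_of_lt_of_le (lt_bound (List.mem_of_getElem? hq) hl) hn
    · exfalso
      exact h1 (Nat.zero_le _) (htS _ (List.mem_map.2 ⟨q, List.mem_range.2 hql, rfl⟩))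
  | succ k ih =>
    intro S hk hfr hCA h0 h1 ⟨a, b, c, d, hnd, h⟩
    obtain ⟨p, r, hp, hr, hpe, hre⟩ := avoid a b c d (if k = q then 1 else 0) hnd
    refine ih _ (by omega) (fresh_insert hfr p r) ?_ ?_ ?_ (AG_choose h hp hr)
    · intro l hl1 hl2 hl3 t ht hsub
      refine hCA l hl1 hl2 hl3 t ht fun x hx => ?_
      have := hsub x hx
      rw [mem_insert, mem_insert] at this
      have hw := window_of_mem_litTerms ht hx
      rcases this with h2 | h2 | h2
      · rw [h2] at hw; simp only at hw; omega
      · rw [h2] at hw; simp only at hw; omega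
      · exact h2
    · intro j hj1 hj2 hjq hcon
      rw [mem_insert, mem_insert] at hcon
      rcases hcon with h2 | h2 | h2
      · simp only [Prod.mk.injEq] at h2
        rw [if_neg (by omega)] at hre
        exact hre h2.2.symm
      · simp only [Prod.mk.injEq] at h2
        rw [if_neg (by omega)] at hpe
        exact hpe h2.2.symm
      · have := hfr _ h2
        simp only at this
        exact h0 j this hj2 hjq h2
    · intro hkq hcon
      rw [mem_insert, mem_insert] at hcon
      rcases hcon with h2 | h2 | h2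
      · simp only [Prod.mk.injEq] at h2
        rw [if_pos h2.1.symm] at hre
        exact hre h2.2.symm
      · simp only [Prod.mk.injEq] at h2
        rw [if_pos h2.1.symm] at hpe
        exact hpe h2.2.symm
      · have := hfr _ h2
        simp only at this
        exact h1 this h2

theorem not_holds_univ {α β : ℕ → Bool} {l : Lit} (h : l.1 = true) (h' : ¬ Lit.Holds α β l) :
    l.2.1 = !(β l.2.2) := by
  unfold Lit.Holds at h'
  rw [if_pos h] at h'
  revert h'
  cases β l.2.2 <;> cases l.2.1 <;> simp

theorem not_holds_ex {α β : ℕ → Bool} {l : Lit} (h : l.1 = false) (h' : ¬ Lit.Holds α β l) :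
    l.2.1 = !(α l.2.2) := by
  unfold Lit.Holds at h'
  rw [if_neg (by simp [h])] at h'
  revert h'
  cases α l.2.2 <;> cases l.2.1 <;> simp

/-- From the abstract game to the formula. -/
theorem toAlt (hn : φ.bound ≤ n₀) (hlen : φ.length ≤ s) : ∀ (n : ℕ) (S : Finset (ℕ × Fin 4))
    (α β : ℕ → Bool), n ≤ n₀ → (∀ x ∈ S, s + 2 * n ≤ x.1) → CA s n₀ n S α β →
    AG (terms s φ) (s + 2 * n) S → Alt φ.Holds n α β := by
  intro n
  induction n with
  | zero =>
    intro S α β _ hfr hCA h
    intro C hC
    obtain ⟨q, hq⟩ := List.mem_iff_getElem?.1 hC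
    refine select hq hn hlen s S le_rfl (by simpa using hfr) hCA ?_ ?_ h
    · intro j hj1 hj2; omega
    · intro hsq
      have := (List.getElem?_eq_some_iff.1 hq).1
      omega
  | succ n ih =>
    intro S α β hnn hfr hCA h
    obtain ⟨a, b, c, d, hnd, h⟩ := (show AG (terms s φ) ((s + 2 * n + 1) + 1) S from h)
    obtain ⟨v, p, r, hp, hr, hpat⟩ := exLem a b c d hnd
    refine ⟨v, fun w => ?_⟩
    have h' := AG_choose h hp hr
    have hfr' : ∀ x ∈ insert (s + 2 * n + 1, r) (insert (s + 2 * n + 1, p) S),
        s + 2 * n + 1 ≤ x.1 := fresh_insert (by intro x hx; have := hfr x hx; omega) p r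
    set S' := insert (s + 2 * n + 1, r) (insert (s + 2 * n + 1, p) S) with hS'
    obtain ⟨a', b', c', d', hnd', h''⟩ := (show AG (terms s φ) ((s + 2 * n) + 1) S' from h')
    obtain ⟨p', r', hp', hr', hpe, hre⟩ := avoid a' b' c' d' (if w then 1 else 0) hnd'
    refine ih _ _ _ (by omega) (fresh_insert hfr' p' r') ?_ (AG_choose h'' hp' hr')
    intro l hl1 hl2 hl3 t ht hsub
    rcases Nat.lt_or_ge n l.2.2 with h1 | h1
    · refine hCA l (by omega) hl2 ?_ t ht ?_
      · intro hcon
        apply hl3
        unfold Lit.Holds at hcon ⊢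
        rw [Function.update_of_ne (by omega), Function.update_of_ne (by omega)]
        exact hcon
      · intro x hx
        have h2 := hsub x hx
        rw [hS'] at h2
        simp only [mem_insert] at h2
        have hw := window_of_mem_litTerms ht hx
        rcases h2 with h2 | h2 | h2 | h2 | h2
        · rw [h2] at hw; simp only at hw; omega
        · rw [h2] at hw; simp only at hw; omega
        · rw [h2] at hw; simp only at hw; omega
        · rw [h2] at hw; simp only at hw; omega
        · exact h2
    · obtain hln : l.2.2 = n := by omega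
      rcases hb : l.1 with _ | _
      · -- the existential variable
        have hs := not_holds_ex hb hl3
        rw [hln, Function.update_self] at hs
        rw [litTerms_ex hb, List.mem_map, hs, hln] at ht
        obtain ⟨P, hP, rfl⟩ := ht
        obtain ⟨x, hx, hxp, hxr⟩ := hpat P hP
        have h2 := hsub (s + 2 * n + 1, x) (List.mem_map.2 ⟨x, hx, rfl⟩)
        rw [hS'] at h2
        simp only [mem_insert, Prod.mk.injEq] at h2
        rcases h2 with h2 | h2 | h2 | h2 | h2
        · omega
        · omega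
        · exact hxr h2.2
        · exact hxp h2.2
        · have := hfr _ h2; simp only at this; omega
      · -- the universal variable
        have hs := not_holds_univ hb hl3
        rw [hln, Function.update_self] at hs
        rw [litTerms_univ hb, List.mem_singleton, hs, hln] at ht
        subst ht
        have h2 := hsub _ (List.mem_singleton.2 rfl)
        rw [hS'] at h2
        simp only [mem_insert, Prod.mk.injEq] at h2
        have hif : (if (!w) = true then (0 : Fin 4) else 1) = if w = true then 1 else 0 := by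
          cases w <;> rfl
        rw [hif] at h2
        rcases h2 with h2 | h2 | h2 | h2 | h2
        · exact hre h2.2.symm
        · exact hpe h2.2.symm
        · omega
        · omega
        · have := hfr _ h2; simp only at this; omega

/-- The selection phase, for Waiter. -/
theorem select' (hn : φ.bound ≤ n₀) {α β : ℕ → Bool} (hlen : φ.length ≤ s)
    (hφ : φ.Holds α β) : ∀ (k : ℕ) (S : Finset (ℕ × Fin 4)), k ≤ s → CB s n₀ 0 S α β →
    (∀ j, k ≤ j → j < s → (j, (0 : Fin 4)) ∈ S ∨ (j, (1 : Fin 4)) ∈ S) →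
    AG (terms s φ) k S := by
  intro k
  induction k with
  | zero =>
    intro S _ hCB h
    by_cases hall : ∀ q < φ.length, (q, (1 : Fin 4)) ∈ S
    · refine ⟨_, mem_terms.2 (Or.inr rfl), ?_⟩
      intro x hx
      rw [List.mem_map] at hx
      obtain ⟨q, hq, rfl⟩ := hx
      exact hall q (List.mem_range.1 hq)
    · push Not at hall
      obtain ⟨q, hq, hq1⟩ := hall
      have hq0 := (h q (Nat.zero_le _) (by omega)).resolve_right hq1
      obtain ⟨l, hl, hlh⟩ := hφ (φ[q]) (List.getElem_mem hq)
      obtain ⟨t, ht, htS⟩ := hCB l (Nat.zero_le _)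
        (lt_of_lt_of_le (lt_bound (List.getElem_mem hq) hl) hn) hlh
      refine ⟨(q, 0) :: t, mem_terms.2 (Or.inl ⟨q, φ[q], List.getElem?_eq_getElem hq, l, hl, t,
        ht, rfl⟩), ?_⟩
      intro x hx
      rcases List.mem_cons.1 hx with rfl | hx
      · exact hq0
      · exact htS x hx
  | succ k ih =>
    intro S hk hCB h
    have key : ∀ p q : Fin 4, p = 0 ∨ p = 1 →
        AG (terms s φ) k (insert (k, q) (insert (k, p) S)) := by
      intro p q hp
      refine ih _ (by omega) ?_ ?_
      · intro l hl1 hl2 hl3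
        obtain ⟨t, ht, htS⟩ := hCB l hl1 hl2 hl3
        exact ⟨t, ht, fun x hx => mem_insert_of_mem (mem_insert_of_mem (htS x hx))⟩
      · intro j hj1 hj2
        rcases Nat.lt_or_ge k j with h1 | h1
        · rcases h j (by omega) hj2 with h2 | h2
          · exact Or.inl (mem_insert_of_mem (mem_insert_of_mem h2))
          · exact Or.inr (mem_insert_of_mem (mem_insert_of_mem h2))
        · obtain rfl : j = k := by omega
          rcases hp with rfl | rfl
          · exact Or.inl (mem_insert_of_mem (mem_insert_self _ _))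
          · exact Or.inr (mem_insert_of_mem (mem_insert_self _ _))
    exact ⟨0, 1, 2, 3, by decide, key _ _ (Or.inl rfl), key _ _ (Or.inl rfl),
      key _ _ (Or.inr rfl), key _ _ (Or.inr rfl)⟩

theorem holds_univ {α β : ℕ → Bool} {l : Lit} (h : l.1 = true) (h' : Lit.Holds α β l) :
    l.2.1 = β l.2.2 := by
  unfold Lit.Holds at h'
  rw [if_pos h] at h'
  exact h'.symm

theorem holds_ex {α β : ℕ → Bool} {l : Lit} (h : l.1 = false) (h' : Lit.Holds α β l) :
    l.2.1 = α l.2.2 := by
  unfold Lit.Holds at h'
  rw [if_neg (by simp [h])] at h'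
  exact h'.symm

/-- From the formula to the abstract game. -/
theorem ofAlt (hn : φ.bound ≤ n₀) (hlen : φ.length ≤ s) : ∀ (n : ℕ) (S : Finset (ℕ × Fin 4))
    (α β : ℕ → Bool), n ≤ n₀ → CB s n₀ n S α β → Alt φ.Holds n α β →
    AG (terms s φ) (s + 2 * n) S := by
  intro n
  induction n with
  | zero =>
    intro S α β _ hCB h
    refine select' hn hlen h s S le_rfl hCB ?_
    intro j hj1 hj2; omega
  | succ n ih =>
    intro S α β hnn hCB ⟨v, h⟩
    -- the window of the universal variable
    have univ_step : ∀ S' : Finset (ℕ × Fin 4), S ⊆ S' →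
        (∃ t ∈ pat v, ∀ x ∈ t, (s + 2 * n + 1, x) ∈ S') →
        AG (terms s φ) (s + 2 * n + 1) S' := by
      intro S' hSS' hpat
      have key : ∀ p q : Fin 4, p = 0 ∨ p = 1 →
          AG (terms s φ) (s + 2 * n) (insert (s + 2 * n, q) (insert (s + 2 * n, p) S')) := by
        intro p q hp
        refine ih _ _ _ (by omega) ?_ (h (decide (p = 0)))
        intro l hl1 hl2 hl3
        rcases Nat.lt_or_ge n l.2.2 with h1 | h1
        · obtain ⟨t, ht, htS⟩ := hCB l (by omega) hl2 (by
            unfold Lit.Holds at hl3 ⊢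
            rw [Function.update_of_ne (by omega), Function.update_of_ne (by omega)] at hl3
            exact hl3)
          exact ⟨t, ht, fun x hx => mem_insert_of_mem (mem_insert_of_mem (hSS' (htS x hx)))⟩
        · obtain hln : l.2.2 = n := by omega
          rcases hb : l.1 with _ | _
          · have hs := holds_ex hb hl3
            rw [hln, Function.update_self] at hs
            obtain ⟨t, ht, htS⟩ := hpat
            refine ⟨t.map fun x => (s + 2 * n + 1, x), ?_, ?_⟩
            · rw [litTerms_ex hb, hs, hln]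
              exact List.mem_map.2 ⟨t, ht, rfl⟩
            · intro x hx
              rw [List.mem_map] at hx
              obtain ⟨y, hy, rfl⟩ := hx
              exact mem_insert_of_mem (mem_insert_of_mem (htS y hy))
          · have hs := holds_univ hb hl3
            rw [hln, Function.update_self] at hs
            refine ⟨[(s + 2 * n, p)], ?_, ?_⟩
            · rw [litTerms_univ hb, hs, hln, List.mem_singleton]
              rcases hp with rfl | rfl <;> simp
            · intro x hx
              rw [List.mem_singleton] at hx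
              subst hx
              exact mem_insert_of_mem (mem_insert_self _ _)
      exact ⟨0, 1, 2, 3, by decide, key _ _ (Or.inl rfl), key _ _ (Or.inl rfl),
        key _ _ (Or.inr rfl), key _ _ (Or.inr rfl)⟩
    -- the window of the existential variable
    have ex_step : ∀ p q : Fin 4, (∃ t ∈ pat v, ∀ x ∈ t, x = p ∨ x = q) →
        AG (terms s φ) (s + 2 * n + 1)
          (insert (s + 2 * n + 1, q) (insert (s + 2 * n + 1, p) S)) := by
      rintro p q ⟨t, ht, htx⟩
      refine univ_step _ (fun x hx => mem_insert_of_mem (mem_insert_of_mem hx)) ⟨t, ht, ?_⟩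
      intro x hx
      rcases htx x hx with rfl | rfl
      · exact mem_insert_of_mem (mem_insert_self _ _)
      · exact mem_insert_self _ _
    show AG (terms s φ) ((s + 2 * n + 1) + 1) S
    rcases v with _ | _
    · refine ⟨0, 2, 1, 3, by decide, ex_step _ _ ?_, ex_step _ _ ?_, ex_step _ _ ?_,
        ex_step _ _ ?_⟩
      · exact ⟨[0, 1], by simp [pat], by simp⟩
      · exact ⟨[0, 3], by simp [pat], by simp⟩
      · exact ⟨[2, 1], by simp [pat], by simp⟩
      · exact ⟨[2, 3], by simp [pat], by simp⟩
    · refine ⟨0, 1, 2, 3, by decide, ex_step _ _ ?_, ex_step _ _ ?_, ex_step _ _ ?_,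
        ex_step _ _ ?_⟩
      · exact ⟨[0, 2], by simp [pat], by simp⟩
      · exact ⟨[0, 3], by simp [pat], by simp⟩
      · exact ⟨[1, 2], by simp [pat], by simp⟩
      · exact ⟨[1, 3], by simp [pat], by simp⟩

/-- The abstract game of a formula is won by Waiter iff the formula is true. -/
theorem AG_iff (hn : φ.bound ≤ n₀) (hlen : φ.length ≤ s) :
    AG (terms s φ) (s + 2 * n₀) ∅ ↔ φ.IsTrue := by
  rw [isTrue_iff hn]
  constructor
  · intro h
    refine toAlt hn hlen n₀ ∅ _ _ le_rfl (by simp) ?_ h
    intro l h1 h2; omega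
  · intro h
    refine ofAlt hn hlen n₀ ∅ _ _ le_rfl ?_ h
    intro l h1 h2; omega

theorem terms_ne_nil : terms s φ ≠ [] := by
  unfold terms; simp

theorem window_lt (hn : φ.bound ≤ n₀) (hlen : φ.length ≤ s) :
    ∀ t ∈ terms s φ, ∀ x ∈ t, x.1 < s + 2 * n₀ := by
  intro t ht x hx
  rcases mem_terms.1 ht with ⟨q, C, hC, l, hl, t', ht', rfl⟩ | rfl
  · have hql := (List.getElem?_eq_some_iff.1 hC).1
    have hlb := lt_bound (List.mem_of_getElem? hC) hl
    rcases List.mem_cons.1 hx with rfl | hx
    · simp only; omega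
    · have := window_of_mem_litTerms ht' hx
      split_ifs at this <;> omega
  · rw [List.mem_map] at hx
    obtain ⟨q, hq, rfl⟩ := hx
    have := List.mem_range.1 hq
    simp only; omega

end toFormula

end Pool.Agent.Lib.MP_c85d9c_lc
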