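import Pool.Agent.Lib.MP_c85d9c_lc.Main
import Pool.Agent.Lib.MP_c85d9c_lc.Terms

/-!
# Renaming the vertices by binary words
-/

namespace Pool.Agent.Lib.MP_c85d9c_lc

open Finset

theorem wins_image_of {V V' : Type} [DecidableEq V] [DecidableEq V'] {g : V → V'}
    (hg : Function.Injective g) {E : Finset (Finset V)} {U W : Finset V}
    (h : WaiterWins E U W) : WaiterWins (E.image (image g)) (U.image g) (W.image g) := by
  have base : ∀ {W : Finset V}, (∃ e ∈ E, e ⊆ W) → ∃ e ∈ E.image (image g), e ⊆ W.image g := by
    rintro W ⟨e, he, heW⟩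
    exact ⟨e.image g, mem_image_of_mem _ he, image_subset_image heW⟩
  induction h with
  | finished h => rw [image_empty]; exact WaiterWins.finished (base h)
  | last h => rw [image_singleton]; exact WaiterWins.last (base h)
  | @offer U W u v hu hv huv h₁ h₂ ih₁ ih₂ =>
    have e1 : ∀ U : Finset V, (U \ {u, v}).image g = U.image g \ {g u, g v} := by
      intro U
      rw [image_sdiff _ _ hg, image_insert, image_singleton]
    rw [e1, image_insert] at ih₁ ih₂
    exact WaiterWins.offer (mem_image_of_mem _ hu) (mem_image_of_mem _ hv)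
      (fun h => huv (hg h)) ih₁ ih₂

theorem wins_of_image {V V' : Type} [DecidableEq V] [DecidableEq V'] {g : V → V'}
    (hg : Function.Injective g) {E : Finset (Finset V)} {U' W' : Finset V'}
    (h : WaiterWins (E.image (image g)) U' W') : ∀ {U W : Finset V}, U' = U.image g →
    W' = W.image g → WaiterWins E U W := by
  have base : ∀ {W : Finset V}, (∃ e ∈ E.image (image g), e ⊆ W.image g) → ∃ e ∈ E, e ⊆ W := by
    rintro W ⟨e, he, heW⟩
    rw [mem_image] at he
    obtain ⟨e, he, rfl⟩ := he
    exact ⟨e, he, (image_subset_image_iff hg).1 heW⟩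
  induction h with
  | finished h =>
    rintro U W hU rfl
    exact wins_of_owned (base h) U
  | last h =>
    rintro U W hU rfl
    exact wins_of_owned (base h) U
  | @offer U' W' u' v' hu hv huv h₁ h₂ ih₁ ih₂ =>
    rintro U W rfl rfl
    rw [mem_image] at hu hv
    obtain ⟨u, hu, rfl⟩ := hu
    obtain ⟨v, hv, rfl⟩ := hv
    have e1 : U.image g \ {g u, g v} = (U \ {u, v}).image g := by
      rw [image_sdiff _ _ hg, image_insert, image_singleton]
    exact WaiterWins.offer hu hv (fun h => huv (by rw [h]))
      (ih₁ e1 (image_insert _ _ _).symm) (ih₂ e1 (image_insert _ _ _).symm)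

theorem wins_image {V V' : Type} [DecidableEq V] [DecidableEq V'] {g : V → V'}
    (hg : Function.Injective g) {E : Finset (Finset V)} {U W : Finset V} :
    WaiterWins (E.image (image g)) (U.image g) (W.image g) ↔ WaiterWins E U W :=
  ⟨fun h => wins_of_image hg h rfl rfl, wins_image_of hg⟩

/-- The code of a vertex. -/
def code : Vx → ℕ × ℕ × ℕ
  | Vx.bas j t => (t.val, j, 0)
  | Vx.com j s i => (18 + s.val, j, i)
  | Vx.zed s i => (22 + s.val, 0, i)
  | Vx.zc s => (26 + s.val, 0, 0)
  | Vx.fil l i => (31 + l.val, 0, i)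

theorem code_injective : Function.Injective code := by
  intro x y h
  cases x <;> cases y <;> simp only [code, Prod.mk.injEq] at h
  all_goals first
    | (exfalso; omega)
    | (obtain ⟨h1, h2, h3⟩ := h
       congr 1 <;> first | exact Fin.ext (by omega) | omega)

/-- The word `1^a 0 1^b 0 1^c`. -/
def word (c : ℕ × ℕ × ℕ) : List Bool :=
  List.replicate c.1 true ++ false :: (List.replicate c.2.1 true ++
    false :: List.replicate c.2.2 true)

theorem replicate_inj {a b : ℕ} {l l' : List Bool}
    (h : List.replicate a true ++ false :: l = List.replicate b true ++ false :: l') :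
    a = b ∧ l = l' := by
  induction a generalizing b with
  | zero =>
    rcases b with _ | b
    · simpa using h
    · simp [List.replicate_succ] at h
  | succ a ih =>
    rcases b with _ | b
    · simp [List.replicate_succ] at h
    · simp only [List.replicate_succ, List.cons_append, List.cons.injEq, true_and] at h
      obtain ⟨h1, h2⟩ := ih h
      exact ⟨by omega, h2⟩

theorem word_injective : Function.Injective word := by
  rintro ⟨a, b, c⟩ ⟨a', b', c'⟩ h
  unfold word at h
  obtain ⟨h1, h2⟩ := replicate_inj h
  obtain ⟨h3, h4⟩ := replicate_inj h2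
  have h5 := congrArg List.length h4
  simp only [List.length_replicate] at h1 h3 h5
  rw [h1, h3, h5]

/-- The name of a vertex. -/
def nm (x : Vx) : List Bool := word (code x)

theorem nm_injective : Function.Injective nm := word_injective.comp code_injective

/-- The hypergraph of a formula, with parameters `s` (at least the number of clauses) and `n` (at
least the number of variables of each kind). -/
def hyp (s n : ℕ) (φ : Formula) : Hyp :=
  (edgesL (s + 2 * n) (terms s φ)).map (List.map nm)

theorem hyp_iff {s n : ℕ} {φ : Formula} (hn : φ.bound ≤ n) (hlen : φ.length ≤ s) :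
    (hyp s n φ).IsWaiterWin ↔ φ.IsTrue := by
  rw [← AG_iff hn hlen, ← game_iff terms_ne_nil (window_lt hn hlen), ← wins_image nm_injective]
  unfold Hyp.IsWaiterWin
  have e1 : (hyp s n φ).edges = (EE (s + 2 * n) (terms s φ)).image (image nm) := by
    unfold Hyp.edges hyp EE
    ext e
    simp only [List.mem_toFinset, List.mem_map, mem_image]
    constructor
    · rintro ⟨_, ⟨e', he', rfl⟩, rfl⟩
      exact ⟨e'.toFinset, ⟨e', he', rfl⟩, by ext; simp⟩
    · rintro ⟨_, ⟨e', he', rfl⟩, rfl⟩
      exact ⟨e'.map nm, ⟨e', he', rfl⟩, by ext; simp⟩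
  have e2 : (hyp s n φ).vertices = (VV (s + 2 * n) (terms s φ)).image nm := by
    unfold Hyp.vertices hyp VV
    ext x
    simp only [List.mem_toFinset, List.mem_flatten, List.mem_map, mem_image]
    constructor
    · rintro ⟨_, ⟨e', he', rfl⟩, hx⟩
      rw [List.mem_map] at hx
      obtain ⟨y, hy, rfl⟩ := hx
      exact ⟨y, ⟨e', he', hy⟩, rfl⟩
    · rintro ⟨y, ⟨e', he', hy⟩, rfl⟩
      exact ⟨e'.map nm, ⟨e', he', rfl⟩, List.mem_map.2 ⟨y, hy, rfl⟩⟩
  rw [e1, e2, image_empty]

end Pool.Agent.Lib.MP_c85d9c_lc
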