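import Pool.Agent.Lib.MP_c85d9c_lc.Spec
import Pool.Agent.Lib.MP_c85d9c_lc.Names

/-!
# The reduction is computable in polynomial time
-/

namespace Pool.Agent.Lib.MP_c85d9c_lc

open Function

/-- The counters of the program. -/
inductive Rg
  | L | N | J | K | I | Q | V
  deriving DecidableEq

instance : Fintype Rg :=
  ⟨{Rg.L, Rg.N, Rg.J, Rg.K, Rg.I, Rg.Q, Rg.V}, fun x => by cases x <;> simp⟩

/-- The values of the counters. -/
def rg (l n j k i q v : ℕ) : Rg → ℕ
  | Rg.L => l
  | Rg.N => n
  | Rg.J => j
  | Rg.K => k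
  | Rg.I => i
  | Rg.Q => q
  | Rg.V => v

section

variable {l n j k i q v x : ℕ}

theorem rg_L : update (rg l n j k i q v) Rg.L x = rg x n j k i q v := by
  funext r; cases r <;> rfl
theorem rg_N : update (rg l n j k i q v) Rg.N x = rg l x j k i q v := by
  funext r; cases r <;> rfl
theorem rg_J : update (rg l n j k i q v) Rg.J x = rg l n x k i q v := by
  funext r; cases r <;> rfl
theorem rg_K : update (rg l n j k i q v) Rg.K x = rg l n j x i q v := by
  funext r; cases r <;> rfl
theorem rg_I : update (rg l n j k i q v) Rg.I x = rg l n j k x q v := by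
  funext r; cases r <;> rfl
theorem rg_Q : update (rg l n j k i q v) Rg.Q x = rg l n j k i x v := by
  funext r; cases r <;> rfl
theorem rg_V : update (rg l n j k i q v) Rg.V x = rg l n j k i q x := by
  funext r; cases r <;> rfl

end

open Cmd

/-- The programs. -/
abbrev Prog := Cmd Sym Rg

/-- Print the value of a counter in unary. -/
def pr (r : Rg) : Prog := each (some r) fun _ => out (Sym.bit true)

/-- Print the encoding of the vertex with the name `word (a, b, c)`, where `b` is `b'` plus the sum
of the counters in `bs` and `c` is the sum of the counters in `cs`. -/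
def vtx (a : ℕ) (bs : List Rg) (b' : ℕ) (cs : List Rg) : Prog :=
  seq (outs (Sym.vert :: (List.replicate a (Sym.bit true) ++ [Sym.bit false])))
    (seq (seqs (bs.map pr)) (seq (outs (List.replicate b' (Sym.bit true) ++ [Sym.bit false]))
      (seqs (cs.map pr))))

variable {inp : List Sym}

theorem spec_pr {ρ : Rg → ℕ} (r : Rg) {B : ℕ} (hB : ρ r ≤ B) :
    Spec inp (pr r) ρ ρ (List.replicate (ρ r) (Sym.bit true)) (3 * (B + 1)) := by
  have := Spec.for (inp := inp) (r := r) (f := fun _ => out (Sym.bit true)) (σ := fun _ => ρ)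
    (w := fun _ => [Sym.bit true]) (t := 1) (n := ρ r) rfl (fun i _ => Spec.out _)
  have e : ((List.range (ρ r)).flatMap fun _ => [Sym.bit true]) =
      List.replicate (ρ r) (Sym.bit true) := by
    rw [List.eq_replicate_iff]
    constructor
    · simp
    · intro b hb
      rw [List.mem_flatMap] at hb
      obtain ⟨_, _, hb⟩ := hb
      exact List.mem_singleton.1 hb
  rw [e] at this
  exact this.mono (by omega)

theorem flatMap_replicate (bs : List Rg) (ρ : Rg → ℕ) (a : Sym) :
    (bs.flatMap fun r => List.replicate (ρ r) a) = List.replicate (bs.map ρ).sum a := by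
  induction bs with
  | nil => rfl
  | cons b bs ih =>
    rw [List.flatMap_cons, ih, List.map_cons, List.sum_cons, List.replicate_add]

theorem spec_vtx {ρ : Rg → ℕ} (a : ℕ) (bs : List Rg) (b' : ℕ) (cs : List Rg) {B : ℕ}
    (hB : ∀ r, ρ r ≤ B) :
    Spec inp (vtx a bs b' cs) ρ ρ (encV (word (a, (bs.map ρ).sum + b', (cs.map ρ).sum)))
      ((a + b' + 3 * bs.length + 3 * cs.length + 10) * (B + 1)) := by
  have h1 := Spec.outs (inp := inp) (ρ := ρ)
    (Sym.vert :: (List.replicate a (Sym.bit true) ++ [Sym.bit false]))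
  have h2 := Spec.seqs (inp := inp) (ρ := ρ) (t := 3 * (B + 1)) pr
    (fun r => List.replicate (ρ r) (Sym.bit true)) bs (fun r _ => spec_pr r (hB r))
  have h3 := Spec.outs (inp := inp) (ρ := ρ)
    (List.replicate b' (Sym.bit true) ++ [Sym.bit false])
  have h4 := Spec.seqs (inp := inp) (ρ := ρ) (t := 3 * (B + 1)) pr
    (fun r => List.replicate (ρ r) (Sym.bit true)) cs (fun r _ => spec_pr r (hB r))
  have h := h1.seq (h2.seq (h3.seq h4))
  rw [flatMap_replicate, flatMap_replicate] at h
  have e : Sym.vert :: (List.replicate a (Sym.bit true) ++ [Sym.bit false]) ++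
      (List.replicate (bs.map ρ).sum (Sym.bit true) ++
        (List.replicate b' (Sym.bit true) ++ [Sym.bit false] ++
          List.replicate (cs.map ρ).sum (Sym.bit true))) =
      encV (word (a, (bs.map ρ).sum + b', (cs.map ρ).sum)) := by
    unfold encV word
    simp only [List.map_append, List.map_replicate, List.map_cons, List.cons_append,
      List.append_assoc, List.nil_append, List.replicate_add]
  rw [e] at h
  refine h.mono ?_
  simp only [List.length_cons, List.length_append, List.length_replicate, List.length_nil]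
  nlinarith [Nat.zero_le B, Nat.zero_le (a * B), Nat.zero_le (b' * B)]

theorem spec_vtx' {ρ : Rg → ℕ} (a : ℕ) (bs : List Rg) (b' : ℕ) (cs : List Rg) {B : ℕ}
    (hB : ∀ r, ρ r ≤ B) (h : a + b' + 3 * bs.length + 3 * cs.length + 10 ≤ 60) :
    Spec inp (vtx a bs b' cs) ρ ρ (encV (word (a, (bs.map ρ).sum + b', (cs.map ρ).sum)))
      (60 * (B + 1)) :=
  (spec_vtx a bs b' cs hB).mono (Nat.mul_le_mul_right _ h)

theorem rg_le {l n j k i q v B : ℕ} (h1 : l ≤ B) (h2 : n ≤ B) (h3 : j ≤ B) (h4 : k ≤ B)
    (h5 : i ≤ B) (h6 : q ≤ B) (h7 : v ≤ B) : ∀ r, rg l n j k i q v r ≤ B := by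
  intro r; cases r <;> assumption

/-- The encoding of a vertex of the reduction. -/
def encX (x : Vx) : List Sym := encV (nm x)

/-- The encoding of an edge of the reduction. -/
def encY (e : List Vx) : List Sym := encE (e.map nm)

theorem encY_eq (e : List Vx) : encY e = Sym.edge :: e.flatMap encX := by
  unfold encY encE encX
  rw [List.flatMap_map]

/-- Print the encoding of the core. -/
def coreP : Prog :=
  seq (each (some Rg.N) fun _ =>
      seq (seqs ((List.finRange 4).map fun s => vtx (22 + s.val) [] 0 [Rg.I])) (Cmd.inc Rg.I))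
    (seq (clr Rg.I) (seqs ((List.finRange 5).map fun s => vtx (26 + s.val) [] 0 [])))

theorem spec_core {l n j k q v B : ℕ} (h1 : l ≤ B) (h2 : n ≤ B) (h3 : j ≤ B) (h4 : k ≤ B)
    (h6 : q ≤ B) (h7 : v ≤ B) :
    Spec inp coreP (rg l n j k 0 q v) (rg l n j k 0 q v) ((coreL n).flatMap encX)
      (600 * (B + 1) ^ 2) := by
  have hloop := Spec.for (inp := inp) (r := Rg.N) (f := fun _ =>
      seq (seqs ((List.finRange 4).map fun s => vtx (22 + s.val) [] 0 [Rg.I])) (Cmd.inc Rg.I))
    (σ := fun i => rg l n j k i q v)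
    (w := fun i => [Vx.zed 0 i, Vx.zed 1 i, Vx.zed 2 i, Vx.zed 3 i].flatMap encX)
    (t := 250 * (B + 1)) (n := n) rfl (by
      intro i hi
      have hB := rg_le h1 h2 h3 h4 (show i ≤ B by omega) h6 h7
      have hs := Spec.seqs (inp := inp) (ρ := rg l n j k i q v) (t := 60 * (B + 1))
        (fun s : Fin 4 => vtx (22 + s.val) [] 0 [Rg.I])
        (fun s : Fin 4 => encX (Vx.zed s i)) (List.finRange 4) (by
          intro s _
          have := spec_vtx' (inp := inp) (22 + s.val) [] 0 [Rg.I] hB (by simp; omega)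
          exact this)
      have hi := (Spec.inc (inp := inp) (ρ := rg l n j k i q v) Rg.I)
      rw [rg_I] at hi
      have := hs.seq hi
      rw [List.append_nil] at this
      refine this.mono ?_
      simp only [List.length_finRange]
      omega)
  have hc := Spec.clr (inp := inp) (ρ := rg l n j k n q v) Rg.I
  rw [rg_I] at hc
  have hB := rg_le h1 h2 h3 h4 (Nat.zero_le B) h6 h7
  have hz := Spec.seqs (inp := inp) (ρ := rg l n j k 0 q v) (t := 60 * (B + 1))
    (fun s : Fin 5 => vtx (26 + s.val) [] 0 []) (fun s : Fin 5 => encX (Vx.zc s))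
    (List.finRange 5) (by
      intro s _
      have := spec_vtx' (inp := inp) (26 + s.val) [] 0 [] hB (by simp; omega)
      exact this)
  have h := hloop.seq (hc.seq hz)
  have e : (List.range n).flatMap
      (fun i => [Vx.zed 0 i, Vx.zed 1 i, Vx.zed 2 i, Vx.zed 3 i].flatMap encX) ++
      ([] ++ (List.finRange 5).flatMap (fun s : Fin 5 => encX (Vx.zc s))) =
      (coreL n).flatMap encX := by
    unfold coreL
    rw [List.flatMap_append, List.flatMap_assoc, List.flatMap_map, List.nil_append]
  rw [e] at h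
  refine h.mono ?_
  simp only [List.length_finRange]
  show n * (250 * (B + 1) + 1) + (n + 2) + (n + 1 + (5 * (60 * (B + 1)) + 1)) ≤ _
  nlinarith [Nat.mul_le_mul_right (B + 1) h2]

/-- Print the encodings of the edges of a window. -/
def winP : Prog :=
  seqs ((List.finRange 7).map fun κ =>
    seq (out Sym.edge) (seq (seqs ((tags κ).map fun t => vtx t.val [Rg.J] 0 []))
      (seq (each (some Rg.K) fun _ =>
          seq (seqs ((List.finRange 4).map fun s => vtx (18 + s.val) [Rg.J] 0 [Rg.I]))
            (Cmd.inc Rg.I))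
        (clr Rg.I))))

theorem spec_win {l n j q v B : ℕ} (h1 : l ≤ B) (h2 : n ≤ B) (h3 : j ≤ B)
    (h6 : q ≤ B) (h7 : v ≤ B) :
    Spec inp winP (rg l n j j 0 q v) (rg l n j j 0 q v)
      (((List.finRange 7).map (winL j)).flatMap encY) (20000 * (B + 1) ^ 2) := by
  have hB := rg_le h1 h2 h3 h3 (Nat.zero_le B) h6 h7
  have hloop := Spec.for (inp := inp) (r := Rg.K) (f := fun _ =>
      seq (seqs ((List.finRange 4).map fun s => vtx (18 + s.val) [Rg.J] 0 [Rg.I])) (Cmd.inc Rg.I))
    (σ := fun i => rg l n j j i q v)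
    (w := fun i => [Vx.com j 0 i, Vx.com j 1 i, Vx.com j 2 i, Vx.com j 3 i].flatMap encX)
    (t := 250 * (B + 1)) (n := j) rfl (by
      intro i hi
      have hB := rg_le h1 h2 h3 h3 (show i ≤ B by omega) h6 h7
      have hs := Spec.seqs (inp := inp) (ρ := rg l n j j i q v) (t := 60 * (B + 1))
        (fun s : Fin 4 => vtx (18 + s.val) [Rg.J] 0 [Rg.I])
        (fun s : Fin 4 => encX (Vx.com j s i)) (List.finRange 4) (by
          intro s _
          have := spec_vtx' (inp := inp) (18 + s.val) [Rg.J] 0 [Rg.I] hB (by simp; omega)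
          exact this)
      have hi := (Spec.inc (inp := inp) (ρ := rg l n j j i q v) Rg.I)
      rw [rg_I] at hi
      have := hs.seq hi
      rw [List.append_nil] at this
      refine this.mono ?_
      simp only [List.length_finRange]
      omega)
  have hc := Spec.clr (inp := inp) (ρ := rg l n j j j q v) Rg.I
  rw [rg_I] at hc
  have hκ : ∀ κ : Fin 7, Spec inp (seq (out Sym.edge)
      (seq (seqs ((tags κ).map fun t => vtx t.val [Rg.J] 0 []))
      (seq (each (some Rg.K) fun _ =>
          seq (seqs ((List.finRange 4).map fun s => vtx (18 + s.val) [Rg.J] 0 [Rg.I]))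
            (Cmd.inc Rg.I))
        (clr Rg.I)))) (rg l n j j 0 q v) (rg l n j j 0 q v) (encY (winL j κ))
        (2500 * (B + 1) ^ 2) := by
    intro κ
    have ht := Spec.seqs (inp := inp) (ρ := rg l n j j 0 q v) (t := 60 * (B + 1))
      (fun t : Fin 18 => vtx t.val [Rg.J] 0 []) (fun t : Fin 18 => encX (Vx.bas j t))
      (tags κ) (by
        intro t _
        have := spec_vtx' (inp := inp) t.val [Rg.J] 0 [] hB (by simp; omega)
        exact this)
    have h := (Spec.out (inp := inp) (ρ := rg l n j j 0 q v) Sym.edge).seq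
      (ht.seq (hloop.seq hc))
    have e : [Sym.edge] ++ ((tags κ).flatMap (fun t : Fin 18 => encX (Vx.bas j t)) ++
        ((List.range j).flatMap
          (fun i => [Vx.com j 0 i, Vx.com j 1 i, Vx.com j 2 i, Vx.com j 3 i].flatMap encX) ++
          [])) = encY (winL j κ) := by
      rw [encY_eq]
      unfold winL pad
      rw [List.flatMap_append, List.flatMap_assoc, List.flatMap_map, List.append_nil]
      rfl
    rw [e] at h
    refine h.mono ?_
    have hlen : (tags κ).length ≤ 18 := by
      unfold tags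
      refine (List.length_filter_le _ _).trans ?_
      simp
    show 1 + ((tags κ).length * (60 * (B + 1)) + 1 + (j * (250 * (B + 1) + 1) + (j + 2) +
      (j + 1))) ≤ _
    have h8 : (tags κ).length * (60 * (B + 1)) ≤ 18 * (60 * (B + 1)) :=
      Nat.mul_le_mul_right _ hlen
    nlinarith [Nat.mul_le_mul_right (B + 1) h3]
  have h := Spec.seqs (inp := inp) (ρ := rg l n j j 0 q v) (t := 2500 * (B + 1) ^ 2) _
    (fun κ => encY (winL j κ)) (List.finRange 7) (fun κ _ => hκ κ)
  rw [List.flatMap_map]
  refine h.mono ?_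
  simp only [List.length_finRange]
  nlinarith [Nat.zero_le B]

/-- Print the encodings of all the windows. -/
def winsP : Prog := each (some Rg.N) fun _ => seq winP (seq (Cmd.inc Rg.J) (Cmd.inc Rg.K))

theorem spec_wins {l n q v B : ℕ} (h1 : l ≤ B) (h2 : n ≤ B) (h6 : q ≤ B) (h7 : v ≤ B) :
    Spec inp winsP (rg l n 0 0 0 q v) (rg l n n n 0 q v)
      (((List.range n).flatMap fun j => (List.finRange 7).map (winL j)).flatMap encY)
      (20010 * (B + 1) ^ 3) := by
  have h := Spec.for (inp := inp) (r := Rg.N)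
    (f := fun _ => seq winP (seq (Cmd.inc Rg.J) (Cmd.inc Rg.K)))
    (σ := fun j => rg l n j j 0 q v)
    (w := fun j => ((List.finRange 7).map (winL j)).flatMap encY)
    (t := 20002 * (B + 1) ^ 2) (n := n) rfl (by
      intro j hj
      have hw := spec_win (inp := inp) h1 h2 (show j ≤ B by omega) h6 h7
      have hj := Spec.inc (inp := inp) (ρ := rg l n j j 0 q v) Rg.J
      rw [rg_J] at hj
      have hk := Spec.inc (inp := inp) (ρ := rg l n (j + 1) j 0 q v) Rg.K
      rw [rg_K] at hk
      have := hw.seq (hj.seq hk)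
      rw [List.append_nil, List.append_nil] at this
      refine this.mono ?_
      nlinarith [Nat.zero_le B])
  rw [List.flatMap_assoc]
  refine h.mono ?_
  have h3 : n * (20002 * (B + 1) ^ 2) ≤ B * (20002 * (B + 1) ^ 2) := Nat.mul_le_mul_right _ h2
  have h4 : B + 1 ≤ (B + 1) ^ 3 := Nat.le_self_pow (by norm_num) _
  calc n * (20002 * (B + 1) ^ 2 + 1) + (n + 2) = n * (20002 * (B + 1) ^ 2) + 2 * n + 2 := by ring
    _ ≤ B * (20002 * (B + 1) ^ 2) + 2 * (B + 1) := by omega
    _ ≤ (B + 1) * (20002 * (B + 1) ^ 2) + 2 * (B + 1) ^ 3 := by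
        have := Nat.mul_le_mul_right (20002 * (B + 1) ^ 2) (Nat.le_succ B)
        have h5 : B.succ = B + 1 := rfl
        rw [h5] at this
        omega
    _ ≤ 20010 * (B + 1) ^ 3 := by ring_nf; omega

end Pool.Agent.Lib.MP_c85d9c_lc
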