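import Pool.Agent.Lib.MP_c85d9c_lc.Reduce

/-!
# The reduction is computable in polynomial time, continued
-/

namespace Pool.Agent.Lib.MP_c85d9c_lc

open Function Cmd

variable {inp : List Sym}

/-- The patterns of a literal. -/
def litPat (u b : Bool) : List (List (ℕ × Fin 4)) :=
  if u then [[(0, if b then 0 else 1)]] else (pat b).map fun p => p.map fun x => (1, x)

theorem litTerms_eq (s : ℕ) (l : Lit) : litTerms s l =
    (litPat l.1 l.2.1).map fun t => t.map fun x => (s + 2 * l.2.2 + x.1, x.2) := by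
  obtain ⟨u, b, i⟩ := l
  unfold litTerms litPat
  rcases u with _ | _ <;> rcases b with _ | _ <;> rfl

/-- Print the encoding of the edges of a literal of the clause `Q`. -/
def litP (u b : Bool) : Prog :=
  seqs ((litPat u b).map fun t => seq (out Sym.edge) (seq (vtx 0 [Rg.Q] 0 [])
    (seq (seqs (t.map fun x => vtx x.2.val [Rg.L, Rg.V, Rg.V] x.1 [])) coreP)))

/-- The edge of a term. -/
def edgeT (n : ℕ) (t : List (ℕ × Fin 4)) : List Vx := t.map (fun x => lv x.1 x.2) ++ coreL n

theorem spec_lit {l n j k q v B : ℕ} (h1 : l ≤ B) (h2 : n ≤ B) (h3 : j ≤ B) (h4 : k ≤ B)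
    (h6 : q ≤ B) (h7 : v ≤ B) (u b : Bool) :
    Spec inp (litP u b) (rg l n j k 0 q v) (rg l n j k 0 q v)
      (((litTerms l (u, b, v)).map fun t => (q, 0) :: t).flatMap fun t => encY (edgeT n t))
      (3200 * (B + 1) ^ 2) := by
  have hB := rg_le h1 h2 h3 h4 (Nat.zero_le B) h6 h7
  have hcore := spec_core (inp := inp) h1 h2 h3 h4 h6 h7
  have hq : Spec inp (vtx 0 [Rg.Q] 0 []) (rg l n j k 0 q v) (rg l n j k 0 q v)
      (encX (lv q 0)) (60 * (B + 1)) := by
    have := spec_vtx' (inp := inp) 0 [Rg.Q] 0 [] hB (by simp)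
    exact this
  have hlen : ∀ t ∈ litPat u b, t.length ≤ 2 ∧ ∀ x ∈ t, x.1 ≤ 1 := by
    unfold litPat
    revert u b
    decide
  have hlen2 : (litPat u b).length ≤ 4 := by
    unfold litPat
    revert u b
    decide
  have ht : ∀ t ∈ litPat u b, Spec inp (seq (out Sym.edge) (seq (vtx 0 [Rg.Q] 0 [])
      (seq (seqs (t.map fun x => vtx x.2.val [Rg.L, Rg.V, Rg.V] x.1 [])) coreP)))
      (rg l n j k 0 q v) (rg l n j k 0 q v)
      (encY (edgeT n ((q, 0) :: t.map fun x => (l + 2 * v + x.1, x.2))))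
      (790 * (B + 1) ^ 2) := by
    intro t htm
    have hx := Spec.seqs (inp := inp) (ρ := rg l n j k 0 q v) (t := 60 * (B + 1))
      (fun x : ℕ × Fin 4 => vtx x.2.val [Rg.L, Rg.V, Rg.V] x.1 [])
      (fun x : ℕ × Fin 4 => encX (lv (l + 2 * v + x.1) x.2)) t (by
        intro x hx
        have h8 := (hlen t htm).2 x hx
        have := spec_vtx' (inp := inp) x.2.val [Rg.L, Rg.V, Rg.V] x.1 [] hB (by simp; omega)
        have e : ([Rg.L, Rg.V, Rg.V].map (rg l n j k 0 q v)).sum + x.1 = l + 2 * v + x.1 := by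
          show l + (v + (v + 0)) + x.1 = _
          ring
        rw [e] at this
        exact this)
    have h := (Spec.out (inp := inp) (ρ := rg l n j k 0 q v) Sym.edge).seq
      (hq.seq (hx.seq hcore))
    have e : [Sym.edge] ++ (encX (lv q 0) ++
        (t.flatMap (fun x : ℕ × Fin 4 => encX (lv (l + 2 * v + x.1) x.2)) ++
          (coreL n).flatMap encX)) =
        encY (edgeT n ((q, 0) :: t.map fun x => (l + 2 * v + x.1, x.2))) := by
      rw [encY_eq]
      unfold edgeT
      rw [List.map_cons, List.flatMap_append, List.flatMap_cons, List.append_assoc, List.map_map,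
        List.flatMap_map]
      rfl
    rw [e] at h
    refine h.mono ?_
    have h9 : t.length * (60 * (B + 1)) ≤ 2 * (60 * (B + 1)) :=
      Nat.mul_le_mul_right _ (hlen t htm).1
    nlinarith [Nat.zero_le B]
  have h := Spec.seqs (inp := inp) (ρ := rg l n j k 0 q v) (t := 790 * (B + 1) ^ 2) _
    (fun t => encY (edgeT n ((q, 0) :: t.map fun x => (l + 2 * v + x.1, x.2)))) (litPat u b) ht
  have e : (((litTerms l (u, b, v)).map fun t => (q, (0 : Fin 4)) :: t).flatMap
      fun t => encY (edgeT n t)) = (litPat u b).flatMap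
      (fun t => encY (edgeT n ((q, 0) :: t.map fun x => (l + 2 * v + x.1, x.2)))) := by
    rw [litTerms_eq, List.map_map, List.flatMap_map]
    rfl
  rw [e]
  refine h.mono ?_
  have h9 : (litPat u b).length * (790 * (B + 1) ^ 2) ≤ 4 * (790 * (B + 1) ^ 2) :=
    Nat.mul_le_mul_right _ hlen2
  nlinarith [Nat.zero_le B]

/-- What the program does when it reads a symbol for the second time. -/
def readP : Sym → Prog
  | Sym.tick => Cmd.inc Rg.V
  | Sym.lit u b => seq (litP u b) (clr Rg.V)
  | Sym.stop => Cmd.inc Rg.Q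
  | _ => skip

theorem spec_ticks {l n j k q B : ℕ} : ∀ (m v : ℕ),
    SpecL inp readP (List.replicate m Sym.tick) (rg l n j k 0 q v) (rg l n j k 0 q (v + m)) []
      (3202 * (B + 1) ^ 2) := by
  intro m
  induction m with
  | zero => intro v; exact SpecL.nil
  | succ m ih =>
    intro v
    rw [List.replicate_succ]
    have h1 := Spec.inc (inp := inp) (ρ := rg l n j k 0 q v) Rg.V
    rw [rg_V] at h1
    have := SpecL.cons (f := readP) (a := Sym.tick) (h1.mono (t' := 3202 * (B + 1) ^ 2)
      (by nlinarith [Nat.zero_le B])) (ih (v + 1))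
    rw [show v + 1 + m = v + (m + 1) by ring] at this
    exact this

theorem spec_encL {l n j k q B : ℕ} (h1 : l ≤ B) (h2 : n ≤ B) (h3 : j ≤ B) (h4 : k ≤ B)
    (h6 : q ≤ B) (x : Lit) (hx : x.2.2 ≤ B) :
    SpecL inp readP (encL x) (rg l n j k 0 q 0) (rg l n j k 0 q 0)
      (((litTerms l x).map fun t => (q, 0) :: t).flatMap fun t => encY (edgeT n t))
      (3202 * (B + 1) ^ 2) := by
  obtain ⟨u, b, v⟩ := x
  unfold encL
  have ht := spec_ticks (inp := inp) (l := l) (n := n) (j := j) (k := k) (q := q) (B := B) v 0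
  rw [Nat.zero_add] at ht
  have hl := spec_lit (inp := inp) h1 h2 h3 h4 h6 (show v ≤ B from hx) u b
  have hc := Spec.clr (inp := inp) (ρ := rg l n j k 0 q v) Rg.V
  rw [rg_V] at hc
  have h := hl.seq hc
  rw [List.append_nil] at h
  have h' := SpecL.cons (f := readP) (a := Sym.lit u b) (h.mono (t' := 3202 * (B + 1) ^ 2) (by
    have : rg l n j k 0 q v Rg.V = v := rfl
    rw [this]
    have hv : v ≤ B := hx
    nlinarith [Nat.zero_le B])) SpecL.nil
  rw [List.append_nil] at h'
  have := ht.append h'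
  rw [List.nil_append] at this
  exact this

theorem spec_lits {l n j k q B : ℕ} (h1 : l ≤ B) (h2 : n ≤ B) (h3 : j ≤ B) (h4 : k ≤ B)
    (h6 : q ≤ B) : ∀ (C : List Lit) (_ : ∀ x ∈ C, x.2.2 ≤ B),
    SpecL inp readP (C.flatMap encL) (rg l n j k 0 q 0) (rg l n j k 0 q 0)
      ((C.flatMap fun x => (litTerms l x).map fun t => (q, 0) :: t).flatMap
        fun t => encY (edgeT n t))
      (3202 * (B + 1) ^ 2) := by
  intro C
  induction C with
  | nil => intro _; exact SpecL.nil
  | cons x C ih =>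
    intro h
    rw [List.flatMap_cons, List.flatMap_cons, List.flatMap_append]
    exact (spec_encL h1 h2 h3 h4 h6 x (h x (by simp))).append (ih fun y hy => h y (by simp [hy]))

theorem spec_encC {l n j k q B : ℕ} (h1 : l ≤ B) (h2 : n ≤ B) (h3 : j ≤ B) (h4 : k ≤ B)
    (h6 : q ≤ B) (C : List Lit) (h : ∀ x ∈ C, x.2.2 ≤ B) :
    SpecL inp readP (encC C) (rg l n j k 0 q 0) (rg l n j k 0 (q + 1) 0)
      ((C.flatMap fun x => (litTerms l x).map fun t => (q, 0) :: t).flatMap
        fun t => encY (edgeT n t))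
      (3202 * (B + 1) ^ 2) := by
  unfold encC
  have h5 := Spec.inc (inp := inp) (ρ := rg l n j k 0 q 0) Rg.Q
  rw [rg_Q] at h5
  have h' := SpecL.cons (f := readP) (a := Sym.stop) (h5.mono (t' := 3202 * (B + 1) ^ 2)
    (by nlinarith [Nat.zero_le B])) SpecL.nil
  have := (spec_lits h1 h2 h3 h4 h6 C h).append h'
  rw [List.append_nil, List.append_nil] at this
  exact this

theorem spec_read {l n j k B : ℕ} (h1 : l ≤ B) (h2 : n ≤ B) (h3 : j ≤ B) (h4 : k ≤ B) :
    ∀ (φ : Formula) (q : ℕ) (_ : q + φ.length ≤ B) (_ : ∀ C ∈ φ, ∀ x ∈ C, x.2.2 ≤ B),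
    SpecL inp readP (Formula.encode φ) (rg l n j k 0 q 0) (rg l n j k 0 (q + φ.length) 0)
      ((termsFrom l q φ).flatMap fun t => encY (edgeT n t)) (3202 * (B + 1) ^ 2) := by
  intro φ
  induction φ with
  | nil => intro q _ _; exact SpecL.nil
  | cons C φ ih =>
    intro q hq h
    rw [List.length_cons] at hq
    unfold Formula.encode termsFrom
    rw [List.flatMap_cons, List.flatMap_append, List.length_cons]
    have := (spec_encC (inp := inp) h1 h2 h3 h4 (show q ≤ B by omega) C (h C (by simp))).append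
      (ih (q + 1) (by omega) fun D hD => h D (by simp [hD]))
    rw [show q + 1 + φ.length = q + (φ.length + 1) by ring] at this
    exact this

/-- Print the encoding of the last edge. -/
def lastP : Prog :=
  seq (out Sym.edge) (seq (each (some Rg.Q) fun _ => seq (vtx 1 [Rg.I] 0 []) (Cmd.inc Rg.I))
    (seq (clr Rg.I) coreP))

theorem spec_last {l n j k q B : ℕ} (h1 : l ≤ B) (h2 : n ≤ B) (h3 : j ≤ B) (h4 : k ≤ B)
    (h6 : q ≤ B) :
    Spec inp lastP (rg l n j k 0 q 0) (rg l n j k 0 q 0)
      (encY (edgeT n ((List.range q).map fun q' => (q', 1)))) (700 * (B + 1) ^ 2) := by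
  have hloop := Spec.for (inp := inp) (r := Rg.Q)
    (f := fun _ => seq (vtx 1 [Rg.I] 0 []) (Cmd.inc Rg.I))
    (σ := fun i => rg l n j k i q 0) (w := fun i => encX (lv i 1))
    (t := 61 * (B + 1)) (n := q) rfl (by
      intro i hi
      have hB := rg_le h1 h2 h3 h4 (show i ≤ B by omega) h6 (Nat.zero_le B)
      have hs : Spec inp (vtx 1 [Rg.I] 0 []) (rg l n j k i q 0) (rg l n j k i q 0)
          (encX (lv i 1)) (60 * (B + 1)) := by
        have := spec_vtx' (inp := inp) 1 [Rg.I] 0 [] hB (by simp)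
        exact this
      have hi := (Spec.inc (inp := inp) (ρ := rg l n j k i q 0) Rg.I)
      rw [rg_I] at hi
      have := hs.seq hi
      rw [List.append_nil] at this
      refine this.mono ?_
      omega)
  have hc := Spec.clr (inp := inp) (ρ := rg l n j k q q 0) Rg.I
  rw [rg_I] at hc
  have hcore := spec_core (inp := inp) h1 h2 h3 h4 h6 (Nat.zero_le B)
  have h := (Spec.out (inp := inp) (ρ := rg l n j k 0 q 0) Sym.edge).seq
    (hloop.seq (hc.seq hcore))
  have e : [Sym.edge] ++ ((List.range q).flatMap (fun i => encX (lv i 1)) ++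
      ([] ++ (coreL n).flatMap encX)) =
      encY (edgeT n ((List.range q).map fun q' => (q', 1))) := by
    rw [encY_eq]
    unfold edgeT
    rw [List.flatMap_append, List.map_map, List.flatMap_map]
    rfl
  rw [e] at h
  refine h.mono ?_
  show 1 + (q * (61 * (B + 1) + 1) + (q + 2) + (q + 1 + 600 * (B + 1) ^ 2)) ≤ _
  nlinarith [Nat.mul_le_mul_right (B + 1) h6]

end Pool.Agent.Lib.MP_c85d9c_lc
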