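import Pool.Agent.Lib.MP_c85d9c_lc.Reduce2

/-!
# The reduction is computable in polynomial time, the end
-/

namespace Pool.Agent.Lib.MP_c85d9c_lc

open Function Cmd

variable {inp : List Sym}

/-- The encodings of the fillers. -/
def fillers : List Sym := ((List.finRange 5).map filL).flatMap encY

/-- What the program does when it reads a symbol for the first time. -/
def countP (_ : Sym) : Prog :=
  seq (Cmd.inc Rg.L) (seq (Cmd.inc Rg.N) (seq (Cmd.inc Rg.N) (Cmd.inc Rg.N)))

/-- The whole program. -/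
def prog : Prog :=
  seq (each none countP) (seq (outs fillers) (seq winsP (seq (each none readP) (seq lastP
    (seq (clr Rg.L) (seq (clr Rg.N) (seq (clr Rg.J) (seq (clr Rg.K) (clr Rg.Q)))))))))

theorem spec_count {j k i q v : ℕ} : ∀ (L : List Sym) (l n : ℕ),
    SpecL inp countP L (rg l n j k i q v) (rg (l + L.length) (n + 3 * L.length) j k i q v) []
      4 := by
  intro L
  induction L with
  | nil => intro l n; exact SpecL.nil
  | cons a L ih =>
    intro l n
    have h1 := Spec.inc (inp := inp) (ρ := rg l n j k i q v) Rg.L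
    rw [rg_L] at h1
    have h2 := Spec.inc (inp := inp) (ρ := rg (l + 1) n j k i q v) Rg.N
    rw [rg_N] at h2
    have h3 := Spec.inc (inp := inp) (ρ := rg (l + 1) (n + 1) j k i q v) Rg.N
    rw [rg_N] at h3
    have h4 := Spec.inc (inp := inp) (ρ := rg (l + 1) (n + 1 + 1) j k i q v) Rg.N
    rw [rg_N] at h4
    have := SpecL.cons (f := countP) (a := a) (h1.seq (h2.seq (h3.seq h4))) (ih (l + 1) _)
    have e1 : l + 1 + L.length = l + (a :: L).length := by simp; ring
    have e2 : n + 1 + 1 + 1 + 3 * L.length = n + 3 * (a :: L).length := by simp; ring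
    have e3 : rg (l + 1 + L.length) (rg (l + 1) (n + 1 + 1) j k i q v Rg.N + 1 + 3 * L.length)
        j k i q v = rg (l + (a :: L).length) (n + 3 * (a :: L).length) j k i q v := by
      rw [← e1, ← e2]; rfl
    rw [e3] at this
    exact this

theorem le_of_flatMap {X Y : Type} (f : X → List Y) {l : List X} {x : X} (h : x ∈ l) :
    (f x).length ≤ (l.flatMap f).length := by
  induction l with
  | nil => simp at h
  | cons y l ih =>
    rw [List.flatMap_cons, List.length_append]
    rcases List.mem_cons.1 h with rfl | h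
    · omega
    · have := ih h; omega

theorem length_le_encode (φ : Formula) : φ.length ≤ φ.encode.length := by
  unfold Formula.encode
  induction φ with
  | nil => simp
  | cons C φ ih =>
    rw [List.flatMap_cons, List.length_append, List.length_cons]
    have : 1 ≤ (encC C).length := by unfold encC; simp
    omega

theorem index_lt_encode {φ : Formula} {C : List Lit} (hC : C ∈ φ) {x : Lit} (hx : x ∈ C) :
    x.2.2 < φ.encode.length := by
  have h1 : (encC C).length ≤ φ.encode.length := le_of_flatMap encC hC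
  have h2 : (encL x).length ≤ (C.flatMap encL).length := le_of_flatMap encL hx
  have h3 : (encL x).length = x.2.2 + 1 := by unfold encL; simp
  have h4 : (encC C).length = (C.flatMap encL).length + 1 := by unfold encC; simp
  omega

theorem bound_le_encode (φ : Formula) : φ.bound ≤ φ.encode.length := by
  have key : ∀ (L : List ℕ) (n : ℕ), (∀ x ∈ L, x ≤ n) → L.foldr max 0 ≤ n := by
    intro L n
    induction L with
    | nil => intro _; exact Nat.zero_le _
    | cons a L ih =>
      intro h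
      exact max_le (h a (by simp)) (ih fun x hx => h x (by simp [hx]))
  refine key _ _ ?_
  intro x hx
  rw [List.mem_map] at hx
  obtain ⟨y, hy, rfl⟩ := hx
  rw [List.mem_flatten] at hy
  obtain ⟨C, hC, hy⟩ := hy
  exact index_lt_encode hC hy

/-- The reduction. -/
def red (φ : Formula) : Hyp := hyp φ.encode.length φ.encode.length φ

/-- **The reduction is correct.** -/
theorem red_iff (φ : Formula) : φ.IsTrue ↔ (red φ).IsWaiterWin :=
  (hyp_iff (bound_le_encode φ) (length_le_encode φ)).symm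

theorem encode_red (φ : Formula) : (red φ).encode = fillers ++
    ((((List.range (3 * φ.encode.length)).flatMap fun j =>
        (List.finRange 7).map (winL j)).flatMap encY) ++
      (((termsFrom φ.encode.length 0 φ).flatMap
          fun t => encY (edgeT (3 * φ.encode.length) t)) ++
        encY (edgeT (3 * φ.encode.length) ((List.range φ.length).map fun q => (q, 1))))) := by
  unfold red hyp Hyp.encode
  rw [List.flatMap_map]
  have e : φ.encode.length + 2 * φ.encode.length = 3 * φ.encode.length := by ring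
  rw [e]
  unfold edgesL terms fillers
  rw [List.flatMap_append, List.flatMap_append, List.map_append, List.flatMap_append,
    List.flatMap_map]
  simp only [List.map_cons, List.map_nil, List.flatMap_cons, List.flatMap_nil, List.append_nil]
  refine congrArg₂ _ ?_ (congrArg₂ _ rfl (congrArg₂ _ ?_ rfl))
  · rw [List.flatMap_map]; rfl
  · rw [List.flatMap_map]; rfl

theorem spec_prog (φ : Formula) :
    Spec φ.encode prog (rg 0 0 0 0 0 0 0) (rg 0 0 0 0 0 0 0) (red φ).encode
      ((30000 + fillers.length) * (3 * φ.encode.length + 1) ^ 3) := by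
  have hlen := length_le_encode φ
  have hidx : ∀ C ∈ φ, ∀ x ∈ C, x.2.2 < φ.encode.length := fun C hC x hx => index_lt_encode hC hx
  set inp := φ.encode with hinp
  set ℓ := inp.length with hℓ
  have h0 : Spec inp (each none countP) (rg 0 0 0 0 0 0 0) (rg ℓ (3 * ℓ) 0 0 0 0 0) []
      (ℓ * (4 + 1) + (ℓ + 2)) := by
    have := Spec.each (inp := inp) (k := none) (fun o => rfl) hℓ.symm
      (spec_count (inp := inp) (j := 0) (k := 0) (i := 0) (q := 0) (v := 0) inp 0 0)
    rw [Nat.zero_add, Nat.zero_add, ← hℓ] at this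
    exact this
  have h1 := Spec.outs (inp := inp) (ρ := rg ℓ (3 * ℓ) 0 0 0 0 0) fillers
  have h2 := spec_wins (inp := inp) (l := ℓ) (n := 3 * ℓ) (q := 0) (v := 0) (B := 3 * ℓ)
    (by omega) le_rfl (Nat.zero_le _) (Nat.zero_le _)
  have h3 : Spec inp (each none readP) (rg ℓ (3 * ℓ) (3 * ℓ) (3 * ℓ) 0 0 0)
      (rg ℓ (3 * ℓ) (3 * ℓ) (3 * ℓ) 0 φ.length 0)
      ((termsFrom ℓ 0 φ).flatMap fun t => encY (edgeT (3 * ℓ) t))
      (ℓ * (3202 * (3 * ℓ + 1) ^ 2 + 1) + (ℓ + 2)) := by
    have := Spec.each (inp := inp) (k := none) (fun o => rfl) hℓ.symm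
      (spec_read (inp := inp) (l := ℓ) (n := 3 * ℓ) (j := 3 * ℓ) (k := 3 * ℓ) (B := 3 * ℓ)
        (by omega) le_rfl le_rfl le_rfl φ 0 (by omega)
        (fun C hC x hx => by have := hidx C hC x hx; omega))
    rw [Nat.zero_add] at this
    exact this
  have hφ : φ.length ≤ 3 * ℓ := by omega
  have h4 := spec_last (inp := inp) (l := ℓ) (n := 3 * ℓ) (j := 3 * ℓ) (k := 3 * ℓ)
    (q := φ.length) (B := 3 * ℓ) (by omega) le_rfl le_rfl le_rfl hφ
  have c1 := Spec.clr (inp := inp) (ρ := rg ℓ (3 * ℓ) (3 * ℓ) (3 * ℓ) 0 φ.length 0) Rg.L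
  rw [rg_L] at c1
  have c2 := Spec.clr (inp := inp) (ρ := rg 0 (3 * ℓ) (3 * ℓ) (3 * ℓ) 0 φ.length 0) Rg.N
  rw [rg_N] at c2
  have c3 := Spec.clr (inp := inp) (ρ := rg 0 0 (3 * ℓ) (3 * ℓ) 0 φ.length 0) Rg.J
  rw [rg_J] at c3
  have c4 := Spec.clr (inp := inp) (ρ := rg 0 0 0 (3 * ℓ) 0 φ.length 0) Rg.K
  rw [rg_K] at c4
  have c5 := Spec.clr (inp := inp) (ρ := rg 0 0 0 0 0 φ.length 0) Rg.Q
  rw [rg_Q] at c5
  have h := h0.seq (h1.seq (h2.seq (h3.seq (h4.seq (c1.seq (c2.seq (c3.seq (c4.seq c5))))))))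
  simp only [List.append_nil, List.nil_append] at h
  rw [encode_red]
  refine h.mono ?_
  show ℓ * (4 + 1) + (ℓ + 2) + (fillers.length + 1 + (20010 * (3 * ℓ + 1) ^ 3 +
    (ℓ * (3202 * (3 * ℓ + 1) ^ 2 + 1) + (ℓ + 2) + (700 * (3 * ℓ + 1) ^ 2 +
    (ℓ + 1 + (3 * ℓ + 1 + (3 * ℓ + 1 + (3 * ℓ + 1 + (φ.length + 1))))))))) ≤ _
  generalize fillers.length = F
  have e1 : F ≤ F * (3 * ℓ + 1) ^ 3 := Nat.le_mul_of_pos_right _ (by positivity)
  have e2 : (30000 + F) * (3 * ℓ + 1) ^ 3 = 30000 * (3 * ℓ + 1) ^ 3 + F * (3 * ℓ + 1) ^ 3 := by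
    ring
  rw [e2]
  have e3 : ℓ * 5 + ℓ + 2 + 1 + (20010 * (3 * ℓ + 1) ^ 3 +
    (ℓ * (3202 * (3 * ℓ + 1) ^ 2 + 1) + (ℓ + 2) + (700 * (3 * ℓ + 1) ^ 2 +
    (ℓ + 1 + (3 * ℓ + 1 + (3 * ℓ + 1 + (3 * ℓ + 1 + (3 * ℓ + 1))))))))
    ≤ 30000 * (3 * ℓ + 1) ^ 3 := by
    ring_nf
    nlinarith [Nat.zero_le ℓ, Nat.zero_le (ℓ ^ 2), Nat.zero_le (ℓ ^ 3)]
  omega

theorem wf_seqs {l : List Prog} (h : ∀ c ∈ l, WF c) : WF (seqs l) := by
  induction l with
  | nil => trivial
  | cons c l ih => exact ⟨h c (by simp), ih fun d hd => h d (by simp [hd])⟩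

theorem free_seqs {l : List Prog} {k : Option Rg} (h : ∀ c ∈ l, Free c k) : Free (seqs l) k := by
  induction l with
  | nil => trivial
  | cons c l ih => exact ⟨h c (by simp), ih fun d hd => h d (by simp [hd])⟩

theorem wf_outs (l : List Sym) : WF (outs l : Prog) := by
  refine wf_seqs fun c hc => ?_
  rw [List.mem_map] at hc
  obtain ⟨a, _, rfl⟩ := hc
  trivial

theorem free_outs (l : List Sym) (k : Option Rg) : Free (outs l : Prog) k := by
  refine free_seqs fun c hc => ?_
  rw [List.mem_map] at hc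
  obtain ⟨a, _, rfl⟩ := hc
  trivial

theorem wf_pr (r : Rg) : WF (pr r) := fun _ => ⟨trivial, trivial⟩

theorem free_pr {r : Rg} {k : Option Rg} (h : k ≠ some r) : Free (pr r) k :=
  ⟨h, fun _ => trivial⟩

theorem wf_vtx (a : ℕ) (bs : List Rg) (b' : ℕ) (cs : List Rg) : WF (vtx a bs b' cs) := by
  refine ⟨wf_outs _, wf_seqs ?_, wf_outs _, wf_seqs ?_⟩ <;>
  · intro c hc
    rw [List.mem_map] at hc
    obtain ⟨r, _, rfl⟩ := hc
    exact wf_pr r

theorem free_vtx (a : ℕ) {bs : List Rg} (b' : ℕ) {cs : List Rg} {k : Option Rg}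
    (h1 : ∀ r ∈ bs, k ≠ some r) (h2 : ∀ r ∈ cs, k ≠ some r) : Free (vtx a bs b' cs) k := by
  refine ⟨free_outs _ _, free_seqs ?_, free_outs _ _, free_seqs ?_⟩
  · intro c hc
    rw [List.mem_map] at hc
    obtain ⟨r, hr, rfl⟩ := hc
    exact free_pr (h1 r hr)
  · intro c hc
    rw [List.mem_map] at hc
    obtain ⟨r, hr, rfl⟩ := hc
    exact free_pr (h2 r hr)

theorem wf_core : WF coreP := by
  refine ⟨fun _ => ⟨⟨free_seqs ?_, ?_⟩, ⟨wf_seqs ?_, trivial⟩⟩, trivial, wf_seqs ?_⟩
  · intro c hc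
    rw [List.mem_map] at hc
    obtain ⟨s, _, rfl⟩ := hc
    exact free_vtx _ _ (by simp) (by simp)
  · show some Rg.N ≠ some Rg.I
    simp
  · intro c hc
    rw [List.mem_map] at hc
    obtain ⟨s, _, rfl⟩ := hc
    exact wf_vtx _ _ _ _
  · intro c hc
    rw [List.mem_map] at hc
    obtain ⟨s, _, rfl⟩ := hc
    exact wf_vtx _ _ _ _

theorem free_core {k : Option Rg} (h1 : k ≠ some Rg.N) (h2 : k ≠ some Rg.I) : Free coreP k := by
  refine ⟨⟨h1, fun _ => ⟨free_seqs ?_, h2⟩⟩, h2, free_seqs ?_⟩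
  · intro c hc
    rw [List.mem_map] at hc
    obtain ⟨s, _, rfl⟩ := hc
    exact free_vtx _ _ (by simp) (by simpa using h2)
  · intro c hc
    rw [List.mem_map] at hc
    obtain ⟨s, _, rfl⟩ := hc
    exact free_vtx _ _ (by simp) (by simp)

theorem wf_win : WF winP := by
  refine wf_seqs ?_
  intro c hc
  rw [List.mem_map] at hc
  obtain ⟨κ, _, rfl⟩ := hc
  refine ⟨trivial, wf_seqs ?_, fun _ => ⟨⟨free_seqs ?_, ?_⟩, wf_seqs ?_, trivial⟩, trivial⟩
  · intro c hc
    rw [List.mem_map] at hc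
    obtain ⟨s, _, rfl⟩ := hc
    exact wf_vtx _ _ _ _
  · intro c hc
    rw [List.mem_map] at hc
    obtain ⟨s, _, rfl⟩ := hc
    exact free_vtx _ _ (by simp) (by simp)
  · show some Rg.K ≠ some Rg.I
    simp
  · intro c hc
    rw [List.mem_map] at hc
    obtain ⟨s, _, rfl⟩ := hc
    exact wf_vtx _ _ _ _

theorem free_win : Free winP (some Rg.N) := by
  refine free_seqs ?_
  intro c hc
  rw [List.mem_map] at hc
  obtain ⟨κ, _, rfl⟩ := hc
  refine ⟨trivial, free_seqs ?_, ⟨?_, fun _ => ⟨free_seqs ?_, ?_⟩⟩, ?_⟩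
  · intro c hc
    rw [List.mem_map] at hc
    obtain ⟨s, _, rfl⟩ := hc
    exact free_vtx _ _ (by simp) (by simp)
  · simp
  · intro c hc
    rw [List.mem_map] at hc
    obtain ⟨s, _, rfl⟩ := hc
    exact free_vtx _ _ (by simp) (by simp)
  · show some Rg.N ≠ some Rg.I
    simp
  · show some Rg.N ≠ some Rg.I
    simp

theorem wf_wins : WF winsP := by
  intro _
  refine ⟨⟨free_win, ?_, ?_⟩, wf_win, trivial, trivial⟩
  · show some Rg.N ≠ some Rg.J
    simp
  · show some Rg.N ≠ some Rg.K
    simp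

theorem wf_litP (u b : Bool) : WF (litP u b) := by
  refine wf_seqs ?_
  intro c hc
  rw [List.mem_map] at hc
  obtain ⟨t, _, rfl⟩ := hc
  refine ⟨trivial, wf_vtx _ _ _ _, wf_seqs ?_, wf_core⟩
  intro c hc
  rw [List.mem_map] at hc
  obtain ⟨s, _, rfl⟩ := hc
  exact wf_vtx _ _ _ _

theorem free_litP (u b : Bool) : Free (litP u b) none := by
  refine free_seqs ?_
  intro c hc
  rw [List.mem_map] at hc
  obtain ⟨t, _, rfl⟩ := hc
  refine ⟨trivial, free_vtx _ _ (by simp) (by simp), free_seqs ?_, free_core (by simp) (by simp)⟩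
  intro c hc
  rw [List.mem_map] at hc
  obtain ⟨s, _, rfl⟩ := hc
  exact free_vtx _ _ (by simp) (by simp)

theorem wf_last : WF lastP := by
  refine ⟨trivial, fun _ => ⟨⟨free_vtx _ _ (by simp) (by simp), ?_⟩, wf_vtx _ _ _ _, trivial⟩,
    trivial, wf_core⟩
  show some Rg.Q ≠ some Rg.I
  simp

theorem wf_prog : WF prog := by
  refine ⟨fun a => ⟨?_, ?_⟩, wf_outs _, wf_wins, fun a => ?_, wf_last, trivial, trivial, trivial,
    trivial, trivial⟩
  · refine ⟨?_, ?_, ?_, ?_⟩ <;>
    · intro h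
      exact absurd h (by simp)
  · exact ⟨trivial, trivial, trivial, trivial⟩
  · cases a with
    | tick => exact ⟨by intro h; exact absurd h (by simp), trivial⟩
    | lit u b =>
      exact ⟨⟨free_litP u b, by intro h; exact absurd h (by simp)⟩, wf_litP u b, trivial⟩
    | stop => exact ⟨by intro h; exact absurd h (by simp), trivial⟩
    | bit b => exact ⟨trivial, trivial⟩
    | vert => exact ⟨trivial, trivial⟩
    | edge => exact ⟨trivial, trivial⟩

theorem start_eq (l : List Sym) : (start l : Store Sym Rg) = st l (rg 0 0 0 0 0 0 0) [] := by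
  unfold start
  funext k
  by_cases hk : k = mn none
  · subst hk; rw [update_self]; rfl
  · rw [update_of_ne hk]
    rcases k with ⟨_ | _, _ | r⟩ | _ | _
    · exact absurd rfl hk
    · cases r <;> rfl
    all_goals rfl

/-- **The reduction is computable in polynomial time.** -/
theorem red_computable :
    Nonempty (Turing.TM2ComputableInPolyTime Formula.encode Hyp.encode red) := by
  refine computable prog wf_prog
    (2 * ((30000 + Polynomial.C fillers.length) * (3 * Polynomial.X + 1) ^ 3) +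
      Polynomial.X + 2) ?_ ?_ ?_
  · intro φ r
    rw [start_eq, (spec_prog φ []).1]
    cases r <;> rfl
  · intro φ
    rw [start_eq, (spec_prog φ []).1]
    show (red φ).encode.reverse ++ [] = _
    rw [List.append_nil]
  · intro φ
    have h := (spec_prog φ []).2
    have h' := length_le_cost prog (start φ.encode)
    rw [start_eq] at h' ⊢
    rw [(spec_prog φ []).1] at h'
    have h1 : (st φ.encode (rg 0 0 0 0 0 0 0) ((red φ).encode.reverse ++ []) ou).length =
        (red φ).encode.length := by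
      show ((red φ).encode.reverse ++ []).length = _
      simp
    have h2 : (st φ.encode (rg 0 0 0 0 0 0 0) ([] : List Sym) ou).length = 0 := rfl
    rw [h1, h2] at h'
    simp only [Polynomial.eval_add, Polynomial.eval_mul, Polynomial.eval_pow, Polynomial.eval_C,
      Polynomial.eval_X, Polynomial.eval_ofNat, Polynomial.eval_one]
    omega

end Pool.Agent.Lib.MP_c85d9c_lc
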