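import Pool.Agent.Lib.MP_c85d9c_lc.Formula

/-!
# Formulas without universal variables
-/

namespace Pool.Agent.Lib.MP_c85d9c_lc

theorem alt_exists {M : (ℕ → Bool) → (ℕ → Bool) → Prop} {P : (ℕ → Bool) → Prop}
    (h : ∀ α β, M α β ↔ P α) : ∀ (n : ℕ) (α β : ℕ → Bool),
    Alt M n α β ↔ ∃ α', (∀ i, n ≤ i → α' i = α i) ∧ P α' := by
  intro n
  induction n with
  | zero =>
    intro α β
    constructor
    · intro hM
      exact ⟨α, fun _ _ => rfl, (h α β).1 hM⟩
    · rintro ⟨α', h1, h2⟩
      have : α' = α := funext fun i => h1 i (Nat.zero_le _)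
      subst this
      exact (h _ β).2 h2
  | succ n ih =>
    intro α β
    unfold Alt
    constructor
    · rintro ⟨a, ha⟩
      obtain ⟨α', h1, h2⟩ := (ih _ _).1 (ha false)
      refine ⟨α', fun i hi => ?_, h2⟩
      rw [h1 i (by omega), Function.update_of_ne (by omega)]
    · rintro ⟨α', h1, h2⟩
      refine ⟨α' n, fun b => (ih _ _).2 ⟨α', fun i hi => ?_, h2⟩⟩
      by_cases hin : i = n
      · subst hin; rw [Function.update_self]
      · rw [Function.update_of_ne hin]; exact h1 i (by omega)

theorem holds_of_existential {φ : Formula} (h : φ.IsExistential) (α β β' : ℕ → Bool) :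
    φ.Holds α β ↔ φ.Holds α β' := by
  unfold Formula.Holds
  refine forall₂_congr fun C hC => exists_congr fun l => and_congr_right fun hl => ?_
  unfold Lit.Holds
  rw [h C hC l hl]
  simp

/-- For a formula without universal variables, truth is satisfiability. -/
theorem isTrue_iff_satisfiable {φ : Formula} (h : φ.IsExistential) :
    φ.IsTrue ↔ φ.Satisfiable := by
  unfold Formula.IsTrue
  rw [alt_exists (P := fun α => φ.Holds α (fun _ => false))
    (fun α β => holds_of_existential h α β _)]
  constructor
  · rintro ⟨α, _, h'⟩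
    exact ⟨α, _, h'⟩
  · rintro ⟨α, β, h'⟩
    refine ⟨fun i => if i < φ.bound then α i else false, fun i hi => if_neg (by omega), ?_⟩
    rw [holds_of_existential h _ _ β]
    refine (holds_congr le_rfl (fun i hi => ?_) (fun _ _ => rfl)).1 h'
    rw [if_pos hi]

end Pool.Agent.Lib.MP_c85d9c_lc
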