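import Pool.Agent.Lib.MP_c85d9c_lc.Sound

/-!
# From a winning strategy of Waiter to a winning strategy in the abstract game, II
-/

namespace Pool.Agent.Lib.MP_c85d9c_lc

open Finset

variable {N : ℕ}

/-- The windows `m, m + 1, …` are decided, the windows below `m` are untouched, and Client owns no
vertex of the core. -/
structure Post (N m : ℕ) (S : Finset (ℕ × Fin 4)) (U W : Finset Vx) : Prop where
  dis : Disjoint U W
  le : m ≤ N
  upp : UppW m U
  fil : 0 < m → UppF U
  core : ed N iC ⊆ U ∪ W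
  lit : ∀ j, m ≤ j → j < N → ∀ a, lv j a ∉ U
  sw : ∀ j, j < N → ∀ a, (lv j a ∈ W ↔ (j, a) ∈ S)
  phi : Phi (IN N) (ed N) U W = 1

/-- Window `μ` is being treated: the literals of `L` are unclaimed and the other ones are
claimed. -/
structure Mid (N μ : ℕ) (ew : Fin 7 → ℕ) (L : Finset (Fin 4)) (S : Finset (ℕ × Fin 4))
    (U W : Finset Vx) : Prop where
  dis : Disjoint U W
  lt : μ < N
  upp : UppW μ U
  fil : UppF U
  core : wt U W (ed N iC) = 2 * un μ
  win : ∀ k, wt U W (ed N (iW μ k)) = ew k * un μ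
  litU : ∀ a ∈ L, lv μ a ∈ U
  litD : ∀ a, a ∉ L → lv μ a ∉ U
  lit : ∀ j, μ < j → j < N → ∀ a, lv j a ∉ U
  sw : ∀ j, j < N → ∀ a, (lv j a ∈ W ↔ (j, a) ∈ S)
  phi : Phi (IN N) (ed N) U W = 1

/-- An untouched part: two different vertices of equal weight in it have a common edge. -/
theorem upper_pair {U W : Finset Vx} (hd : Disjoint U W) {m : ℕ} (hm : m ≤ N) (hW : UppW m U)
    (hF : UppF U) {x y : Vx}
    (hx : (∃ j < m, inWin j x) ∨ ∃ (l : Fin 5) (i : ℕ), i < l.val + 1 ∧ x = Vx.fil l i)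
    (hy : (∃ j < m, inWin j y) ∨ ∃ (l : Fin 5) (i : ℕ), i < l.val + 1 ∧ y = Vx.fil l i)
    (he : Ws (IN N) (ed N) U W x = Ws (IN N) (ed N) U W y) :
    ∃ i ∈ IN N, ed N i ⊆ U ∪ W ∧ x ∈ ed N i ∧ y ∈ ed N i := by
  have key : ∀ {j : ℕ} {x : Vx} (_ : j < m) (_ : inWin j x),
      un j ≤ Ws (IN N) (ed N) U W x ∧ Ws (IN N) (ed N) U W x ≤ 15 * un j := by
    intro j x hj hx
    rw [Ws_win' (lt_of_lt_of_le hj hm) hx (fun k => wt_win hd hW hj k)]
    have h1 := (mW_ewI_pos (row x)).1
    have h2 := (mW_ewI_pos (row x)).2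
    have h1' : (1 : ℚ) ≤ mW ewI (row x) := by exact_mod_cast h1
    have h2' : (mW ewI (row x) : ℚ) ≤ 15 := by exact_mod_cast h2
    have := un_pos j
    constructor <;> nlinarith
  have keyF : ∀ {l : Fin 5} {i : ℕ} (_ : i < l.val + 1), ∀ j, 16 * un j ≤
      Ws (IN N) (ed N) U W (Vx.fil l i) := by
    intro l i hi j
    rw [Ws_fil hi, wt_fil hd hF]
    refine (un_le j).trans ?_
    exact pow_le_pow_of_le_one (by norm_num) (by norm_num) (by omega)
  rcases hx with ⟨j, hj, hx⟩ | ⟨l, i, hi, rfl⟩ <;> rcases hy with ⟨j', hj', hy⟩ | ⟨l', i', hi', rfl⟩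
  · have k1 := key hj hx
    have k2 := key hj' hy
    have p1 := un_pos j
    have p2 := un_pos j'
    rcases lt_trichotomy j j' with h | rfl | h
    · have := un_lt h; linarith [k1.1, k2.2]
    · rw [Ws_win' (lt_of_lt_of_le hj hm) hx (fun k => wt_win hd hW hj k),
        Ws_win' (lt_of_lt_of_le hj hm) hy (fun k => wt_win hd hW hj k)] at he
      have he' : mW ewI (row x) = mW ewI (row y) := by
        have := mul_right_cancel₀ p1.ne' he
        exact_mod_cast this
      obtain ⟨k, hk1, hk2⟩ := chkI _ _ he'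
      refine ⟨iW j k, mem_IN.2 (Or.inr (Or.inl ⟨j, k, lt_of_lt_of_le hj hm, rfl⟩)),
        (ed_win_subset hW hj k).trans subset_union_left, ?_, ?_⟩
      · rw [mem_ed_win hx]; exact ⟨rfl, hk1⟩
      · rw [mem_ed_win hy]; exact ⟨rfl, hk2⟩
    · have := un_lt h; linarith [k2.1, k1.2]
  · have k1 := (key hj hx).2
    have k2 := keyF hi' j
    have p1 := un_pos j
    linarith
  · have k1 := (key hj' hy).2
    have k2 := keyF hi j'
    have p1 := un_pos j'
    linarith
  · rw [Ws_fil hi, Ws_fil hi', wt_fil hd hF, wt_fil hd hF] at he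
    have h3 : l = l' := by
      revert he
      fin_cases l <;> fin_cases l' <;> norm_num
    subst h3
    refine ⟨iF l, mem_IN.2 (Or.inr (Or.inr ⟨l, rfl⟩)),
      (ed_fil_subset hF l).trans subset_union_left, ?_, ?_⟩
    · unfold ed edL; rw [List.mem_toFinset, fil_mem_filL]; exact ⟨rfl, hi⟩
    · unfold ed edL; rw [List.mem_toFinset, fil_mem_filL]; exact ⟨rfl, hi'⟩

theorem upper_ge {U W : Finset Vx} (hd : Disjoint U W) {m : ℕ} (hm : m ≤ N) (hW : UppW m U)
    (hF : UppF U) {x : Vx}
    (hx : (∃ j < m, inWin j x) ∨ ∃ (l : Fin 5) (i : ℕ), i < l.val + 1 ∧ x = Vx.fil l i) :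
    16 * un m ≤ Ws (IN N) (ed N) U W x := by
  rcases hx with ⟨j, hj, hx⟩ | ⟨l, i, hi, rfl⟩
  · rw [Ws_win' (lt_of_lt_of_le hj hm) hx (fun k => wt_win hd hW hj k)]
    have h1' : (1 : ℚ) ≤ mW ewI (row x) := by exact_mod_cast (mW_ewI_pos (row x)).1
    have := un_lt hj
    have := un_pos j
    nlinarith
  · rw [Ws_fil hi, wt_fil hd hF]
    refine (un_le m).trans ?_
    exact pow_le_pow_of_le_one (by norm_num) (by norm_num) (by omega)

/-- The weight of an edge does not change in a round whose two vertices are not in it. -/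
theorem wt_round_of_not_mem {U W : Finset Vx} {u v : Vx} (hd : Disjoint U W) (hu : u ∈ U)
    (hv : v ∈ U) (huv : u ≠ v) {e : Finset Vx} (h1 : u ∉ e) (h2 : v ∉ e) :
    wt (U \ {u, v}) (insert u W) e = wt U W e := by
  rw [wt_round hd hu hv huv, if_neg h2, if_neg h1]

theorem wt_round_of_eq_zero {U W : Finset Vx} {u v : Vx} (hd : Disjoint U W) (hu : u ∈ U)
    (hv : v ∈ U) (huv : u ≠ v) {e : Finset Vx} (h : wt U W e = 0) :
    wt (U \ {u, v}) (insert u W) e = 0 := by
  rw [wt_round hd hu hv huv, h]; simp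

theorem not_mem_of_Ws_eq_zero {U W : Finset Vx} {x : Vx} (h : Ws (IN N) (ed N) U W x = 0)
    {i : Ix} (hi : i ∈ IN N) (hw : wt U W (ed N i) ≠ 0) : x ∉ ed N i := by
  intro hx
  unfold Ws at h
  have h0 : ∀ i ∈ IN N, 0 ≤ if x ∈ ed N i then wt U W (ed N i) else 0 :=
    fun i _ => by split_ifs; exacts [wt_nonneg _ _ _, le_rfl]
  have := (sum_eq_zero_iff_of_nonneg h0).1 h i hi
  rw [if_pos hx] at this
  exact hw this

/-- One round in a state in which the current window is being treated. -/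
theorem step_mid {μ : ℕ} {ew : Fin 7 → ℕ} {L : Finset (Fin 4)} {S : Finset (ℕ × Fin 4)}
    {U W : Finset Vx} (h : Mid N μ ew L S U W) (hc : Chk ew L) {u v : Vx} (hu : u ∈ U)
    (hv : v ∈ U) (huv : u ≠ v)
    (hp1 : Phi (IN N) (ed N) (U \ {u, v}) (insert u W) = 1)
    (hno : ∀ i ∈ IN N, ed N i ⊆ U ∪ W → ¬ (u ∈ ed N i ∧ v ∈ ed N i))
    (he : Ws (IN N) (ed N) U W u = Ws (IN N) (ed N) U W v) :
    Mid N μ ew L S (U \ {u, v}) (insert u W) ∨
      ∃ a ∈ L, ∃ b ∈ L, a ≠ b ∧ u = lv μ a ∧ v = lv μ b := by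
  have hpu := un_pos μ
  -- the lower windows are dead
  have hls := low_sum h.dis h.lt.le h.upp h.fil h.phi
  have hcur : ∑ k, wt U W (ed N (iW μ k)) = 14 * un μ := by
    simp only [h.win]
    rw [← sum_mul]
    have : (∑ k, (ew k : ℚ)) = 14 := by exact_mod_cast congrArg (Nat.cast (R := ℚ)) hc.sum
    rw [this]
  have hdead : ∀ j, μ < j → j < N → ∑ k, wt U W (ed N (iW j k)) = 0 := by
    intro j hj1 hj2
    have h1 : ∑ j ∈ Ico μ N, ∑ k, wt U W (ed N (iW j k)) =
        14 * un μ + ∑ j ∈ Ico (μ + 1) N, ∑ k, wt U W (ed N (iW j k)) := by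
      rw [← hcur, sum_eq_sum_Ico_succ_bot h.lt]
    rw [h1, h.core] at hls
    have h2 : ((1 : ℚ) / 2) ^ (5 + 4 * μ) = 16 * un μ := by
      unfold un
      rw [show 9 + 4 * μ = 5 + 4 * μ + 4 by ring, pow_add _ (5 + 4 * μ) 4]
      ring
    rw [h2] at hls
    have h3 : ∑ j ∈ Ico (μ + 1) N, ∑ k, wt U W (ed N (iW j k)) = 0 := by linarith
    exact (sum_eq_zero_iff_of_nonneg (fun j _ => sum_nonneg fun k _ => wt_nonneg _ _ _)).1 h3 j
      (mem_Ico.2 ⟨hj1, hj2⟩)
  -- availability of the rows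
  have hav : ∀ {x : Vx}, x ∈ U → inWin μ x → avl L (row x) = true := by
    intro x hxU hx
    unfold avl
    rw [decide_eq_true_iff]
    intro a ha
    by_contra hcon
    exact h.litD a hcon (eq_lv_of_row hx ha ▸ hxU)
  -- classification of one vertex
  have cls : ∀ x ∈ U, ((∃ j < μ, inWin j x) ∨
      ∃ (l : Fin 5) (i : ℕ), i < l.val + 1 ∧ x = Vx.fil l i) ∨
      (x ∈ ed N iC) ∨ (inWin μ x) ∨ Ws (IN N) (ed N) U W x = 0 := by
    intro x hx
    rcases classify N x with h1 | ⟨j, hj, h1⟩ | h1 | h1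
    · exact Or.inr (Or.inl h1)
    · rcases lt_trichotomy j μ with h2 | rfl | h2
      · exact Or.inl (Or.inl ⟨j, h2, h1⟩)
      · exact Or.inr (Or.inr (Or.inl h1))
      · refine Or.inr (Or.inr (Or.inr ?_))
        have := Ws_win_le (U := U) (W := W) hj h1
        rw [hdead j h2 hj] at this
        refine le_antisymm this ?_
        unfold Ws
        exact sum_nonneg fun i _ => by split_ifs; exacts [wt_nonneg _ _ _, le_rfl]
    · exact Or.inl (Or.inr h1)
    · exact Or.inr (Or.inr (Or.inr (Ws_none h1)))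
  have hWmid : ∀ {x : Vx}, inWin μ x → Ws (IN N) (ed N) U W x = mW ew (row x) * un μ :=
    fun hx => Ws_win' h.lt hx h.win
  have hmle : ∀ x : Fin 19, mW ew x ≤ 14 := by
    intro x
    rw [← hc.sum]
    unfold mW
    refine sum_le_sum fun k _ => ?_
    split_ifs <;> omega
  have hge : ∀ {x : Vx}, ((∃ j < μ, inWin j x) ∨
      ∃ (l : Fin 5) (i : ℕ), i < l.val + 1 ∧ x = Vx.fil l i) →
      16 * un μ ≤ Ws (IN N) (ed N) U W x := fun hx => upper_ge h.dis h.lt.le h.upp h.fil hx
  have hle : ∀ {x : Vx}, (x ∈ ed N iC) ∨ (inWin μ x) ∨ Ws (IN N) (ed N) U W x = 0 →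
      Ws (IN N) (ed N) U W x ≤ 14 * un μ := by
    intro x hx
    rcases hx with hx | hx | hx
    · rw [Ws_core hx, h.core]; linarith
    · rw [hWmid hx]
      have : (mW ew (row x) : ℚ) ≤ 14 := by exact_mod_cast hmle (row x)
      nlinarith
    · rw [hx]; linarith
  have hcsub : ed N iC ⊆ U ∪ W := subset_of_wt_ne (by rw [h.core]; positivity)
  -- both vertices are neutral
  have neutral : Ws (IN N) (ed N) U W u = 0 → Mid N μ ew L S (U \ {u, v}) (insert u W) := by
    intro hu0
    have hv0 : Ws (IN N) (ed N) U W v = 0 := by rw [← he]; exact hu0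
    have hkeep : ∀ i ∈ IN N,
        wt (U \ {u, v}) (insert u W) (ed N i) = wt U W (ed N i) := by
      intro i hi
      by_cases h0 : wt U W (ed N i) = 0
      · rw [h0]; exact wt_round_of_eq_zero h.dis hu hv huv h0
      · exact wt_round_of_not_mem h.dis hu hv huv (not_mem_of_Ws_eq_zero hu0 hi h0)
          (not_mem_of_Ws_eq_zero hv0 hi h0)
    have hne : ∀ {x : Vx}, 0 < Ws (IN N) (ed N) U W x → x ≠ u ∧ x ≠ v := by
      intro x hx
      constructor
      · rintro rfl; rw [hu0] at hx; exact lt_irrefl _ hx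
      · rintro rfl; rw [hv0] at hx; exact lt_irrefl _ hx
    have hkeepU : ∀ {x : Vx}, x ∈ U → 0 < Ws (IN N) (ed N) U W x → x ∈ U \ {u, v} := by
      intro x hx hx'
      simp only [mem_sdiff, mem_insert, mem_singleton, not_or]
      exact ⟨hx, hne hx'⟩
    have hlvpos : ∀ a ∈ L, 0 < Ws (IN N) (ed N) U W (lv μ a) := by
      intro a ha
      rw [hWmid (inWin_lv μ a), row_lv]
      have : 0 < mW ew (lr a) := Nat.pos_of_ne_zero (hc.pos a ha)
      positivity
    refine ⟨disjoint_round h.dis, h.lt, ?_, ?_, ?_, ?_, ?_, ?_, ?_, ?_, hp1⟩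
    · intro j hj x hx
      exact hkeepU (h.upp j hj x hx)
        (lt_of_lt_of_le (by positivity) (hge (Or.inl ⟨j, hj, hx⟩)))
    · intro l i hi
      exact hkeepU (h.fil l i hi)
        (lt_of_lt_of_le (by positivity) (hge (Or.inr ⟨l, i, hi, rfl⟩)))
    · rw [hkeep _ (mem_IN.2 (Or.inl rfl))]; exact h.core
    · intro k
      rw [hkeep _ (mem_IN.2 (Or.inr (Or.inl ⟨μ, k, h.lt, rfl⟩)))]; exact h.win k
    · intro a ha
      exact hkeepU (h.litU a ha) (hlvpos a ha)
    · intro a ha hcon
      exact h.litD a ha (mem_sdiff.1 hcon).1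
    · intro j hj1 hj2 a hcon
      exact h.lit j hj1 hj2 a (mem_sdiff.1 hcon).1
    · intro j hj a
      rw [mem_insert, ← h.sw j hj a]
      constructor
      · rintro (h1 | h1)
        · exfalso
          rcases lt_trichotomy j μ with h2 | rfl | h2
          · have := lt_of_lt_of_le (show (0 : ℚ) < 16 * un μ by positivity)
              (hge (Or.inl ⟨j, h2, inWin_lv j a⟩))
            rw [h1, hu0] at this
            exact lt_irrefl _ this
          · by_cases ha : a ∈ L
            · have := hlvpos a ha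
              rw [h1, hu0] at this
              exact lt_irrefl _ this
            · exact h.litD a ha (h1 ▸ hu)
          · exact h.lit j h2 hj a (h1 ▸ hu)
        · exact h1
      · exact Or.inr
  rcases cls u hu with hcu | hcu
  · rcases cls v hv with hcv | hcv
    · obtain ⟨i, hi, hal, h1, h2⟩ := upper_pair h.dis h.lt.le h.upp h.fil hcu hcv he
      exact absurd ⟨h1, h2⟩ (hno i hi hal)
    · have h1 := hge hcu
      have h2 := hle hcv
      rw [he] at h1
      linarith
  · rcases cls v hv with hcv | hcv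
    · have h1 := hge hcv
      have h2 := hle hcu
      rw [he] at h2
      linarith
    · rcases hcu with hcu | hcu | hcu
      · rcases hcv with hcv | hcv | hcv
        · exact absurd ⟨hcu, hcv⟩ (hno iC (mem_IN.2 (Or.inl rfl)) hcsub)
        · rw [Ws_core hcu, hWmid hcv, h.core] at he
          have : (2 : ℚ) = mW ew (row v) := mul_right_cancel₀ hpu.ne' he
          exact absurd (by exact_mod_cast this.symm) (hc.ne2 _ (hav hv hcv))
        · rw [Ws_core hcu, h.core, hcv] at he
          linarith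
      · rcases hcv with hcv | hcv | hcv
        · rw [Ws_core hcv, hWmid hcu, h.core] at he
          have : (mW ew (row u) : ℚ) = 2 := mul_right_cancel₀ hpu.ne' he
          exact absurd (by exact_mod_cast this) (hc.ne2 _ (hav hu hcu))
        · rw [hWmid hcu, hWmid hcv] at he
          have he' : mW ew (row u) = mW ew (row v) := by
            have := mul_right_cancel₀ hpu.ne' he
            exact_mod_cast this
          rcases hc.pair _ _ (hav hu hcu) (hav hv hcv) he' with h1 | h1 | h1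
          · left
            refine neutral ?_
            rw [hWmid hcu, h1]; simp
          · exfalso
            unfold shr at h1
            rw [decide_eq_true_iff] at h1
            obtain ⟨k, hk, hk1, hk2⟩ := h1
            refine hno (iW μ k) (mem_IN.2 (Or.inr (Or.inl ⟨μ, k, h.lt, rfl⟩))) ?_ ⟨?_, ?_⟩
            · refine subset_of_wt_ne ?_
              rw [h.win k]
              have : (ew k : ℚ) ≠ 0 := by exact_mod_cast hk
              exact mul_ne_zero this hpu.ne'
            · rw [mem_ed_win hcu]; exact ⟨rfl, hk1⟩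
            · rw [mem_ed_win hcv]; exact ⟨rfl, hk2⟩
          · right
            unfold lit2 at h1
            rw [decide_eq_true_iff] at h1
            obtain ⟨a, b, hab, hra, hrb⟩ := h1
            have eu := eq_lv_of_row hcu hra
            have ev := eq_lv_of_row hcv hrb
            refine ⟨a, ?_, b, ?_, hab, eu, ev⟩
            · by_contra hcon; exact h.litD a hcon (eu ▸ hu)
            · by_contra hcon; exact h.litD b hcon (ev ▸ hv)
        · left; exact neutral (by rw [he]; exact hcv)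
      · left; exact neutral hcu

end Pool.Agent.Lib.MP_c85d9c_lc
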