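import Pool.Agent.Lib.MP_c85d9c_lc.Sound2

/-!
# From a winning strategy of Waiter to a winning strategy in the abstract game, III
-/

namespace Pool.Agent.Lib.MP_c85d9c_lc

open Finset

variable {N : ℕ}

theorem lv_not_mem_core (j : ℕ) (a : Fin 4) : lv j a ∉ ed N iC :=
  not_mem_ed_core (inWin_lv j a)

theorem post_round {m : ℕ} {S : Finset (ℕ × Fin 4)} {U W : Finset Vx} (h : Post N m S U W)
    {u v : Vx} (hu : u ∈ U) (hp1 : Phi (IN N) (ed N) (U \ {u, v}) (insert u W) = 1)
    (hvc : v ∉ ed N iC) (hup : ∀ x, x = u ∨ x = v → ¬ ∃ j < m, inWin j x)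
    (hupF : 0 < m → ∀ x, x = u ∨ x = v →
      ¬ ∃ (l : Fin 5) (i : ℕ), i < l.val + 1 ∧ x = Vx.fil l i) :
    Post N m S (U \ {u, v}) (insert u W) := by
  refine ⟨disjoint_round h.dis, h.le, ?_, ?_, ?_, ?_, ?_, hp1⟩
  · intro j hj x hx
    simp only [mem_sdiff, mem_insert, mem_singleton]
    exact ⟨h.upp j hj x hx, fun hc => hup x hc ⟨j, hj, hx⟩⟩
  · intro hm l i hi
    simp only [mem_sdiff, mem_insert, mem_singleton]
    exact ⟨h.fil hm l i hi, fun hc => hupF hm _ hc ⟨l, i, hi, rfl⟩⟩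
  · intro x hx
    have hx' := h.core hx
    simp only [mem_union, mem_sdiff, mem_insert, mem_singleton] at hx' ⊢
    by_cases h1 : x = u
    · exact Or.inr (Or.inl h1)
    · have h2 : x ≠ v := by rintro rfl; exact hvc hx
      rcases hx' with h3 | h3
      · exact Or.inl ⟨h3, by tauto⟩
      · exact Or.inr (Or.inr h3)
  · intro j hj1 hj2 a hcon
    exact h.lit j hj1 hj2 a (mem_sdiff.1 hcon).1
  · intro j hj a
    rw [mem_insert, ← h.sw j hj a]
    constructor
    · rintro (h1 | h1)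
      · exfalso
        rcases Nat.lt_or_ge j m with h2 | h2
        · exact hup _ (Or.inl h1) ⟨j, h2, inWin_lv j a⟩
        · exact h.lit j h2 hj a (h1 ▸ hu)
      · exact h1
    · exact Or.inr

theorem post_to_mid {μ : ℕ} {S : Finset (ℕ × Fin 4)} {U W : Finset Vx}
    (h : Post N (μ + 1) S U W) {u v : Vx} (hu : u ∈ U) (hv : v ∈ U) (huv : u ≠ v)
    (hp1 : Phi (IN N) (ed N) (U \ {u, v}) (insert u W) = 1) (huc : u ∈ ed N iC)
    (hwc : wt U W (ed N iC) = un μ) (hv4 : v = Vx.bas μ 4) :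
    Mid N μ ewB univ S (U \ {u, v}) (insert u W) := by
  have hvW : inWin μ v := Or.inl ⟨4, hv4⟩
  have huW : ∀ j, ¬ inWin j u := fun j hj => not_mem_ed_core hj huc
  have hF := h.fil (Nat.succ_pos μ)
  refine ⟨disjoint_round h.dis, h.le, ?_, ?_, ?_, ?_, ?_, ?_, ?_, ?_, hp1⟩
  · intro j hj x hx
    simp only [mem_sdiff, mem_insert, mem_singleton]
    refine ⟨h.upp j (by omega) x hx, ?_⟩
    rintro (rfl | rfl)
    · exact huW j hx
    · exact absurd (inWin_inj hx hvW) (by omega)
  · intro l i hi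
    simp only [mem_sdiff, mem_insert, mem_singleton]
    refine ⟨hF l i hi, ?_⟩
    rintro (h1 | h1)
    · rw [← h1] at huc
      refine not_mem_fil_of_core huc (l := l) ?_
      unfold ed edL; rw [List.mem_toFinset, fil_mem_filL]; exact ⟨rfl, hi⟩
    · rw [hv4] at h1; exact absurd h1 (by simp)
  · rw [wt_round h.dis hu hv huv, if_neg (not_mem_ed_core hvW), if_pos huc, hwc]
  · intro k
    rw [wt_round h.dis hu hv huv, if_neg (not_mem_win_of_core huc),
      wt_win h.dis h.upp (Nat.lt_succ_self μ) k]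
    have hk : v ∈ ed N (iW μ k) ↔ k = 0 := by
      rw [mem_ed_win hvW, hv4]
      have hr : row (Vx.bas μ 4) = (4 : Fin 19) := rfl
      have : ∀ k : Fin 7, tinc (4 : Fin 19) k = true ↔ k = 0 := by decide +kernel
      rw [hr, this k]
      simp
    by_cases h0 : k = 0
    · rw [if_pos (hk.2 h0), h0]
      simp [ewB]
    · rw [if_neg (fun hc => h0 (hk.1 hc))]
      have : ∀ k : Fin 7, k ≠ 0 → ewI k = ewB k := by decide +kernel
      rw [this k h0]
  · intro a _
    simp only [mem_sdiff, mem_insert, mem_singleton]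
    refine ⟨h.upp μ (Nat.lt_succ_self μ) _ (inWin_lv μ a), ?_⟩
    rintro (h1 | h1)
    · exact huW μ (h1 ▸ inWin_lv μ a)
    · rw [hv4] at h1
      unfold lv at h1
      simp only [Vx.bas.injEq, true_and] at h1
      have := congrArg Fin.val h1
      simp only at this
      have h4 : ((4 : Fin 18) : ℕ) = 4 := rfl
      omega
  · intro a ha; exact absurd (mem_univ a) ha
  · intro j hj1 hj2 a hcon
    exact h.lit j hj1 hj2 a (mem_sdiff.1 hcon).1
  · intro j hj a
    rw [mem_insert, ← h.sw j hj a]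
    constructor
    · rintro (h1 | h1)
      · exact absurd (h1 ▸ inWin_lv j a) (huW j)
      · exact h1
    · exact Or.inr

/-- One round in a state in which no window is being treated. -/
theorem step_post {m : ℕ} {S : Finset (ℕ × Fin 4)} {U W : Finset Vx} (h : Post N m S U W)
    {u v : Vx} (hu : u ∈ U) (hv : v ∈ U) (huv : u ≠ v)
    (hp1 : Phi (IN N) (ed N) (U \ {u, v}) (insert u W) = 1)
    (hp2 : Phi (IN N) (ed N) (U \ {u, v}) (insert v W) = 1)
    (hno : ∀ i ∈ IN N, ed N i ⊆ U ∪ W → ¬ (u ∈ ed N i ∧ v ∈ ed N i))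
    (he : Ws (IN N) (ed N) U W u = Ws (IN N) (ed N) U W v) :
    Post N m S (U \ {u, v}) (insert u W) ∨ Post N m S (U \ {u, v}) (insert v W) ∨
      ∃ μ, m = μ + 1 ∧ (Mid N μ ewB univ S (U \ {u, v}) (insert u W) ∨
        Mid N μ ewB univ S (U \ {u, v}) (insert v W)) := by
  -- keeping the core alive
  have keep : (∀ x, x = u ∨ x = v → ¬ ∃ j < m, inWin j x) →
      (0 < m → ∀ x, x = u ∨ x = v →
        ¬ ∃ (l : Fin 5) (i : ℕ), i < l.val + 1 ∧ x = Vx.fil l i) →
      Post N m S (U \ {u, v}) (insert u W) ∨ Post N m S (U \ {u, v}) (insert v W) := by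
    intro h1 h2
    by_cases huc : u ∈ ed N iC
    · left
      refine post_round h hu hp1 ?_ h1 h2
      intro hvc
      exact hno iC (mem_IN.2 (Or.inl rfl)) h.core ⟨huc, hvc⟩
    · right
      rw [Finset.pair_comm]
      rw [Finset.pair_comm] at hp2
      exact post_round h hv hp2 huc (fun x hx => h1 x hx.symm) (fun hm x hx => h2 hm x hx.symm)
  rcases Nat.eq_zero_or_pos m with rfl | hm
  · rcases keep (fun x _ => by rintro ⟨j, hj, _⟩; omega) (fun hm => absurd hm (lt_irrefl 0))
      with h1 | h1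
    exacts [Or.inl h1, Or.inr (Or.inl h1)]
  obtain ⟨μ, rfl⟩ : ∃ μ, m = μ + 1 := ⟨m - 1, by omega⟩
  have hF := h.fil hm
  have hls := low_sum h.dis h.le h.upp hF h.phi
  have hun : ((1 : ℚ) / 2) ^ (5 + 4 * (μ + 1)) = un μ := by
    unfold un; congr 1; ring
  rw [hun] at hls
  have hcpos : 0 < wt U W (ed N iC) := wt_pos h.core
  have hpu := un_pos μ
  have hμN : μ < N := h.le
  have hsum0 : 0 ≤ ∑ j ∈ Ico (μ + 1) N, ∑ k, wt U W (ed N (iW j k)) :=
    sum_nonneg fun j _ => sum_nonneg fun k _ => wt_nonneg _ _ _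
  have cls : ∀ x, ((∃ j < μ + 1, inWin j x) ∨
      ∃ (l : Fin 5) (i : ℕ), i < l.val + 1 ∧ x = Vx.fil l i) ∨
      (¬ ((∃ j < μ + 1, inWin j x) ∨
      ∃ (l : Fin 5) (i : ℕ), i < l.val + 1 ∧ x = Vx.fil l i) ∧
      Ws (IN N) (ed N) U W x ≤ un μ ∧
        (Ws (IN N) (ed N) U W x = un μ → x ∈ ed N iC ∧ wt U W (ed N iC) = un μ)) := by
    intro x
    by_cases hx : (∃ j < μ + 1, inWin j x) ∨
      ∃ (l : Fin 5) (i : ℕ), i < l.val + 1 ∧ x = Vx.fil l i
    · exact Or.inl hx
    · right
      refine ⟨hx, ?_⟩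
      rcases classify N x with h1 | ⟨j, hj, h1⟩ | h1 | h1
      · rw [Ws_core h1]
        exact ⟨by linarith, fun h2 => ⟨h1, h2⟩⟩
      · have hj' : μ + 1 ≤ j := by
          by_contra hcon
          exact hx (Or.inl ⟨j, by omega, h1⟩)
        have h2 := Ws_win_le (U := U) (W := W) hj h1
        have h3 : ∑ k, wt U W (ed N (iW j k)) ≤
            ∑ j ∈ Ico (μ + 1) N, ∑ k, wt U W (ed N (iW j k)) :=
          single_le_sum (f := fun j => ∑ k, wt U W (ed N (iW j k)))
            (fun j _ => sum_nonneg fun k _ => wt_nonneg _ _ _) (mem_Ico.2 ⟨hj', hj⟩)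
        exact ⟨by linarith, fun h4 => by exfalso; linarith⟩
      · exact absurd (Or.inr h1) hx
      · rw [Ws_none h1]
        exact ⟨hpu.le, fun h4 => by exfalso; linarith⟩
  have upp : ∀ x, ((∃ j < μ + 1, inWin j x) ∨
      ∃ (l : Fin 5) (i : ℕ), i < l.val + 1 ∧ x = Vx.fil l i) →
      un μ ≤ Ws (IN N) (ed N) U W x ∧ (Ws (IN N) (ed N) U W x = un μ → x = Vx.bas μ 4) := by
    intro x hx
    by_cases h1 : inWin μ x
    · have e1 := Ws_win' hμN h1 (fun k => wt_win h.dis h.upp (Nat.lt_succ_self μ) k)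
      rw [e1]
      have h1' : (1 : ℚ) ≤ mW ewI (row x) := by exact_mod_cast (mW_ewI_pos (row x)).1
      refine ⟨by nlinarith, fun h2 => ?_⟩
      have h3 : (mW ewI (row x) : ℚ) = 1 := by
        have : (mW ewI (row x) : ℚ) * un μ = 1 * un μ := by rw [h2, one_mul]
        exact mul_right_cancel₀ hpu.ne' this
      exact eq_of_row_four h1 (mW_ewI_eq_one _ (by exact_mod_cast h3))
    · have h2 : (∃ j < μ, inWin j x) ∨
          ∃ (l : Fin 5) (i : ℕ), i < l.val + 1 ∧ x = Vx.fil l i := by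
        rcases hx with ⟨j, hj, hx⟩ | hx
        · rcases Nat.lt_or_ge j μ with h3 | h3
          · exact Or.inl ⟨j, h3, hx⟩
          · obtain rfl : j = μ := by omega
            exact absurd hx h1
        · exact Or.inr hx
      have h3 := upper_ge h.dis hμN.le (fun j hj => h.upp j (by omega)) hF h2
      exact ⟨by linarith, fun h4 => by exfalso; linarith⟩
  rcases cls u with hcu | ⟨hcu, hcu1, hcu2⟩
  · rcases cls v with hcv | ⟨hcv, hcv1, hcv2⟩
    · obtain ⟨i, hi, hal, h1, h2⟩ := upper_pair h.dis h.le h.upp hF hcu hcv he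
      exact absurd ⟨h1, h2⟩ (hno i hi hal)
    · obtain ⟨h1, h2⟩ := upp u hcu
      have e1 : Ws (IN N) (ed N) U W v = un μ := le_antisymm hcv1 (he ▸ h1)
      obtain ⟨hc1, hc2⟩ := hcv2 e1
      right; right
      refine ⟨μ, rfl, Or.inr ?_⟩
      rw [Finset.pair_comm]
      rw [Finset.pair_comm] at hp2
      exact post_to_mid h hv hu huv.symm hp2 hc1 hc2 (h2 (he.trans e1))
  · rcases cls v with hcv | ⟨hcv, hcv1, hcv2⟩
    · obtain ⟨h1, h2⟩ := upp v hcv
      have e1 : Ws (IN N) (ed N) U W u = un μ := le_antisymm hcu1 (he.symm ▸ h1)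
      obtain ⟨hc1, hc2⟩ := hcu2 e1
      right; right
      exact ⟨μ, rfl, Or.inl (post_to_mid h hu hv huv hp1 hc1 hc2 (h2 (he.symm.trans e1)))⟩
    · have k1 : ∀ x, x = u ∨ x = v → ¬ ∃ j < μ + 1, inWin j x := by
        rintro x (rfl | rfl)
        · exact fun h1 => hcu (Or.inl h1)
        · exact fun h1 => hcv (Or.inl h1)
      have k2 : 0 < μ + 1 → ∀ x, x = u ∨ x = v →
          ¬ ∃ (l : Fin 5) (i : ℕ), i < l.val + 1 ∧ x = Vx.fil l i := by
        rintro - x (rfl | rfl)
        · exact fun h1 => hcu (Or.inr h1)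
        · exact fun h1 => hcv (Or.inr h1)
      rcases keep k1 k2 with h1 | h1
      · exact Or.inl h1
      · exact Or.inr (Or.inl h1)

theorem midB_to_midP {μ : ℕ} {S : Finset (ℕ × Fin 4)} {U W : Finset Vx}
    (h : Mid N μ ewB univ S U W) {a b : Fin 4} (hab : a ≠ b)
    (hp : Phi (IN N) (ed N) (U \ {lv μ a, lv μ b}) (insert (lv μ a) W) = 1) :
    Mid N μ (ewP a b) (univ \ {a, b}) (insert (μ, a) S) (U \ {lv μ a, lv μ b})
      (insert (lv μ a) W) := by
  have hu := h.litU a (mem_univ a)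
  have hv := h.litU b (mem_univ b)
  have huv : lv μ a ≠ lv μ b := fun hc => hab (lv_inj.1 hc).2
  refine ⟨disjoint_round h.dis, h.lt, ?_, ?_, ?_, ?_, ?_, ?_, ?_, ?_, hp⟩
  · intro j hj x hx
    simp only [mem_sdiff, mem_insert, mem_singleton]
    refine ⟨h.upp j hj x hx, ?_⟩
    rintro (rfl | rfl)
    · exact absurd (inWin_inj hx (inWin_lv _ _)) (by omega)
    · exact absurd (inWin_inj hx (inWin_lv _ _)) (by omega)
  · intro l i hi
    simp only [mem_sdiff, mem_insert, mem_singleton]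
    refine ⟨h.fil l i hi, ?_⟩
    unfold lv
    simp
  · rw [wt_round h.dis hu hv huv, if_neg (lv_not_mem_core _ _), if_neg (lv_not_mem_core _ _)]
    exact h.core
  · intro k
    rw [wt_round h.dis hu hv huv, h.win k]
    have h1 : ∀ c : Fin 4, lv μ c ∈ ed N (iW μ k) ↔ tinc (lr c) k = true := by
      intro c
      rw [mem_ed_win (inWin_lv μ c), row_lv]
      simp
    simp only [h1]
    have h2 : ∀ a b : Fin 4, a ≠ b → ∀ k : Fin 7, ewP a b k =
        if tinc (lr b) k = true then 0 else if tinc (lr a) k = true then 2 * ewB k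
          else ewB k := by decide +kernel
    rw [h2 a b hab k]
    split_ifs <;> push_cast <;> ring
  · intro c hc
    simp only [mem_sdiff, mem_insert, mem_singleton, mem_univ, true_and, not_or] at hc ⊢
    refine ⟨h.litU c (mem_univ c), ?_, ?_⟩
    · exact fun h1 => hc.1 (lv_inj.1 h1).2
    · exact fun h1 => hc.2 (lv_inj.1 h1).2
  · intro c hc hcon
    simp only [mem_sdiff, mem_insert, mem_singleton, mem_univ, true_and, not_not] at hc hcon
    rcases hc with rfl | rfl
    · exact hcon.2 (Or.inl rfl)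
    · exact hcon.2 (Or.inr rfl)
  · intro j hj1 hj2 c hcon
    exact h.lit j hj1 hj2 c (mem_sdiff.1 hcon).1
  · intro j hj c
    rw [mem_insert, mem_insert, h.sw j hj c, lv_inj, Prod.mk.injEq]

theorem mid_to_post {μ : ℕ} {ew : Fin 7 → ℕ} {L : Finset (Fin 4)} {S : Finset (ℕ × Fin 4)}
    {U W : Finset Vx} (h : Mid N μ ew L S U W) {c d : Fin 4} (hcd : c ≠ d)
    (hc : c ∈ L) (hd : d ∈ L) (hL : ∀ x ∈ L, x = c ∨ x = d)
    (hp : Phi (IN N) (ed N) (U \ {lv μ c, lv μ d}) (insert (lv μ c) W) = 1) :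
    Post N μ (insert (μ, c) S) (U \ {lv μ c, lv μ d}) (insert (lv μ c) W) := by
  have hu := h.litU c hc
  have hv := h.litU d hd
  refine ⟨disjoint_round h.dis, h.lt.le, ?_, ?_, ?_, ?_, ?_, hp⟩
  · intro j hj x hx
    simp only [mem_sdiff, mem_insert, mem_singleton]
    refine ⟨h.upp j hj x hx, ?_⟩
    rintro (rfl | rfl)
    · exact absurd (inWin_inj hx (inWin_lv _ _)) (by omega)
    · exact absurd (inWin_inj hx (inWin_lv _ _)) (by omega)
  · intro _ l i hi
    simp only [mem_sdiff, mem_insert, mem_singleton]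
    refine ⟨h.fil l i hi, ?_⟩
    unfold lv
    simp
  · have hcore : ed N iC ⊆ U ∪ W :=
      subset_of_wt_ne (by rw [h.core]; have := un_pos μ; positivity)
    intro x hx
    have hx' := hcore hx
    simp only [mem_union, mem_sdiff, mem_insert, mem_singleton] at hx' ⊢
    have h1 : x ≠ lv μ c := by rintro rfl; exact lv_not_mem_core _ _ hx
    have h2 : x ≠ lv μ d := by rintro rfl; exact lv_not_mem_core _ _ hx
    rcases hx' with h3 | h3
    · exact Or.inl ⟨h3, by tauto⟩
    · exact Or.inr (Or.inr h3)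
  · intro j hj1 hj2 a hcon
    simp only [mem_sdiff, mem_insert, mem_singleton, not_or] at hcon
    rcases Nat.lt_or_ge μ j with h1 | h1
    · exact h.lit j h1 hj2 a hcon.1
    · obtain rfl : j = μ := by omega
      by_cases ha : a ∈ L
      · rcases hL a ha with rfl | rfl
        · exact hcon.2.1 rfl
        · exact hcon.2.2 rfl
      · exact h.litD a ha hcon.1
  · intro j hj a
    rw [mem_insert, mem_insert, h.sw j hj a, lv_inj, Prod.mk.injEq]

/-- **Soundness**: if Waiter wins from a good position then she wins the abstract game. -/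
theorem sound {T : List (List (ℕ × Fin 4))} {E : Finset (Finset Vx)}
    (hT : ∀ t ∈ T, ∀ x ∈ t, x.1 < N)
    (hE : ∀ e ∈ E, (∃ t ∈ T, ed N iC ⊆ e ∧ ∀ x ∈ t, lv x.1 x.2 ∈ e) ∨
      ∃ i ∈ IN N, i ≠ iC ∧ ed N i ⊆ e)
    {U W : Finset Vx} (hw : WaiterWins E U W) :
    (∀ m S, Post N m S U W → AG T m S) ∧
    (∀ μ S, Mid N μ ewB univ S U W → AG T (μ + 1) S) ∧
    (∀ μ a b S, a ≠ b → Mid N μ (ewP a b) (univ \ {a, b}) S U W →
      ∀ c, c ∉ ({a, b} : Finset (Fin 4)) → AG T μ (insert (μ, c) S)) := by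
  have hE' : ∀ e ∈ E, ∃ i ∈ IN N, ed N i ⊆ e := by
    intro e he
    rcases hE e he with ⟨t, _, h1, _⟩ | ⟨i, hi, _, h1⟩
    · exact ⟨iC, mem_IN.2 (Or.inl rfl), h1⟩
    · exact ⟨i, hi, h1⟩
  -- terminal positions
  have term : ∀ {U W : Finset Vx} {S : Finset (ℕ × Fin 4)}, Post N 0 S U W →
      (∃ e ∈ E, e ⊆ W) → AG T 0 S := by
    rintro U W S h ⟨e, he, heW⟩
    rcases hE e he with ⟨t, ht, _, h1⟩ | ⟨i, hi, hne, h1⟩
    · exact ⟨t, ht, fun x hx => (h.sw x.1 (hT t ht x hx) x.2).1 (heW (h1 x hx))⟩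
    · exfalso
      have hcpos : 0 < wt U W (ed N iC) := wt_pos h.core
      have h2 : wt U W (ed N i) = 1 := wt_of_subset (h1.trans heW)
      have h3 := h.phi
      unfold Phi at h3
      have h4 : wt U W (ed N iC) + wt U W (ed N i) ≤ ∑ i ∈ IN N, wt U W (ed N i) := by
        have : ∑ i ∈ ({iC, i} : Finset Ix), wt U W (ed N i) =
            wt U W (ed N iC) + wt U W (ed N i) := sum_pair hne.symm
        rw [← this]
        refine sum_le_sum_of_subset_of_nonneg ?_ (fun _ _ _ => wt_nonneg _ _ _)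
        intro x hx
        rw [mem_insert, mem_singleton] at hx
        rcases hx with rfl | rfl
        · exact mem_IN.2 (Or.inl rfl)
        · exact hi
      linarith
  have two : ∀ {a b : Fin 4}, a ≠ b → ∃ c d : Fin 4, [a, b, c, d].Nodup := by decide +kernel
  induction hw with
  | @finished W h =>
    refine ⟨?_, ?_, ?_⟩
    · intro m S hP
      rcases Nat.eq_zero_or_pos m with rfl | hm
      · exact term hP h
      · exact absurd (hP.upp 0 hm _ (inWin_lv 0 0)) (notMem_empty _)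
    · intro μ S hM
      exact absurd (hM.litU 0 (mem_univ _)) (notMem_empty _)
    · intro μ a b S hab hM c hc
      exact absurd (hM.litU c (by simpa using hc)) (notMem_empty _)
  | @last v W h =>
    refine ⟨?_, ?_, ?_⟩
    · intro m S hP
      rcases Nat.eq_zero_or_pos m with rfl | hm
      · exact term hP h
      · have h0 := mem_singleton.1 (hP.upp 0 hm _ (inWin_lv 0 0))
        have h1 := mem_singleton.1 (hP.upp 0 hm _ (inWin_lv 0 1))
        exact absurd (lv_inj.1 (h0.trans h1.symm)).2 (by decide)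
    · intro μ S hM
      have h0 := mem_singleton.1 (hM.litU 0 (mem_univ _))
      have h1 := mem_singleton.1 (hM.litU 1 (mem_univ _))
      exact absurd (lv_inj.1 (h0.trans h1.symm)).2 (by decide)
    · intro μ a b S hab hM c hc
      obtain ⟨c', d', hn⟩ := two hab
      simp only [List.nodup_cons, List.mem_cons, List.not_mem_nil, or_false, not_or,
        List.nodup_nil, and_true, not_false_eq_true] at hn
      have h0 := mem_singleton.1 (hM.litU c' (by
        simp only [mem_sdiff, mem_univ, true_and, mem_insert, mem_singleton, not_or]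
        exact ⟨fun h => hn.1.2.1 h.symm, fun h => hn.2.1.1 h.symm⟩))
      have h1 := mem_singleton.1 (hM.litU d' (by
        simp only [mem_sdiff, mem_univ, true_and, mem_insert, mem_singleton, not_or]
        exact ⟨fun h => hn.1.2.2 h.symm, fun h => hn.2.1.2 h.symm⟩))
      exact absurd (lv_inj.1 (h0.trans h1.symm)).2 hn.2.2
  | @offer U W u v hu hv huv h₁ h₂ ih₁ ih₂ =>
    refine ⟨?_, ?_, ?_⟩
    · intro m S hP
      obtain ⟨hp1, hp2, hno, he⟩ := lossless hE' hP.dis hu hv huv h₁ h₂ hP.phi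
      rcases step_post hP hu hv huv hp1 hp2 hno he with h | h | ⟨μ, rfl, h | h⟩
      · exact ih₁.1 m S h
      · exact ih₂.1 m S h
      · exact ih₁.2.1 μ S h
      · exact ih₂.2.1 μ S h
    · intro μ S hM
      obtain ⟨hp1, hp2, hno, he⟩ := lossless hE' hM.dis hu hv huv h₁ h₂ hM.phi
      rcases step_mid hM chkB hu hv huv hp1 hno he with h | ⟨a, _, b, _, hab, rfl, rfl⟩
      · exact ih₁.2.1 μ S h
      · have k1 := ih₁.2.2 μ a b _ hab (midB_to_midP hM hab hp1)
        rw [Finset.pair_comm] at hp2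
        have k2 := midB_to_midP hM hab.symm hp2
        rw [Finset.pair_comm (lv μ b)] at k2
        have k3 := ih₂.2.2 μ b a _ hab.symm k2
        obtain ⟨c, d, hn⟩ := two hab
        refine ⟨a, b, c, d, hn, ?_⟩
        simp only [List.nodup_cons, List.mem_cons, List.not_mem_nil, or_false, not_or,
          List.nodup_nil, and_true, not_false_eq_true] at hn
        obtain ⟨⟨_, hac, had⟩, ⟨hbc, hbd⟩, _⟩ := hn
        refine ⟨k1 c ?_, k1 d ?_, k3 c ?_, k3 d ?_⟩ <;>
          · simp only [mem_insert, mem_singleton, not_or]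
            constructor <;> (intro hh; subst hh; simp_all)
    · intro μ a b S hab hM c hc
      obtain ⟨hp1, hp2, hno, he⟩ := lossless hE' hM.dis hu hv huv h₁ h₂ hM.phi
      rcases step_mid hM (chkP a b hab) hu hv huv hp1 hno he with
        h | ⟨c', hc', d', hd', hcd, rfl, rfl⟩
      · exact ih₁.2.2 μ a b S hab h c hc
      · have hL : ∀ x ∈ (univ \ {a, b} : Finset (Fin 4)), x = c' ∨ x = d' := by
          have : ∀ a b c' d' : Fin 4, a ≠ b → c' ≠ d' → c' ∈ (univ \ {a, b} : Finset (Fin 4)) →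
              d' ∈ (univ \ {a, b} : Finset (Fin 4)) →
              ∀ x ∈ (univ \ {a, b} : Finset (Fin 4)), x = c' ∨ x = d' := by decide +kernel
          exact this a b c' d' hab hcd hc' hd'
        rcases hL c (by simpa using hc) with rfl | rfl
        · exact ih₁.1 μ _ (mid_to_post hM hcd hc' hd' hL hp1)
        · rw [Finset.pair_comm] at hp2
          have k := mid_to_post hM hcd.symm hd' hc' (fun x hx => (hL x hx).symm) hp2
          rw [Finset.pair_comm (lv μ _) (lv μ c')] at k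
          exact ih₂.1 μ _ k

end Pool.Agent.Lib.MP_c85d9c_lc
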