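import Pool.Agent.Lib.MP_c85d9c_lc.Machine

/-!
# Specifications of programs
-/

set_option linter.unusedSectionVars false

namespace Pool.Agent.Lib.MP_c85d9c_lc

open Function

variable {A R : Type} [DecidableEq R] [Inhabited A]

namespace Cmd

/-- The store with the given input, values of the counters and reversed output. -/
def st (inp : List A) (ρ : R → ℕ) (o : List A) : Store A R
  | Sum.inl (false, none) => inp
  | Sum.inl (false, some r) => List.replicate (ρ r) default
  | Sum.inl (true, _) => []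
  | Sum.inr false => o
  | Sum.inr true => []

/-- Started with the values `ρ` of the counters, the program ends with the values `ρ'`, prints `w`
and runs in time at most `t`. -/
def Spec (inp : List A) (c : Cmd A R) (ρ ρ' : R → ℕ) (w : List A) (t : ℕ) : Prop :=
  ∀ o, exec c (st inp ρ o) = st inp ρ' (w.reverse ++ o) ∧ cost c (st inp ρ o) ≤ t

/-- The same for the programs `f a` with `a` in a list; `t` bounds the time of each of them. -/
def SpecL (inp : List A) (f : A → Cmd A R) (l : List A) (ρ ρ' : R → ℕ) (w : List A) (t : ℕ) :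
    Prop :=
  ∀ o, l.foldl (fun S a => exec (f a) S) (st inp ρ o) = st inp ρ' (w.reverse ++ o) ∧
    ∀ n, (l.foldl (fun p a => (exec (f a) p.1, p.2 + (cost (f a) p.1 + 1))) (st inp ρ o, n)).2 ≤
      n + l.length * (t + 1)

variable {inp : List A}

theorem Spec.mono {c : Cmd A R} {ρ ρ' : R → ℕ} {w : List A} {t t' : ℕ} (h : Spec inp c ρ ρ' w t)
    (ht : t ≤ t') : Spec inp c ρ ρ' w t' := fun o => ⟨(h o).1, (h o).2.trans ht⟩

theorem Spec.skip {ρ : R → ℕ} : Spec inp (Cmd.skip : Cmd A R) ρ ρ [] 1 :=
  fun _ => ⟨rfl, le_rfl⟩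

theorem Spec.out {ρ : R → ℕ} (a : A) : Spec inp (Cmd.out a : Cmd A R) ρ ρ [a] 1 := by
  intro o
  refine ⟨?_, le_rfl⟩
  unfold exec
  funext k
  by_cases hk : k = ou
  · subst hk; rw [update_self]; rfl
  · rw [update_of_ne hk]
    rcases k with ⟨_ | _, _ | _⟩ | _ | _ <;> first | rfl | exact absurd rfl hk

theorem Spec.inc {ρ : R → ℕ} (r : R) :
    Spec inp (Cmd.inc r : Cmd A R) ρ (update ρ r (ρ r + 1)) [] 1 := by
  intro o
  refine ⟨?_, le_rfl⟩
  unfold exec
  funext k
  by_cases hk : k = mn (some r)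
  · subst hk
    rw [update_self]
    unfold st
    simp only [update_self]
    rw [List.replicate_succ]
  · rw [update_of_ne hk]
    rcases k with ⟨_ | _, _ | r'⟩ | _ | _
    · rfl
    · have : r' ≠ r := by rintro rfl; exact hk rfl
      unfold st
      simp only [update_of_ne this]
    all_goals rfl

theorem Spec.clr {ρ : R → ℕ} (r : R) :
    Spec inp (Cmd.clr r : Cmd A R) ρ (update ρ r 0) [] (ρ r + 1) := by
  intro o
  constructor
  · unfold exec
    funext k
    by_cases hk : k = mn (some r)
    · subst hk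
      rw [update_self]
      unfold st
      simp only [update_self]
      rfl
    · rw [update_of_ne hk]
      rcases k with ⟨_ | _, _ | r'⟩ | _ | _
      · rfl
      · have : r' ≠ r := by rintro rfl; exact hk rfl
        unfold st
        simp only [update_of_ne this]
      all_goals rfl
  · unfold cost st
    simp

theorem Spec.seq {c d : Cmd A R} {ρ₀ ρ₁ ρ₂ : R → ℕ} {w₁ w₂ : List A} {t₁ t₂ : ℕ}
    (h₁ : Spec inp c ρ₀ ρ₁ w₁ t₁) (h₂ : Spec inp d ρ₁ ρ₂ w₂ t₂) :
    Spec inp (Cmd.seq c d) ρ₀ ρ₂ (w₁ ++ w₂) (t₁ + t₂) := by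
  intro o
  obtain ⟨e1, c1⟩ := h₁ o
  obtain ⟨e2, c2⟩ := h₂ (w₁.reverse ++ o)
  unfold exec cost
  rw [e1, e2]
  exact ⟨by simp, add_le_add c1 c2⟩

theorem SpecL.nil {f : A → Cmd A R} {ρ : R → ℕ} {t : ℕ} : SpecL inp f [] ρ ρ [] t :=
  fun _ => ⟨rfl, fun n => by simp⟩

theorem SpecL.cons {f : A → Cmd A R} {a : A} {l : List A} {ρ₀ ρ₁ ρ₂ : R → ℕ} {w₁ w₂ : List A}
    {t : ℕ} (h₁ : Spec inp (f a) ρ₀ ρ₁ w₁ t) (h₂ : SpecL inp f l ρ₁ ρ₂ w₂ t) :
    SpecL inp f (a :: l) ρ₀ ρ₂ (w₁ ++ w₂) t := by
  intro o
  obtain ⟨e1, c1⟩ := h₁ o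
  obtain ⟨e2, c2⟩ := h₂ (w₁.reverse ++ o)
  constructor
  · rw [List.foldl_cons, e1, e2]; simp
  · intro n
    rw [List.foldl_cons]
    simp only
    rw [e1]
    refine (c2 _).trans ?_
    rw [List.length_cons, Nat.add_mul]
    omega

theorem foldl_pair_fst (f : A → Cmd A R) (l : List A) : ∀ (S : Store A R) (n : ℕ),
    (l.foldl (fun p a => (exec (f a) p.1, p.2 + (cost (f a) p.1 + 1))) (S, n)).1 =
      l.foldl (fun S a => exec (f a) S) S := by
  induction l with
  | nil => intro S n; rfl
  | cons a l ih => intro S n; simp only [List.foldl_cons]; rw [ih]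

theorem SpecL.append {f : A → Cmd A R} {l l' : List A} {ρ₀ ρ₁ ρ₂ : R → ℕ} {w₁ w₂ : List A}
    {t : ℕ} (h₁ : SpecL inp f l ρ₀ ρ₁ w₁ t) (h₂ : SpecL inp f l' ρ₁ ρ₂ w₂ t) :
    SpecL inp f (l ++ l') ρ₀ ρ₂ (w₁ ++ w₂) t := by
  intro o
  obtain ⟨e1, c1⟩ := h₁ o
  obtain ⟨e2, c2⟩ := h₂ (w₁.reverse ++ o)
  constructor
  · rw [List.foldl_append, e1, e2]; simp
  · intro n
    rw [List.foldl_append]
    have h := c1 n
    have h' := foldl_pair_fst f l (st inp ρ₀ o) n
    rw [e1] at h'
    generalize l.foldl (fun p a => (exec (f a) p.1, p.2 + (cost (f a) p.1 + 1)))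
      (st inp ρ₀ o, n) = P at h h'
    obtain ⟨P1, P2⟩ := P
    simp only at h h'
    subst h'
    refine (c2 _).trans ?_
    rw [List.length_append, Nat.add_mul]
    omega

theorem Spec.each {k : Option R} {f : A → Cmd A R} {ρ ρ' : R → ℕ} {w : List A} {t n : ℕ}
    {l : List A} (hl : ∀ o, st inp ρ o (mn k) = l) (hn : l.length = n)
    (h : SpecL inp f l ρ ρ' w t) :
    Spec inp (Cmd.each k f) ρ ρ' w (n * (t + 1) + (n + 2)) := by
  intro o
  unfold exec cost
  rw [hl, hn]
  refine ⟨(h o).1, ?_⟩
  have := (h o).2 0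
  rw [hn] at this
  omega

theorem SpecL.replicate {f : A → Cmd A R} {σ : ℕ → R → ℕ} {w : ℕ → List A} {t : ℕ} :
    ∀ (n m : ℕ), (∀ i, m ≤ i → i < m + n → Spec inp (f default) (σ i) (σ (i + 1)) (w i) t) →
    SpecL inp f (List.replicate n default) (σ m) (σ (m + n)) ((List.range' m n).flatMap w) t := by
  intro n
  induction n with
  | zero => intro m _; exact SpecL.nil
  | succ n ih =>
    intro m h
    rw [List.replicate_succ, List.range'_succ, List.flatMap_cons]
    refine SpecL.cons (h m le_rfl (by omega)) ?_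
    have := ih (m + 1) (fun i h1 h2 => h i (by omega) (by omega))
    rwa [show m + 1 + n = m + (n + 1) by ring] at this

/-- A loop over a counter. -/
theorem Spec.for {r : R} {f : A → Cmd A R} {σ : ℕ → R → ℕ} {w : ℕ → List A} {t n : ℕ}
    (hn : σ 0 r = n) (h : ∀ i < n, Spec inp (f default) (σ i) (σ (i + 1)) (w i) t) :
    Spec inp (Cmd.each (some r) f) (σ 0) (σ n) ((List.range n).flatMap w)
      (n * (t + 1) + (n + 2)) := by
  refine Spec.each (l := List.replicate n default) (fun o => ?_) (List.length_replicate) ?_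
  · unfold st; simp [hn]
  · have := SpecL.replicate (inp := inp) (f := f) (σ := σ) (w := w) (t := t) n 0
      (fun i _ hi => h i (by omega))
    rw [Nat.zero_add, ← List.range_eq_range'] at this
    exact this

/-- The sequence of several programs. -/
def seqs : List (Cmd A R) → Cmd A R := List.foldr Cmd.seq Cmd.skip

theorem seqs_nil : seqs ([] : List (Cmd A R)) = Cmd.skip := rfl

theorem seqs_cons (c : Cmd A R) (l : List (Cmd A R)) : seqs (c :: l) = Cmd.seq c (seqs l) := rfl

/-- Programs that do not change the counters. -/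
theorem Spec.seqs {ι : Type} {ρ : R → ℕ} {t : ℕ} (c : ι → Cmd A R) (w : ι → List A) :
    ∀ l : List ι, (∀ x ∈ l, Spec inp (c x) ρ ρ (w x) t) →
    Spec inp (seqs (l.map c)) ρ ρ (l.flatMap w) (l.length * t + 1) := by
  intro l
  induction l with
  | nil => intro _; exact Spec.skip.mono (by simp)
  | cons x l ih =>
    intro h
    rw [List.map_cons, seqs_cons, List.flatMap_cons]
    refine (Spec.seq (h x (by simp)) (ih fun y hy => h y (by simp [hy]))).mono ?_
    rw [List.length_cons, Nat.add_mul]
    omega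

/-- The program that prints `l`. -/
def outs (l : List A) : Cmd A R := seqs (l.map Cmd.out)

theorem Spec.outs {ρ : R → ℕ} (l : List A) :
    Spec inp (outs l : Cmd A R) ρ ρ l (l.length + 1) := by
  have := Spec.seqs (inp := inp) (ρ := ρ) (t := 1) (Cmd.out : A → Cmd A R) (fun a => [a]) l
    (fun a _ => Spec.out a)
  rw [Nat.mul_one] at this
  have e : (l.flatMap fun a => [a]) = l := by simp
  rwa [e] at this

/-- The output is at most as long as the running time. -/
theorem length_le_cost (c : Cmd A R) : ∀ S : Store A R,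
    (exec c S ou).length ≤ (S ou).length + cost c S := by
  induction c with
  | skip => intro S; unfold exec; omega
  | out a =>
    intro S; unfold exec cost; rw [update_self, List.length_cons]
  | inc r => intro S; unfold exec cost; rw [update_of_ne (by simp)]; omega
  | clr r => intro S; unfold exec cost; rw [update_of_ne (by simp)]; omega
  | seq c d ihc ihd =>
    intro S
    have h1 := ihc S
    have h2 := ihd (exec c S)
    unfold exec cost
    omega
  | each k f ih =>
    intro S
    have h2 : ∀ (L : List A) (S : Store A R) (n : ℕ),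
        (L.foldl (fun S a => exec (f a) S) S ou).length + n ≤ (S ou).length +
        (L.foldl (fun p a => (exec (f a) p.1, p.2 + (cost (f a) p.1 + 1))) (S, n)).2 := by
      intro L
      induction L with
      | nil => intro S n; exact le_rfl
      | cons a L ihL =>
        intro S n
        simp only [List.foldl_cons]
        have h1 := ihL (exec (f a) S) (n + (cost (f a) S + 1))
        have h3 := ih a S
        omega
    have := h2 (S (mn k)) S 0
    unfold exec cost
    omega

end Cmd

end Pool.Agent.Lib.MP_c85d9c_lc
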