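import Mathlib

/-!
# The Waiter-Client game and the decision problem WAITER-CLIENT (explicit edges)
-/

namespace Pool.Agent.Lib.MP_c85d9c_lc

/-- `WaiterWins E U W`: a position of the Waiter-Client game on the hypergraph with edges `E`, with
Waiter to offer, in which the unclaimed vertices are those of `U`, the vertices owned by Waiter
are those of `W` (and all the other ones are owned by Client), and in which Waiter has a winning
strategy.

* `finished`: all vertices are claimed and Waiter owns every vertex of some edge;
* `last`: one vertex is left, it goes to Client, and Waiter owns every vertex of some edge;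
* `offer`: Waiter offers two unclaimed vertices `u ≠ v`; whichever of them Client claims, the other
  one becomes Waiter's and Waiter can win from there. -/
inductive WaiterWins {V : Type} [DecidableEq V] (E : Finset (Finset V)) :
    Finset V → Finset V → Prop
  | finished {W : Finset V} (h : ∃ e ∈ E, e ⊆ W) : WaiterWins E ∅ W
  | last {v : V} {W : Finset V} (h : ∃ e ∈ E, e ⊆ W) : WaiterWins E {v} W
  | offer {U W : Finset V} {u v : V} (hu : u ∈ U) (hv : v ∈ U) (huv : u ≠ v)
      (h₁ : WaiterWins E (U \ {u, v}) (insert u W))
      (h₂ : WaiterWins E (U \ {u, v}) (insert v W)) : WaiterWins E U W

/-- A hypergraph given by the list of its edges; each edge is written out as a list of vertices,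
and a vertex is named by a binary word. -/
abbrev Hyp := List (List (List Bool))

/-- The edges of the hypergraph, as a finite set of finite sets of vertices. -/
def Hyp.edges (H : Hyp) : Finset (Finset (List Bool)) := (H.map List.toFinset).toFinset

/-- The vertices of the hypergraph. -/
def Hyp.vertices (H : Hyp) : Finset (List Bool) := H.flatten.toFinset

/-- Waiter has a winning strategy in the Waiter-Client game on `H` (all vertices start
unclaimed). -/
def Hyp.IsWaiterWin (H : Hyp) : Prop := WaiterWins H.edges H.vertices ∅

/-! ## Encodings by words over a finite alphabet -/

/-- The alphabet of the encodings. -/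
inductive Sym
  | bit (b : Bool)
  | vert
  | edge
  | tick
  | lit (u b : Bool)
  | stop
  deriving DecidableEq, Fintype, Inhabited

/-- The encoding of a vertex. -/
def encV (v : List Bool) : List Sym := Sym.vert :: v.map Sym.bit

/-- The encoding of an edge. -/
def encE (e : List (List Bool)) : List Sym := Sym.edge :: e.flatMap encV

/-- The encoding of a hypergraph. -/
def Hyp.encode (H : Hyp) : List Sym := H.flatMap encE

end Pool.Agent.Lib.MP_c85d9c_lc
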